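import Mathlib

/-!
# Topological groups with a norm and a contraction, and two extension lemmas

`Con G`: a norm `N` which defines the topology of the topological group `G`, and a contraction
`c t : G → G` with `N (c t g) ≤ N g`. The path `lam x y t = x * c t (x⁻¹ * y)` leads from `x`
(`t ≤ 0`) to `y` (`1 ≤ t`).
-/

set_option autoImplicit false
set_option linter.unusedSectionVars false

open Set Topology Filter

namespace Pool.Agent.H662.HM

/-- a norm and a contraction on a topological group -/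
structure Con (G : Type*) [Group G] [TopologicalSpace G] where
  N : G → ℝ
  c : ℝ → G → G
  N_one : N 1 = 0
  N_nonneg : ∀ g, 0 ≤ N g
  N_inv : ∀ g, N g⁻¹ = N g
  N_mul : ∀ g h, N (g * h) ≤ N g + N h
  nhds_basis : (𝓝 (1 : G)).HasBasis (fun ε : ℝ => 0 < ε) (fun ε => {g | N g < ε})
  c_cont : Continuous (fun p : ℝ × G => c p.1 p.2)
  c_zero : ∀ t g, t ≤ 0 → c t g = 1
  c_one : ∀ t g, 1 ≤ t → c t g = g
  N_c : ∀ t g, N (c t g) ≤ N g

namespace Con

variable {G : Type*} [Group G] [TopologicalSpace G] [IsTopologicalGroup G] (κ : Con G)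

/-- the left invariant distance -/
def dL (x y : G) : ℝ := κ.N (x⁻¹ * y)

theorem dL_self (x : G) : κ.dL x x = 0 := by simp [dL, κ.N_one]

theorem dL_nonneg (x y : G) : 0 ≤ κ.dL x y := κ.N_nonneg _

theorem dL_comm (x y : G) : κ.dL x y = κ.dL y x := by
  unfold dL
  rw [← κ.N_inv (x⁻¹ * y)]
  simp

theorem dL_triangle (x y z : G) : κ.dL x z ≤ κ.dL x y + κ.dL y z := by
  unfold dL
  have := κ.N_mul (x⁻¹ * y) (y⁻¹ * z)
  simpa [mul_assoc] using this

theorem dL_triangle' (x y z : G) : κ.dL x z ≤ κ.dL y x + κ.dL y z := by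
  have := κ.dL_triangle x y z
  rwa [κ.dL_comm x y] at this

theorem tendsto_iff {ι : Type*} {l : Filter ι} {u : ι → G} {g : G} :
    Tendsto u l (𝓝 g) ↔ ∀ ε > 0, ∀ᶠ i in l, κ.dL g (u i) < ε := by
  have h1 : Tendsto u l (𝓝 g) ↔ Tendsto (fun i => g⁻¹ * u i) l (𝓝 1) := by
    constructor
    · intro h
      have := h.const_mul g⁻¹
      simpa using this
    · intro h
      have := h.const_mul g
      simpa using this
  rw [h1, κ.nhds_basis.tendsto_right_iff]
  rfl

theorem continuous_N : Continuous κ.N := by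
  rw [continuous_iff_continuousAt]
  intro g
  rw [Metric.continuousAt_iff']
  intro ε hε
  have h1 : ∀ᶠ x in 𝓝 g, κ.dL g x < ε := κ.tendsto_iff.1 tendsto_id ε hε
  filter_upwards [h1] with x hx
  rw [Real.dist_eq, abs_sub_lt_iff]
  have h2 : κ.N x ≤ κ.N g + κ.dL g x := by
    have := κ.N_mul g (g⁻¹ * x)
    simpa [dL] using this
  have h3 : κ.N g ≤ κ.N x + κ.dL x g := by
    have := κ.N_mul x (x⁻¹ * g)
    simpa [dL] using this
  rw [κ.dL_comm x g] at h3
  constructor <;> linarith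

theorem continuous_dL : Continuous (fun p : G × G => κ.dL p.1 p.2) :=
  κ.continuous_N.comp (continuous_fst.inv.mul continuous_snd)

/-- the path from `x` to `y` -/
def lam (x y : G) (t : ℝ) : G := x * κ.c t (x⁻¹ * y)

theorem lam_of_le (x y : G) {t : ℝ} (h : t ≤ 0) : κ.lam x y t = x := by
  simp [lam, κ.c_zero t _ h]

theorem lam_of_ge (x y : G) {t : ℝ} (h : 1 ≤ t) : κ.lam x y t = y := by
  simp [lam, κ.c_one t _ h]

theorem dL_lam (x y : G) (t : ℝ) : κ.dL x (κ.lam x y t) ≤ κ.dL x y := by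
  unfold dL lam
  simpa using κ.N_c t (x⁻¹ * y)

theorem continuous_lam : Continuous (fun p : G × G × ℝ => κ.lam p.1 p.2.1 p.2.2) := by
  unfold lam
  have h1 : Continuous (fun p : G × G × ℝ => ((p.2.2, p.1⁻¹ * p.2.1) : ℝ × G)) := by fun_prop
  exact continuous_fst.mul (κ.c_cont.comp h1)

/-- the sets which are closed under `lam` and contain `1` -/
structure Cx (D : Set G) : Prop where
  one : (1 : G) ∈ D
  lam : ∀ x ∈ D, ∀ y ∈ D, ∀ t, κ.lam x y t ∈ D

/-- the chain of joins -/
def chain (g : ℕ → G) (t : ℕ → ℝ) : ℕ → ℕ → G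
  | 0, _ => 1
  | r + 1, k => κ.lam (g k) (chain g t r (k + 1)) (t k)

theorem chain_stable (g : ℕ → G) (t : ℕ → ℝ) {m : ℕ} (hm : t m ≤ 0) :
    ∀ (r r' k : ℕ), k ≤ m → m < k + r → m < k + r' → κ.chain g t r k = κ.chain g t r' k := by
  intro r
  induction r with
  | zero => intro r' k h1 h2 _; omega
  | succ r ih =>
    intro r' k h1 h2 h3
    cases r' with
    | zero => omega
    | succ r' =>
      show κ.lam _ _ _ = κ.lam _ _ _
      by_cases hk : k = m
      · subst hk
        rw [κ.lam_of_le _ _ hm, κ.lam_of_le _ _ hm]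
      · rw [ih r' (k + 1) (by omega) (by omega) (by omega)]

theorem chain_mem {D : Set G} (hD : κ.Cx D) (g : ℕ → G) (t : ℕ → ℝ)
    (h : ∀ k, t k < 1 → g k ∈ D) : ∀ r k, κ.chain g t r k ∈ D := by
  intro r
  induction r with
  | zero => intro k; exact hD.one
  | succ r ih =>
    intro k
    show κ.lam _ _ _ ∈ D
    by_cases hk : t k < 1
    · exact hD.lam _ (h k hk) _ (ih (k + 1)) _
    · rw [κ.lam_of_ge _ _ (not_lt.1 hk)]
      exact ih (k + 1)

theorem chain_dL (g : ℕ → G) (t : ℕ → ℝ) (z : G) (ε : ℕ → ℝ) (hε : ∀ k, 0 ≤ ε k)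
    (h : ∀ k, t k < 1 → κ.dL (g k) z ≤ ε k) {m : ℕ} (hm : t m ≤ 0) :
    ∀ (r k : ℕ), k ≤ m → m < k + r →
      κ.dL (κ.chain g t r k) z ≤ 2 * ∑ i ∈ Finset.Icc k m, ε i := by
  intro r
  induction r with
  | zero => intro k h1 h2; omega
  | succ r ih =>
    intro k h1 h2
    show κ.dL (κ.lam _ _ _) z ≤ _
    have hsum : ∑ i ∈ Finset.Icc k m, ε i = ε k + ∑ i ∈ Finset.Icc (k + 1) m, ε i := by
      rw [← Finset.insert_Icc_succ_left_eq_Icc h1, Finset.sum_insert (by simp)]
      rfl
    have hs0 : 0 ≤ ∑ i ∈ Finset.Icc (k + 1) m, ε i := Finset.sum_nonneg fun i _ => hε i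
    by_cases hk : k = m
    · subst hk
      rw [κ.lam_of_le _ _ hm]
      have := h k (by linarith)
      have := hε k
      linarith
    · have ih' := ih (k + 1) (by omega) (by omega)
      by_cases hk1 : t k < 1
      · have h3 := h k hk1
        have h4 := κ.dL_lam (g k) (κ.chain g t r (k + 1)) (t k)
        have h5 := κ.dL_triangle (g k) z (κ.chain g t r (k + 1))
        have h6 := κ.dL_triangle' (κ.lam (g k) (κ.chain g t r (k + 1)) (t k)) (g k) z
        rw [κ.dL_comm z] at h5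
        rw [hsum]
        linarith
      · rw [κ.lam_of_ge _ _ (not_lt.1 hk1), hsum]
        have := hε k
        linarith

end Con

end Pool.Agent.H662.HM
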