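import Mathlib

/-!
# The group of the homeomorphisms of the closed unit ball which fix the boundary
-/

set_option autoImplicit false
set_option linter.unusedSectionVars false

open Set Topology Filter

namespace Pool.Agent.H662.HM

/-- `h` is affine up to `η` at the scale `s`: there is `θ < η` such that, at every point `x`, for
some linear isomorphism `A`, the points `A⁻¹ (h (x + v) - h x)` and `v` have distance at most
`θ * s` for every `v` of norm at most `s` -/
def NearAffine {E : Type*} [NormedAddCommGroup E] [NormedSpace ℝ E] (η s : ℝ) (h : E → E) : Prop :=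
  ∃ θ < η, ∀ x, ∃ A : E ≃L[ℝ] E, ∀ v, ‖v‖ ≤ s → ‖A.symm (h (x + v) - h x) - v‖ ≤ θ * s

/-- the closed unit ball of a normed space -/
def UB (E : Type*) [NormedAddCommGroup E] : Type _ := {x : E // ‖x‖ ≤ 1}

instance (E : Type*) [NormedAddCommGroup E] : TopologicalSpace (UB E) :=
  TopologicalSpace.induced (fun x : UB E => x.1) inferInstance

/-- the homeomorphisms of the closed unit ball which fix every boundary point -/
def HB (E : Type*) [NormedAddCommGroup E] : Type _ :=
  {h : UB E ≃ₜ UB E // ∀ x : UB E, ‖x.1‖ = 1 → h x = x}

/-- the compact-open topology -/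
instance (E : Type*) [NormedAddCommGroup E] : TopologicalSpace (HB E) :=
  TopologicalSpace.induced (fun h : HB E => (ContinuousMap.mk h.1 h.1.continuous : C(UB E, UB E)))
    ContinuousMap.compactOpen

/-- the extension of `h` by the identity to the whole space -/
noncomputable def hat {E : Type*} [NormedAddCommGroup E] (h : HB E) (x : E) : E :=
  if hx : ‖x‖ ≤ 1 then (h.1 ⟨x, hx⟩).1 else x

/-- `h` is a diffeomorphism of class `C^r`: the extension of `h` by the identity has class `C^r`,
and so has its inverse -/
def IsDiffeo {E : Type*} [NormedAddCommGroup E] [NormedSpace ℝ E] (r : WithTop ℕ∞) (h : HB E) :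
    Prop :=
  ContDiff ℝ r (hat h) ∧ ∃ g : E → E, ContDiff ℝ r g ∧ ∀ x, g (hat h x) = x

/-- the homeomorphisms of the ball which are affine up to `η` at arbitrarily small scales -/
def WB (E : Type*) [NormedAddCommGroup E] [NormedSpace ℝ E] (η : ℝ) : Set (HB E) :=
  {h | ∀ ε > 0, ∃ s, 0 < s ∧ s < ε ∧ NearAffine η s (hat h)}

end Pool.Agent.H662.HM
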