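import Pool.Agent.H662.HM.Op
import Pool.Agent.H662.HM.Def

/-!
# Homeomorphisms which are nearly affine at a scale
-/

set_option autoImplicit false
set_option linter.unusedSectionVars false

open Set Topology Filter MeasureTheory Measure
open scoped BoundedContinuousFunction ContDiff Convolution

namespace Pool.Agent.H662.HM

section Basic

variable {E : Type*} [NormedAddCommGroup E] [NormedSpace ℝ E]

theorem NearAffine.mono {η η' s : ℝ} {h : E → E} (hh : NearAffine η s h) (hη : η ≤ η') :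
    NearAffine η' s h := by
  obtain ⟨θ, hθ, h1⟩ := hh
  exact ⟨θ, hθ.trans_le hη, h1⟩

theorem NearAffine.half {η s s' : ℝ} {h : E → E} (hh : NearAffine η s' h) (hs : 0 < s)
    (h1 : s ≤ s') (h2 : s' ≤ 2 * s) : NearAffine (2 * η) s h := by
  obtain ⟨θ, hθ, h3⟩ := hh
  have hθ0 : 0 ≤ θ := by
    obtain ⟨A, hA⟩ := h3 0
    have := hA 0 (by simpa using hs.le.trans h1)
    simp only [add_zero, sub_self, map_zero, norm_zero] at this
    exact nonneg_of_mul_nonneg_left this (hs.trans_le h1)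
  refine ⟨2 * θ, by linarith, fun x => ?_⟩
  obtain ⟨A, hA⟩ := h3 x
  refine ⟨A, fun v hv => (hA v (hv.trans h1)).trans ?_⟩
  nlinarith

end Basic

variable {E : Type*} [NormedAddCommGroup E] [NormedSpace ℝ E] [FiniteDimensional ℝ E]

/-- the linear maps which come with a homeomorphism have bounded inverses -/
theorem exists_bound_symm (h : HG E) {s : ℝ} (hs : 0 < s) : ∃ B : ℝ, 0 < B ∧
    ∀ (θ : ℝ) (x : E) (A : E ≃L[ℝ] E), θ ≤ 1 →
      (∀ v, ‖v‖ ≤ s → ‖A.symm (h.1 (x + v) - h.1 x) - v‖ ≤ θ * s) →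
      ∀ p, ‖A.symm p‖ ≤ B * ‖p‖ := by
  obtain ⟨r, hr, h1⟩ := Metric.uniformContinuous_iff.1 (HG.uniformContinuous h⁻¹) s hs
  refine ⟨2 * s / (r / 2), by positivity, ?_⟩
  intro θ x A hθ hA p
  -- small vectors
  have h2 : ∀ p : E, ‖p‖ < r → ‖A.symm p‖ ≤ 2 * s := by
    intro p hp
    have h3 : dist (h⁻¹.1 (h.1 x + p)) (h⁻¹.1 (h.1 x)) < s := h1 (by simpa using hp)
    have h4 : h⁻¹.1 (h.1 x) = x := h.1.symm_apply_apply x
    have h5 : h.1 (h⁻¹.1 (h.1 x + p)) = h.1 x + p := h.1.apply_symm_apply _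
    rw [h4, dist_eq_norm] at h3
    have h6 := hA (h⁻¹.1 (h.1 x + p) - x) h3.le
    rw [add_sub_cancel, h5, add_sub_cancel_left] at h6
    have h7 := norm_sub_norm_le (A.symm p) (h⁻¹.1 (h.1 x + p) - x)
    nlinarith
  by_cases hp : p = 0
  · subst hp; simp
  · have hp' : 0 < ‖p‖ := norm_pos_iff.2 hp
    have h3 := h2 ((r / 2 / ‖p‖) • p) (by
      rw [norm_smul, Real.norm_of_nonneg (by positivity), div_mul_cancel₀ _ hp'.ne']
      linarith)
    rw [map_smul, norm_smul, Real.norm_of_nonneg (by positivity)] at h3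
    rw [div_mul_eq_mul_div, div_le_iff₀ hp'] at h3
    rw [div_mul_eq_mul_div, le_div_iff₀ (by positivity)]
    linarith

/-- the condition is open -/
theorem isOpen_nearAffine (η : ℝ) (hη : η ≤ 1) {s : ℝ} (hs : 0 < s) :
    IsOpen {h : HG E | NearAffine η s h.1} := by
  rw [Metric.isOpen_iff]
  rintro h ⟨θ, hθ, hA⟩
  obtain ⟨B, hB, hB'⟩ := exists_bound_symm h hs
  refine ⟨(η - θ) / 2 * s / (2 * B), by have : 0 < η - θ := by linarith
                                        positivity, fun h' hh' => ?_⟩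
  rw [Metric.mem_ball] at hh'
  refine ⟨(θ + η) / 2, by linarith, fun x => ?_⟩
  obtain ⟨A, hA⟩ := hA x
  refine ⟨A, fun v hv => ?_⟩
  have h1 := hA v hv
  have h2 := hB' θ x A (by linarith) hA ((h'.1 (x + v) - h'.1 x) - (h.1 (x + v) - h.1 x))
  have h3 : A.symm (h'.1 (x + v) - h'.1 x) - v =
      (A.symm (h.1 (x + v) - h.1 x) - v) +
        A.symm ((h'.1 (x + v) - h'.1 x) - (h.1 (x + v) - h.1 x)) := by
    rw [map_sub A.symm (h'.1 (x + v) - h'.1 x)]
    abel
  have h4 : ‖(h'.1 (x + v) - h'.1 x) - (h.1 (x + v) - h.1 x)‖ ≤ 2 * dist h' h := by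
    have e : (h'.1 (x + v) - h'.1 x) - (h.1 (x + v) - h.1 x) =
      (h'.1 (x + v) - h.1 (x + v)) - (h'.1 x - h.1 x) := by abel
    rw [e]
    have := norm_sub_le (h'.1 (x + v) - h.1 (x + v)) (h'.1 x - h.1 x)
    linarith [HG.norm_sub_le_dist h' h (x + v), HG.norm_sub_le_dist h' h x]
  rw [h3]
  have h5 := norm_add_le (A.symm (h.1 (x + v) - h.1 x) - v)
    (A.symm ((h'.1 (x + v) - h'.1 x) - (h.1 (x + v) - h.1 x)))
  rw [lt_div_iff₀ (by positivity)] at hh'
  have h6 : B * ‖(h'.1 (x + v) - h'.1 x) - (h.1 (x + v) - h.1 x)‖ ≤ B * (2 * dist h' h) :=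
    mul_le_mul_of_nonneg_left h4 hB.le
  nlinarith

section

variable [MeasurableSpace E] [BorelSpace E]

theorem T_hom (h : HG E) (s : ℝ) (x : E) : T s h.1 x = x + T s (HG.disp h) x := by
  have h1 := T_add continuous_id (HG.disp h).continuous s x
  have h2 : (fun y => id y + HG.disp h y) = (h.1 : E → E) := by
    ext y
    rw [HG.disp_apply]
    simp
  rw [h2] at h1
  rw [h1]
  congr 1
  exact T_id s x

variable (E) in
/-- the smoothing of a nearly affine homeomorphism is a diffeomorphism close to it -/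
theorem exists_eta : ∃ η : ℝ, 0 < η ∧ η ≤ 1 ∧ ∀ (h : HG E) (s : ℝ), 0 < s → NearAffine η s h.1 →
    HG.disp h ∈ Us s ∧ ∀ x, ‖h⁻¹.1 (x + T s (HG.disp h) x) - x‖ ≤ s / 8 := by
  obtain ⟨C, hC1, hC⟩ := exists_T_lip E
  have hC0 : 0 < C := by linarith
  refine ⟨min (1 / 16) (1 / (2 * C)), lt_min (by norm_num) (by positivity),
    (min_le_left _ _).trans (by norm_num), ?_⟩
  rintro h s hs ⟨θ, hθ, hA⟩
  have hθ1 : θ < 1 / 16 := hθ.trans_le (min_le_left _ _)
  have hθ2 : C * θ ≤ 1 / 2 := by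
    have h1 : θ < 1 / (2 * C) := hθ.trans_le (min_le_right _ _)
    rw [lt_div_iff₀ (by positivity)] at h1
    linarith
  choose A hA using hA
  obtain ⟨B, hB, hB'⟩ := exists_bound_symm h hs
  set G : E → E := fun x => x + T s (HG.disp h) x with hG
  have hGT : ∀ x, G x = T s h.1 x := fun x => (T_hom h s x).symm
  have hθ0 : 0 ≤ θ := by
    have := hA 0 0 (by simpa using hs.le)
    simp only [add_zero, sub_self, map_zero, norm_zero] at this
    exact nonneg_of_mul_nonneg_left this hs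
  -- the smoothing of the error
  have hq : ∀ x z, T s (fun y => (A x).symm (h.1 y - h.1 x) - (y - x)) z =
      (A x).symm (G z - h.1 x) - (z - x) := by
    intro x z
    have c1 : Continuous (fun y => (A x).symm (h.1 y - h.1 x)) :=
      (A x).symm.continuous.comp (h.1.continuous.sub continuous_const)
    have c2 : Continuous (fun y : E => y - x) := by fun_prop
    rw [T_sub c1 c2]
    have c3 : Continuous (fun y => h.1 y - h.1 x) := h.1.continuous.sub continuous_const
    have e1 := T_comp c3 ((A x).symm : E →L[ℝ] E) s z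
    have e2 := T_sub h.1.continuous (continuous_const (y := h.1 x)) s z
    have e3 := T_sub continuous_id (continuous_const (y := x)) s z
    rw [T_const] at e2 e3
    rw [e2] at e1
    have e4 : T s (fun y => id y - x) z = z - x := by
      rw [e3]
      congr 1
      exact T_id s z
    rw [hGT]
    exact congrArg₂ _ e1 e4
  have hqc : ∀ x, Continuous (fun y => (A x).symm (h.1 y - h.1 x) - (y - x)) := by
    intro x
    have c1 : Continuous (fun y => (A x).symm (h.1 y - h.1 x)) :=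
      (A x).symm.continuous.comp (h.1.continuous.sub continuous_const)
    exact c1.sub (by fun_prop)
  have hqM : ∀ x v, ‖v‖ ≤ s →
      ‖(A x).symm (h.1 (x + v) - h.1 x) - ((x + v) - x)‖ ≤ θ * s := by
    intro x v hv
    rw [add_sub_cancel_left]
    exact hA x v hv
  have e1 : ∀ x, ‖(A x).symm (G x - h.1 x)‖ ≤ θ * s := by
    intro x
    have h1 := T_bound (q := fun y => (A x).symm (h.1 y - h.1 x) - (y - x)) (x := x) hs.le
      (fun v hv => hqM x v (by linarith))
    rw [hq, sub_self, sub_zero] at h1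
    exact h1
  have e2 : ∀ x w, ‖w‖ ≤ s / 2 → ‖(A x).symm (G (x + w) - G x) - w‖ ≤ 1 / 2 * ‖w‖ := by
    intro x w hw
    have h1 := hC (fun y => (A x).symm (h.1 y - h.1 x) - (y - x)) s (θ * s) x w (hqc x) hs hw
      (fun v hv => hqM x v hv)
    rw [hq, hq] at h1
    have h2 : (A x).symm (G (x + w) - h.1 x) - (x + w - x) -
        ((A x).symm (G x - h.1 x) - (x - x)) = (A x).symm (G (x + w) - G x) - w := by
      simp only [map_sub]
      abel
    rw [h2, mul_div_cancel_right₀ _ hs.ne'] at h1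
    exact h1.trans (mul_le_mul_of_nonneg_right hθ2 (norm_nonneg _))
  have e3 : ∀ x, ‖h⁻¹.1 (G x) - x‖ < s / 8 := by
    intro x
    by_contra hcon
    rw [not_lt] at hcon
    set γ : ℝ → ℝ := fun t => ‖h⁻¹.1 (h.1 x + t • (G x - h.1 x)) - x‖ with hγ
    have hγc : Continuous γ := by
      have := h⁻¹.1.continuous
      exact ((this.comp (by fun_prop)).sub continuous_const).norm
    have h0 : γ 0 = 0 := by
      simp only [hγ, zero_smul, add_zero]
      have : h⁻¹.1 (h.1 x) = x := h.1.symm_apply_apply x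
      rw [this, sub_self, norm_zero]
    have h1 : s / 8 ≤ γ 1 := by
      simp only [hγ, one_smul, add_sub_cancel]
      exact hcon
    obtain ⟨t, ht, ht'⟩ := intermediate_value_Icc (zero_le_one' ℝ) hγc.continuousOn
      (show s / 8 ∈ Icc (γ 0) (γ 1) from ⟨by rw [h0]; positivity, h1⟩)
    set z := h⁻¹.1 (h.1 x + t • (G x - h.1 x)) with hz
    have hz1 : ‖z - x‖ = s / 8 := ht'
    have hz2 : h.1 z = h.1 x + t • (G x - h.1 x) := h.1.apply_symm_apply _
    have h2 := hA x (z - x) (by rw [hz1]; linarith)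
    rw [add_sub_cancel, hz2, add_sub_cancel_left, map_smul] at h2
    have h3 : ‖t • (A x).symm (G x - h.1 x)‖ ≤ θ * s := by
      rw [norm_smul, Real.norm_of_nonneg ht.1]
      have := e1 x
      have := ht.2
      nlinarith [norm_nonneg ((A x).symm (G x - h.1 x))]
    have h4 := norm_sub_norm_le (z - x) (t • (A x).symm (G x - h.1 x))
    rw [norm_sub_rev (z - x)] at h4
    nlinarith
  refine ⟨?_, fun x => (e3 x).le⟩
  obtain ⟨δ, hδ, hu⟩ := Metric.uniformContinuous_iff.1 (HG.uniformContinuous h⁻¹) (s / 4)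
    (by positivity)
  refine ⟨min (1 / (2 * B)) δ, lt_min (by positivity) hδ, fun x y => ?_⟩
  show _ ≤ ‖G x - G y‖
  have hmin : 0 ≤ min ‖x - y‖ 1 := le_min (norm_nonneg _) zero_le_one
  by_cases hxy : ‖x - y‖ ≤ s / 2
  · have h1 := e2 y (x - y) hxy
    rw [add_sub_cancel] at h1
    have h2 := norm_sub_norm_le (x - y) ((A y).symm (G x - G y))
    rw [norm_sub_rev (x - y)] at h2
    have h3 := hB' θ y (A y) (by linarith) (hA y) (G x - G y)
    have h4 : ‖x - y‖ ≤ 2 * B * ‖G x - G y‖ := by linarith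
    have h5 : 1 / (2 * B) * ‖x - y‖ ≤ ‖G x - G y‖ := by
      rw [div_mul_eq_mul_div, one_mul, div_le_iff₀ (by positivity)]
      linarith
    refine le_trans ?_ h5
    exact mul_le_mul (min_le_left _ _) (min_le_left _ _) hmin (by positivity)
  · have h1 : δ ≤ ‖G x - G y‖ := by
      by_contra hcon
      have h2 := hu (a := G x) (b := G y) (by rw [dist_eq_norm]; exact not_le.1 hcon)
      rw [dist_eq_norm] at h2
      have h3 := e3 x
      have h4 := e3 y
      have h5 : x - y = (h⁻¹.1 (G x) - h⁻¹.1 (G y)) - (h⁻¹.1 (G x) - x) + (h⁻¹.1 (G y) - y) := by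
        abel
      have h6 := norm_add_le ((h⁻¹.1 (G x) - h⁻¹.1 (G y)) - (h⁻¹.1 (G x) - x)) (h⁻¹.1 (G y) - y)
      have h7 := norm_sub_le (h⁻¹.1 (G x) - h⁻¹.1 (G y)) (h⁻¹.1 (G x) - x)
      rw [← h5] at h6
      apply hxy
      linarith
    refine le_trans ?_ h1
    calc min (1 / (2 * B)) δ * min ‖x - y‖ 1 ≤ δ * 1 :=
          mul_le_mul (min_le_right _ _) (min_le_right _ _) hmin hδ.le
      _ = δ := mul_one δ

end

end Pool.Agent.H662.HM
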