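import Pool.Agent.H662.HM.Aff

/-!
# Continuously differentiable diffeomorphisms are nearly affine at small scales
-/

set_option autoImplicit false
set_option linter.unusedSectionVars false

open Set Topology Filter
open scoped BoundedContinuousFunction ContDiff

namespace Pool.Agent.H662.HM

variable {E : Type*} [NormedAddCommGroup E] [NormedSpace ℝ E]

theorem fderiv_far (h : HG E) {x : E} (hx : 2 < ‖x‖) :
    fderiv ℝ h.1 x = ContinuousLinearMap.id ℝ E := by
  have h1 : (h.1 : E → E) =ᶠ[𝓝 x] id := by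
    filter_upwards [(isOpen_lt continuous_const continuous_norm).mem_nhds hx] with y hy
    exact HG.apply_of_le h (le_of_lt hy)
  rw [h1.fderiv_eq, fderiv_id]

variable [FiniteDimensional ℝ E]

theorem nearAffine_of_contDiff (h : HG E) (h1 : ContDiff ℝ 1 h.1) (h2 : ContDiff ℝ 1 h⁻¹.1)
    {η : ℝ} (hη : 0 < η) : ∃ δ > 0, ∀ s, 0 < s → s < δ → NearAffine η s h.1 := by
  have d1 : ∀ x, HasFDerivAt h.1 (fderiv ℝ h.1 x) x := fun x =>
    (h1.differentiable (by simp)).differentiableAt.hasFDerivAt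
  have d2 : ∀ x, HasFDerivAt h⁻¹.1 (fderiv ℝ h⁻¹.1 x) x := fun x =>
    (h2.differentiable (by simp)).differentiableAt.hasFDerivAt
  have c1 : Continuous (fderiv ℝ h.1) := h1.continuous_fderiv (by simp)
  have c2 : Continuous (fderiv ℝ h⁻¹.1) := h2.continuous_fderiv (by simp)
  have i1 : ∀ x, h⁻¹.1 (h.1 x) = x := fun x => h.1.symm_apply_apply x
  have i2 : ∀ x, h.1 (h⁻¹.1 x) = x := fun x => h.1.apply_symm_apply x
  have l1 : ∀ x v, fderiv ℝ h⁻¹.1 (h.1 x) (fderiv ℝ h.1 x v) = v := by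
    intro x v
    have e1 := (d2 (h.1 x)).comp x (d1 x)
    have e2 : (h⁻¹.1 : E → E) ∘ h.1 = id := by
      ext y; exact i1 y
    rw [e2] at e1
    have e3 := e1.unique (hasFDerivAt_id x)
    exact DFunLike.congr_fun e3 v
  have l2 : ∀ x v, fderiv ℝ h.1 x (fderiv ℝ h⁻¹.1 (h.1 x) v) = v := by
    intro x v
    have e0 := d1 (h⁻¹.1 (h.1 x))
    have e1 := e0.comp (h.1 x) (d2 (h.1 x))
    have e2 : (h.1 : E → E) ∘ h⁻¹.1 = id := by
      ext y; exact i2 y
    rw [e2, i1] at e1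
    have e3 := e1.unique (hasFDerivAt_id (h.1 x))
    exact DFunLike.congr_fun e3 v
  -- bound for the inverses
  obtain ⟨B, hB0, hB⟩ : ∃ B : ℝ, 0 < B ∧ ∀ y, ‖fderiv ℝ h⁻¹.1 y‖ ≤ B := by
    obtain ⟨B, hB⟩ := (isCompact_closedBall (0 : E) 2).exists_bound_of_continuousOn
      (f := fderiv ℝ h⁻¹.1) c2.continuousOn
    refine ⟨max B 1, lt_max_of_lt_right one_pos, fun y => ?_⟩
    by_cases hy : ‖y‖ ≤ 2
    · exact (hB y (by simpa using hy)).trans (le_max_left _ _)
    · rw [fderiv_far h⁻¹ (not_le.1 hy)]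
      exact (ContinuousLinearMap.norm_id_le).trans (le_max_right _ _)
  -- uniform continuity of the derivative
  have hu : UniformContinuous (fun x => fderiv ℝ h.1 x - ContinuousLinearMap.id ℝ E) := by
    refine HasCompactSupport.uniformContinuous_of_continuous ?_ (c1.sub continuous_const)
    refine HasCompactSupport.of_support_subset_isCompact (isCompact_closedBall (0 : E) 2) ?_
    intro x hx
    rw [mem_closedBall_zero_iff]
    by_contra hcon
    exact hx (by simp [fderiv_far h (not_le.1 hcon)])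
  obtain ⟨δ, hδ, hu'⟩ := Metric.uniformContinuous_iff.1 hu (η / (2 * B)) (by positivity)
  refine ⟨δ, hδ, fun s hs hsδ => ⟨η / 2, by linarith, fun x => ?_⟩⟩
  set A : E ≃L[ℝ] E := ContinuousLinearEquiv.equivOfInverse (fderiv ℝ h.1 x)
    (fderiv ℝ h⁻¹.1 (h.1 x)) (l1 x) (l2 x) with hA
  refine ⟨A, fun v hv => ?_⟩
  have e1 : A.symm (h.1 (x + v) - h.1 x) - v =
      fderiv ℝ h⁻¹.1 (h.1 x) (h.1 (x + v) - h.1 x - fderiv ℝ h.1 x v) := by
    rw [map_sub (fderiv ℝ h⁻¹.1 (h.1 x)) (h.1 (x + v) - h.1 x), l1]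
    rfl
  have e2 : ‖h.1 (x + v) - h.1 x - fderiv ℝ h.1 x v‖ ≤ η / (2 * B) * ‖v‖ := by
    have := Convex.norm_image_sub_le_of_norm_fderiv_le' (𝕜 := ℝ) (f := h.1)
      (φ := fderiv ℝ h.1 x) (C := η / (2 * B)) (s := Metric.closedBall x s) (x := x) (y := x + v)
      (fun y _ => (d1 y).differentiableAt) (fun y hy => by
        have h3 : dist y x < δ := lt_of_le_of_lt hy hsδ
        have h4 := hu' h3
        rw [dist_eq_norm, sub_sub_sub_cancel_right] at h4
        exact h4.le) (convex_closedBall x s) (Metric.mem_closedBall_self hs.le)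
      (by simpa using hv)
    rwa [add_sub_cancel_left] at this
  rw [e1]
  calc ‖fderiv ℝ h⁻¹.1 (h.1 x) (h.1 (x + v) - h.1 x - fderiv ℝ h.1 x v)‖
      ≤ ‖fderiv ℝ h⁻¹.1 (h.1 x)‖ * ‖h.1 (x + v) - h.1 x - fderiv ℝ h.1 x v‖ :=
        ContinuousLinearMap.le_opNorm _ _
    _ ≤ B * (η / (2 * B) * s) := by
        refine mul_le_mul (hB _) (e2.trans ?_) (norm_nonneg _) hB0.le
        exact mul_le_mul_of_nonneg_left hv (by positivity)
    _ = η / 2 * s := by field_simp

end Pool.Agent.H662.HM
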