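import Pool.Agent.H662.HM.Main
import Pool.Agent.H662.HM.Cone

/-!
# The group of the homeomorphisms of the closed ball which fix the boundary: the transfer
-/

set_option autoImplicit false
set_option linter.unusedSectionVars false

open Set Topology Filter
open scoped BoundedContinuousFunction ContDiff

namespace Pool.Agent.H662.HM

variable {E : Type*} [NormedAddCommGroup E]

namespace HB

theorem continuous_val : Continuous (fun x : UB E => x.1) := continuous_induced_dom

theorem isInducing_val : IsInducing (fun x : UB E => x.1) := ⟨rfl⟩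

theorem hat_of_le (h : HB E) {x : E} (hx : ‖x‖ ≤ 1) : hat h x = (h.1 ⟨x, hx⟩).1 := by
  unfold hat
  rw [dif_pos hx]

theorem hat_of_ge (h : HB E) {x : E} (hx : 1 ≤ ‖x‖) : hat h x = x := by
  rcases hx.eq_or_lt with h1 | h1
  · rw [hat_of_le h h1.symm.le]
    have h2 := h.2 ⟨x, h1.symm.le⟩ h1.symm
    exact congrArg Subtype.val h2
  · unfold hat
    rw [dif_neg (not_le.2 h1)]

theorem hat_coe (h : HB E) (x : UB E) : hat h x.1 = (h.1 x).1 := hat_of_le h x.2

/-- the inverse -/
def inv (h : HB E) : HB E := ⟨h.1.symm, fun x hx => by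
  rw [Homeomorph.symm_apply_eq]
  exact (h.2 x hx).symm⟩

theorem inv_inv (h : HB E) : inv (inv h) = h := by
  apply Subtype.ext
  ext1 x
  rfl

theorem hat_inv_hat (h : HB E) (x : E) : hat (inv h) (hat h x) = x := by
  rcases le_total ‖x‖ 1 with hx | hx
  · rw [hat_of_le h hx, hat_coe]
    show ((h.1.symm (h.1 _) : UB E)).1 = x
    rw [Homeomorph.symm_apply_apply]
  · rw [hat_of_ge h hx, hat_of_ge _ hx]

variable [NormedSpace ℝ E]

/-- the radial retraction -/
noncomputable def ret (x : E) : UB E :=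
  ⟨(max 1 ‖x‖)⁻¹ • x, by
    rw [norm_smul, norm_inv, Real.norm_of_nonneg (le_max_of_le_left zero_le_one)]
    rw [inv_mul_le_iff₀ (lt_max_of_lt_left one_pos), mul_one]
    exact le_max_right _ _⟩

theorem continuous_ret : Continuous (ret : E → UB E) := by
  have h1 : Continuous fun x : E => max 1 ‖x‖ := continuous_const.max continuous_norm
  have h2 : Continuous fun x : E => (max 1 ‖x‖)⁻¹ :=
    h1.inv₀ fun x => (lt_max_of_lt_left one_pos).ne'
  have h3 : Continuous fun x : E => (max 1 ‖x‖)⁻¹ • x := h2.smul continuous_id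
  exact continuous_induced_rng.2 h3

theorem ret_of_le {x : E} (hx : ‖x‖ ≤ 1) : ret x = ⟨x, hx⟩ := by
  apply Subtype.ext
  show (max 1 ‖x‖)⁻¹ • x = x
  rw [max_eq_left hx, inv_one, one_smul]

theorem norm_ret {x : E} (hx : 1 ≤ ‖x‖) : ‖(ret x).1‖ = 1 := by
  show ‖(max 1 ‖x‖)⁻¹ • x‖ = 1
  rw [max_eq_right hx, norm_smul, norm_inv, norm_norm, inv_mul_cancel₀ (by positivity)]

theorem hat_eq (h : HB E) (x : E) : hat h x = x + ((h.1 (ret x)).1 - (ret x).1) := by
  rcases le_total ‖x‖ 1 with hx | hx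
  · rw [ret_of_le hx, hat_of_le h hx]
    simp
  · rw [hat_of_ge h hx, h.2 _ (norm_ret hx)]
    simp

theorem continuous_hat (h : HB E) : Continuous (hat h) := by
  have h1 : hat h = fun x => x + ((h.1 (ret x)).1 - (ret x).1) := by
    ext1 x
    exact hat_eq h x
  rw [h1]
  refine continuous_id.add ?_
  refine Continuous.sub ?_ (continuous_val.comp continuous_ret)
  exact continuous_val.comp (h.1.continuous.comp continuous_ret)

/-- the element of the internal group -/
noncomputable def up (h : HB E) : HG E :=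
  ⟨{ toFun := hat h
     invFun := hat (inv h)
     left_inv := hat_inv_hat h
     right_inv := fun x => by
       have := hat_inv_hat (inv h) x
       rwa [inv_inv] at this
     continuous_toFun := continuous_hat h
     continuous_invFun := continuous_hat (inv h) }, fun x hx => hat_of_ge h (by linarith)⟩

theorem up_apply (h : HB E) (x : E) : (up h).1 x = hat h x := rfl

theorem up_inv (h : HB E) : (up h)⁻¹ = up (inv h) := by
  ext1
  ext1 x
  rfl

theorem up_supp (h : HB E) (x : E) (hx : 1 ≤ ‖x‖) : (up h).1 x = x := hat_of_ge h hx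

theorem norm_le_of_supp {g : HG E} (hg : ∀ x, 1 ≤ ‖x‖ → g.1 x = x) {x : E}
    (hx : ‖x‖ ≤ 1) : ‖g.1 x‖ ≤ 1 := by
  by_contra hcon
  have h1 := hg (g.1 x) (not_le.1 hcon).le
  have h2 := g.1.injective h1
  rw [h2] at hcon
  exact hcon hx

theorem supp_inv {g : HG E} (hg : ∀ x, 1 ≤ ‖x‖ → g.1 x = x) :
    ∀ x, 1 ≤ ‖x‖ → g⁻¹.1 x = x := by
  intro x hx
  show g.1.symm x = x
  rw [Homeomorph.symm_apply_eq]
  exact (hg x hx).symm

/-- the restriction to the closed ball -/
noncomputable def down (g : HG E) (hg : ∀ x, 1 ≤ ‖x‖ → g.1 x = x) : HB E :=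
  ⟨{ toFun := fun x => ⟨g.1 x.1, norm_le_of_supp hg x.2⟩
     invFun := fun x => ⟨g⁻¹.1 x.1, norm_le_of_supp (supp_inv hg) x.2⟩
     left_inv := fun x => Subtype.ext (g.1.symm_apply_apply x.1)
     right_inv := fun x => Subtype.ext (g.1.apply_symm_apply x.1)
     continuous_toFun := continuous_induced_rng.2 (g.1.continuous.comp continuous_val)
     continuous_invFun := continuous_induced_rng.2 (g⁻¹.1.continuous.comp continuous_val) },
    fun x hx => by
      apply Subtype.ext
      exact hg x.1 hx.ge⟩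

theorem down_apply (g : HG E) (hg : ∀ x, 1 ≤ ‖x‖ → g.1 x = x) (x : UB E) :
    ((down g hg).1 x).1 = g.1 x.1 := rfl

theorem hat_down (g : HG E) (hg : ∀ x, 1 ≤ ‖x‖ → g.1 x = x) (x : E) :
    hat (down g hg) x = g.1 x := by
  rcases le_total ‖x‖ 1 with hx | hx
  · rw [hat_of_le _ hx]
    rfl
  · rw [hat_of_ge _ hx, hg x hx]

theorem down_up (h : HB E) (hh : ∀ x, 1 ≤ ‖x‖ → (up h).1 x = x) : down (up h) hh = h := by
  apply Subtype.ext
  ext1 x
  apply Subtype.ext
  show hat h x.1 = _
  exact hat_coe h x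

variable [FiniteDimensional ℝ E]

instance : CompactSpace (UB E) := by
  have h1 : IsCompact {x : E | ‖x‖ ≤ 1} := by
    have h2 := isCompact_closedBall (0 : E) 1
    have h3 : Metric.closedBall (0 : E) 1 = {x : E | ‖x‖ ≤ 1} := by
      ext x
      simp
    rwa [h3] at h2
  exact isCompact_iff_compactSpace.1 h1

theorem continuous_up : Continuous (up : HB E → HG E) := by
  have h0 : Continuous (fun h : HB E => (ContinuousMap.mk h.1 h.1.continuous : C(UB E, UB E))) :=
    continuous_induced_dom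
  have h0' : Continuous (fun h : HB E =>
      (ContinuousMap.mk (fun x : UB E => x.1) continuous_val : C(UB E, E)).comp
        (ContinuousMap.mk h.1 h.1.continuous : C(UB E, UB E))) :=
    (ContinuousMap.continuous_postcomp _).comp h0
  rw [continuous_iff_continuousAt]
  intro h
  rw [Metric.continuousAt_iff']
  intro ε hε
  have h1 := Metric.continuousAt_iff'.1 (h0'.continuousAt (x := h)) (ε / 2) (by positivity)
  filter_upwards [h1] with g hg
  have hle : dist (up g) (up h) ≤ ε / 2 := by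
    rw [HG.dist_le_iff (by positivity)]
    intro x
    rw [up_apply, up_apply, hat_eq, hat_eq]
    have h2 : x + ((g.1 (ret x)).1 - (ret x).1) - (x + ((h.1 (ret x)).1 - (ret x).1)) =
        (g.1 (ret x)).1 - (h.1 (ret x)).1 := by abel
    rw [h2, ← dist_eq_norm]
    exact (ContinuousMap.dist_apply_le_dist (ret x)).trans hg.le
  linarith

theorem continuous_down {Y : Type*} [TopologicalSpace Y] (F : Y → HG E)
    (hF : Continuous F) (hF1 : ∀ y x, 1 ≤ ‖x‖ → (F y).1 x = x) :
    Continuous (fun y => down (F y) (hF1 y)) := by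
  rw [continuous_induced_rng]
  have h1 := ContinuousMap.isInducing_postcomp (X := UB E)
    (ContinuousMap.mk (fun x : UB E => x.1) continuous_val : C(UB E, E)) isInducing_val
  rw [h1.continuous_iff]
  rw [continuous_iff_continuousAt]
  intro y
  rw [Metric.continuousAt_iff']
  intro ε hε
  have h1 : ∀ᶠ z in 𝓝 y, dist (F z) (F y) < ε := hF.continuousAt.eventually
    (Metric.ball_mem_nhds _ hε)
  filter_upwards [h1] with z hz
  rw [ContinuousMap.dist_lt_iff hε]
  intro x
  refine lt_of_le_of_lt ?_ hz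
  show dist ((down (F z) (hF1 z)).1 x).1 ((down (F y) (hF1 y)).1 x).1 ≤ _
  rw [down_apply, down_apply, dist_eq_norm]
  exact HG.norm_sub_le_dist _ _ _

theorem contDiff_up {r : WithTop ℕ∞} {h : HB E} (hh : IsDiffeo r h) :
    ContDiff ℝ r (up h).1 ∧ ContDiff ℝ r (up h)⁻¹.1 := by
  refine ⟨hh.1, ?_⟩
  obtain ⟨g, hg, hg'⟩ := hh.2
  have h1 : ((up h)⁻¹.1 : E → E) = g := by
    ext1 x
    have h2 : hat h ((up h)⁻¹.1 x) = x := (up h).1.apply_symm_apply x
    rw [← hg' ((up h)⁻¹.1 x), h2]
  rw [h1]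
  exact hg

theorem isDiffeo_down {g : HG E} (hg : g ∈ HG.Sm (1 : ℝ)) : IsDiffeo ∞ (down g hg.2.2) := by
  have h1 : hat (down g hg.2.2) = g.1 := by
    ext1 x
    exact hat_down g _ x
  refine ⟨?_, g⁻¹.1, hg.2.1, ?_⟩
  · rw [h1]
    exact hg.1
  · intro x
    rw [h1]
    exact g.1.symm_apply_apply x

theorem isGdelta_W {η : ℝ} (hη : η ≤ 1) : IsGδ (WB E η) := by
  have h1 : WB E η = ⋂ k : ℕ, ⋃ s ∈ Ioo (0 : ℝ) (1 / ((k : ℝ) + 1)),
      {h : HB E | NearAffine η s (hat h)} := by
    ext h
    simp only [WB, mem_iInter, mem_iUnion]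
    constructor
    · intro hh k
      obtain ⟨s, hs0, hs1, hs⟩ := hh (1 / ((k : ℝ) + 1)) (by positivity)
      exact ⟨s, ⟨hs0, hs1⟩, hs⟩
    · intro hh ε hε
      obtain ⟨k, hk⟩ := exists_nat_one_div_lt hε
      obtain ⟨s, ⟨hs0, hs1⟩, hs⟩ := hh k
      exact ⟨s, hs0, hs1.trans hk, hs⟩
  rw [h1]
  refine IsGδ.iInter_of_isOpen fun k => ?_
  refine isOpen_biUnion fun s hs => ?_
  exact (isOpen_nearAffine η hη hs.1).preimage continuous_up

theorem mem_W_of_isDiffeo {η : ℝ} (hη : 0 < η) {h : HB E} (hh : IsDiffeo 1 h) : h ∈ WB E η := by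
  intro ε hε
  obtain ⟨δ, hδ, h1⟩ := nearAffine_of_contDiff (up h) (contDiff_up hh).1 (contDiff_up hh).2 hη
  refine ⟨min (ε / 2) (δ / 2), lt_min (by positivity) (by positivity), ?_, ?_⟩
  · exact (min_le_left _ _).trans_lt (by linarith)
  · exact h1 _ (lt_min (by positivity) (by positivity)) ((min_le_right _ _).trans_lt (by linarith))

end HB

end Pool.Agent.H662.HM
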