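import Pool.Agent.H662.HM.Mixed

/-!
# A criterion: approximation with a relative error less than one
-/

set_option autoImplicit false
set_option linter.unusedSectionVars false

open Set Topology Filter
open scoped BoundedContinuousFunction ContDiff

namespace Pool.Agent.H662.HM

universe u v

/-- `h` is `r`-close to `g`: the distance of `g⁻¹ (h x)` and `x` is at most `r` for every `x` -/
def Close {E : Type*} [NormedAddCommGroup E] (r : ℝ) (g h : HB E) : Prop :=
  ∀ x : UB E, ‖(g.1.symm (h.1 x)).1 - x.1‖ ≤ r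

/-- the identity -/
def HBone (E : Type*) [NormedAddCommGroup E] : HB E := ⟨Homeomorph.refl _, fun _ _ => rfl⟩

/-- sets on which the map is a uniform limit of maps which extend are thin -/
theorem Con.Thin.of_approx {G : Type*} [Group G] [TopologicalSpace G] [IsTopologicalGroup G]
    (κ : Con G) (D : ℝ → Set G) {Y : Type*} [TopologicalSpace Y] {A : Set Y} {f : A → G}
    (hf : Continuous f) (P : Set A)
    (h : ∀ ε > 0, ∃ F : Y → G, Continuous F ∧ (∀ a ∈ P, κ.dL (F a) (f a) < ε) ∧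
      ∀ δ > 0, ∀ y, F y ∈ D δ) : κ.Thin D f P := by
  have h1 : ∀ k : ℕ, ∃ F : Y → G, Continuous F ∧ (∀ a ∈ P, κ.dL (F a) (f a) < (1 / 2) ^ k) ∧
      ∀ δ > 0, ∀ y, F y ∈ D δ := fun k => h _ (by positivity)
  choose F hF hFd hFD using h1
  refine Con.Thin.of_op κ D hf (fun _ => univ) (fun _ => isOpen_univ) F
    (fun k => (hF k).continuousOn) (fun k => (1 / 2) ^ k) (fun k => by positivity)
    (summable_geometric_of_lt_one (by norm_num) (by norm_num)) P
    (fun a ha K => ⟨K, le_rfl, mem_univ _, hFd K a ha⟩)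
    (fun ε hε => ⟨0, fun k _ y _ => hFD k ε hε y⟩)

section

variable {E : Type u} [NormedAddCommGroup E] [NormedSpace ℝ E] [FiniteDimensional ℝ E]

/-- the conclusion for thin domains, in the internal group -/
theorem ext_of_thin {Y : Type v} [TopologicalSpace Y] [TopologicalSpace.MetrizableSpace Y]
    {A : Set Y} (hA : IsClosed A) {f : A → HG E} (hf : Continuous f)
    (hf1 : ∀ a, f a ∈ HG.Sp 1)
    (h : (HG.kap (E := E)).Thin (fun ε => HG.Sp (1 + ε)) f univ) :
    ∃ F : Y → HG E, Continuous F ∧ (∀ a : A, F a = f a) ∧ ∀ y, F y ∈ HG.Sp 1 := by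
  obtain ⟨F, θ, hF, hθ, hθA, hθA', hFA, hFD, hFM⟩ := Con.Thin.ext _ HG.mono_Sp
    (fun ε _ => HG.Sp_cx _) hA hf h
  obtain ⟨F', hF', hFA', hFS⟩ := HG.compressSp A F hF θ hθ hθA hθA' hFD hFM
  have h1 : ∀ a : A, F' a = f a := fun a => by rw [hFA' a a.2, hFA]
  refine ⟨F', hF', h1, fun y => ?_⟩
  by_cases hy : y ∈ A
  · have h2 := h1 ⟨y, hy⟩
    simp only at h2
    rw [h2]
    exact hf1 _
  · exact hFS y hy

theorem crit_small {κ δ₀ : ℝ} (hκ : κ < 1) (hδ₀ : 0 < δ₀)
    (H : ∀ δ, 0 < δ → δ < δ₀ → ∀ (Y : Type v) [TopologicalSpace Y]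
      [TopologicalSpace.MetrizableSpace Y] (A : Set Y), IsClosed A → ∀ f : A → HG E, Continuous f →
      (∀ a, f a ∈ HG.Sp 1) → (∀ a, HG.N (f a) ≤ δ) → ∃ F : Y → HG E, Continuous F ∧
        (∀ y, F y ∈ HG.Sp 1) ∧ ∀ a : A, HG.N ((F a)⁻¹ * f a) ≤ κ * δ)
    (Y : Type v) [TopologicalSpace Y] [TopologicalSpace.MetrizableSpace Y] (A : Set Y)
    (hA : IsClosed A) (f : A → HG E) (hf : Continuous f) (hf1 : ∀ a, f a ∈ HG.Sp 1)
    (hfN : ∀ a, HG.N (f a) ≤ δ₀ / 2) :
    ∃ F : Y → HG E, Continuous F ∧ (∀ a : A, F a = f a) ∧ ∀ y, F y ∈ HG.Sp 1 := by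
  obtain ⟨κ', hκ1, hκ2⟩ := exists_between (max_lt hκ (one_pos : (0 : ℝ) < 1))
  have hκ0 : 0 < κ' := (le_max_right _ _).trans_lt hκ1
  have hκκ : κ ≤ κ' := (le_max_left _ _).trans hκ1.le
  have h1 : ∀ m : ℕ, ∃ F : Y → HG E, Continuous F ∧ (∀ y, F y ∈ HG.Sp 1) ∧
      ∀ a : A, HG.N ((F a)⁻¹ * f a) ≤ κ' ^ m * (δ₀ / 2) := by
    intro m
    induction m with
    | zero =>
      refine ⟨fun _ => 1, continuous_const, fun _ => HG.Sp_one _, fun a => ?_⟩
      rw [inv_one, one_mul, pow_zero, one_mul]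
      exact hfN a
    | succ m ih =>
      obtain ⟨F, hF, hFS, hFN⟩ := ih
      have hpow : κ' ^ m ≤ 1 := pow_le_one₀ hκ0.le hκ2.le
      obtain ⟨G, hG, hGS, hGN⟩ := H (κ' ^ m * (δ₀ / 2)) (by positivity) (by nlinarith) Y A hA
        (fun a => (F a)⁻¹ * f a) ((hF.comp continuous_subtype_val).inv.mul hf)
        (fun a => HG.Sp_mul (HG.Sp_inv (hFS a)) (hf1 a)) hFN
      refine ⟨fun y => F y * G y, hF.mul hG, fun y => HG.Sp_mul (hFS y) (hGS y), fun a => ?_⟩
      have h2 := hGN a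
      rw [mul_inv_rev, mul_assoc]
      refine h2.trans ?_
      rw [pow_succ]
      have : 0 ≤ κ' ^ m * (δ₀ / 2) := by positivity
      nlinarith
  refine ext_of_thin hA hf hf1 ?_
  refine Con.Thin.of_approx _ _ hf univ fun ε hε => ?_
  obtain ⟨m, hm⟩ := exists_pow_lt_of_lt_one (show 0 < ε / (δ₀ / 2) by positivity) hκ2
  obtain ⟨F, hF, hFS, hFN⟩ := h1 m
  refine ⟨F, hF, fun a _ => ?_, fun δ hδ y => HG.Sp_mono (by linarith) (hFS y)⟩
  rw [lt_div_iff₀ (by positivity)] at hm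
  exact (hFN a).trans_lt hm

theorem crit_internal {κ δ₀ : ℝ} (hκ : κ < 1) (hδ₀ : 0 < δ₀)
    (H : ∀ δ, 0 < δ → δ < δ₀ → ∀ (Y : Type v) [TopologicalSpace Y]
      [TopologicalSpace.MetrizableSpace Y] (A : Set Y), IsClosed A → ∀ f : A → HG E, Continuous f →
      (∀ a, f a ∈ HG.Sp 1) → (∀ a, HG.N (f a) ≤ δ) → ∃ F : Y → HG E, Continuous F ∧
        (∀ y, F y ∈ HG.Sp 1) ∧ ∀ a : A, HG.N ((F a)⁻¹ * f a) ≤ κ * δ)
    (Y : Type v) [TopologicalSpace Y] [TopologicalSpace.MetrizableSpace Y] (A : Set Y)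
    (hA : IsClosed A) (f : A → HG E) (hf : Continuous f) (hf1 : ∀ a, f a ∈ HG.Sp 1) :
    ∃ F : Y → HG E, Continuous F ∧ (∀ a : A, F a = f a) ∧ ∀ y, F y ∈ HG.Sp 1 := by
  -- the path from the identity to `f a`
  set c : ℝ → A → HG E := fun t a => HG.con t (f a) with hc
  have hcc : Continuous (fun p : ℝ × A => c p.1 p.2) :=
    HG.continuous_con.comp (continuous_fst.prodMk (hf.comp continuous_snd))
  have hcS : ∀ t a, c t a ∈ HG.Sp 1 := fun t a => HG.Sp_con (hf1 a) t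
  -- the pieces
  set P : ℕ → Set A := fun l => {a | ∀ i ∈ Finset.range (l + 1),
    HG.N ((c ((i : ℝ) / (l + 1)) a)⁻¹ * c (((i : ℝ) + 1) / (l + 1)) a) ≤ δ₀ / 2} with hP
  have hPc : ∀ l, IsClosed (P l) := by
    intro l
    have h1 : P l = ⋂ i ∈ Finset.range (l + 1),
      {a | HG.N ((c ((i : ℝ) / (l + 1)) a)⁻¹ * c (((i : ℝ) + 1) / (l + 1)) a) ≤ δ₀ / 2} := by
      ext a
      simp only [hP, mem_iInter]
      rfl
    rw [h1]
    refine isClosed_biInter fun i _ => isClosed_le ?_ continuous_const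
    have c1 : Continuous (fun a : A => c ((i : ℝ) / (l + 1)) a) :=
      hcc.comp (continuous_const.prodMk continuous_id)
    have c2 : Continuous (fun a : A => c (((i : ℝ) + 1) / (l + 1)) a) :=
      hcc.comp (continuous_const.prodMk continuous_id)
    exact (HG.kap (E := E)).continuous_N.comp (c1.inv.mul c2)
  have hPu : ⋃ l, P l = univ := by
    ext a
    simp only [mem_iUnion, mem_univ, iff_true]
    have h1 : Continuous (fun p : ℝ × ℝ => HG.N ((c p.1 a)⁻¹ * c p.2 a)) := by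
      have c1 : Continuous (fun p : ℝ × ℝ => c p.1 a) :=
        hcc.comp (continuous_fst.prodMk continuous_const)
      have c2 : Continuous (fun p : ℝ × ℝ => c p.2 a) :=
        hcc.comp (continuous_snd.prodMk continuous_const)
      exact (HG.kap (E := E)).continuous_N.comp (c1.inv.mul c2)
    have h2 : UniformContinuousOn (fun p : ℝ × ℝ => HG.N ((c p.1 a)⁻¹ * c p.2 a))
        (Icc 0 1 ×ˢ Icc 0 1) :=
      (isCompact_Icc.prod isCompact_Icc).uniformContinuousOn_of_continuous h1.continuousOn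
    obtain ⟨τ, hτ, h3⟩ := Metric.uniformContinuousOn_iff.1 h2 (δ₀ / 2) (by positivity)
    obtain ⟨l, hl⟩ := exists_nat_one_div_lt hτ
    refine ⟨l, fun i hi => ?_⟩
    have hl0 : (0 : ℝ) < (l : ℝ) + 1 := by positivity
    have hi1 : (i : ℝ) + 1 ≤ (l : ℝ) + 1 := by
      have : i + 1 ≤ l + 1 := Nat.succ_le_of_lt (Finset.mem_range.1 hi)
      exact_mod_cast this
    have e1 : (i : ℝ) / (l + 1) ∈ Icc (0 : ℝ) 1 :=
      ⟨by positivity, by rw [div_le_one hl0]; linarith⟩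
    have e2 : ((i : ℝ) + 1) / (l + 1) ∈ Icc (0 : ℝ) 1 :=
      ⟨by positivity, by rw [div_le_one hl0]; linarith⟩
    have h4 := h3 ((i : ℝ) / (l + 1), ((i : ℝ) + 1) / (l + 1)) ⟨e1, e2⟩
      ((i : ℝ) / (l + 1), (i : ℝ) / (l + 1)) ⟨e1, e1⟩ (by
        rw [Prod.dist_eq, dist_self, Real.dist_eq]
        have h5 : ((i : ℝ) + 1) / (l + 1) - (i : ℝ) / (l + 1) = 1 / ((l : ℝ) + 1) := by ring
        rw [h5, abs_of_pos (by positivity)]
        exact max_lt hτ hl)
    simp only [inv_mul_cancel, HG.N_one] at h4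
    rw [Real.dist_eq, sub_zero, abs_of_nonneg (HG.N_nonneg _)] at h4
    exact h4.le
  refine ext_of_thin hA hf hf1 ?_
  rw [← hPu]
  refine Con.Thin.iUnion _ HG.mono_Sp fun l => ?_
  -- the map extends from each piece
  set Al : Set Y := Subtype.val '' (P l) with hAl
  have hAlc : IsClosed Al := hA.isClosedEmbedding_subtypeVal.isClosedMap _ (hPc l)
  have hmemA : ∀ y ∈ Al, y ∈ A := by
    rintro _ ⟨a, _, rfl⟩
    exact a.2
  have hmemP : ∀ y (hy : y ∈ Al), (⟨y, hmemA y hy⟩ : A) ∈ P l := by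
    rintro _ ⟨a, ha, rfl⟩
    exact ha
  set ι : Al → A := fun y => ⟨y, hmemA y y.2⟩ with hι
  have hιc : Continuous ι := continuous_subtype_val.subtype_mk _
  have h1 : ∀ i ∈ Finset.range (l + 1), ∃ F : Y → HG E, Continuous F ∧
      (∀ a : Al, F a = (c ((i : ℝ) / (l + 1)) (ι a))⁻¹ * c (((i : ℝ) + 1) / (l + 1)) (ι a)) ∧
      ∀ y, F y ∈ HG.Sp 1 := by
    intro i hi
    refine crit_small hκ hδ₀ H Y Al hAlc _ ?_ (fun a => HG.Sp_mul (HG.Sp_inv (hcS _ _)) (hcS _ _))
      (fun a => hmemP a a.2 i hi)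
    have c1 : Continuous (fun a : Al => c ((i : ℝ) / (l + 1)) (ι a)) :=
      hcc.comp (continuous_const.prodMk hιc)
    have c2 : Continuous (fun a : Al => c (((i : ℝ) + 1) / (l + 1)) (ι a)) :=
      hcc.comp (continuous_const.prodMk hιc)
    exact c1.inv.mul c2
  have h2 : ∀ m : ℕ, m ≤ l + 1 → ∃ F : Y → HG E, Continuous F ∧
      (∀ a : Al, F a = c ((m : ℝ) / (l + 1)) (ι a)) ∧ ∀ y, F y ∈ HG.Sp 1 := by
    intro m
    induction m with
    | zero =>
      intro _
      refine ⟨fun _ => 1, continuous_const, fun a => ?_, fun _ => HG.Sp_one _⟩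
      simp only [Nat.cast_zero, zero_div]
      exact (HG.con_of_nonpos le_rfl _).symm
    | succ m ih =>
      intro hm
      obtain ⟨F, hF, hFA, hFS⟩ := ih (by omega)
      obtain ⟨G, hG, hGA, hGS⟩ := h1 m (Finset.mem_range.2 (by omega))
      refine ⟨fun y => F y * G y, hF.mul hG, fun a => ?_, fun y => HG.Sp_mul (hFS y) (hGS y)⟩
      show F a * G a = _
      rw [hFA, hGA, mul_inv_cancel_left]
      push_cast
      rfl
  obtain ⟨F, hF, hFA, hFS⟩ := h2 (l + 1) le_rfl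
  refine Con.Thin.of_extends _ _ hf F hF (P l) (fun a ha => ?_)
    (fun ε hε y => HG.Sp_mono (by linarith) (hFS y))
  have h3 := hFA ⟨a, ⟨a, ha, rfl⟩⟩
  simp only at h3
  rw [h3]
  have h4 : (((l + 1 : ℕ) : ℝ)) / ((l : ℝ) + 1) = 1 := by
    push_cast
    rw [div_self (by positivity)]
  rw [h4]
  exact HG.con_of_one_le le_rfl _

end

open HB in
theorem crit_final (E : Type u) [NormedAddCommGroup E] [NormedSpace ℝ E]
    [FiniteDimensional ℝ E] :
    (∀ (Y : Type v) [TopologicalSpace Y] [TopologicalSpace.MetrizableSpace Y] (A : Set Y),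
      IsClosed A → ∀ f : A → HB E, Continuous f →
        ∃ F : Y → HB E, Continuous F ∧ ∀ a : A, F a = f a) ↔
    ∃ κ < 1, ∃ δ₀ > 0, ∀ δ, 0 < δ → δ < δ₀ →
      ∀ (Y : Type v) [TopologicalSpace Y] [TopologicalSpace.MetrizableSpace Y] (A : Set Y),
      IsClosed A → ∀ f : A → HB E, Continuous f → (∀ a, Close δ (HBone E) (f a)) →
        ∃ F : Y → HB E, Continuous F ∧ ∀ a : A, Close (κ * δ) (F a) (f a) := by
  constructor
  · intro h
    refine ⟨0, one_pos, 1, one_pos, ?_⟩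
    intro δ _ _ Y _ _ A hA f hf _
    obtain ⟨F, hF, hFA⟩ := h Y A hA f hf
    refine ⟨F, hF, fun a x => ?_⟩
    rw [hFA, Homeomorph.symm_apply_apply, sub_self, norm_zero, zero_mul]
  · rintro ⟨κ, hκ, δ₀, hδ₀, H⟩ Y _ _ A hA f hf
    have hclose : ∀ (r : ℝ), 0 ≤ r → ∀ g h : HG E, ∀ (hg : ∀ x, 1 ≤ ‖x‖ → g.1 x = x)
        (hh : ∀ x, 1 ≤ ‖x‖ → h.1 x = x), HG.N (g⁻¹ * h) ≤ r ↔ Close r (down g hg) (down h hh) := by
      intro r hr g h hg hh
      rw [HG.N_le_iff hr]
      constructor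
      · intro h1 x
        exact h1 x.1
      · intro h1 x
        rcases le_total ‖x‖ 1 with hx | hx
        · exact h1 ⟨x, hx⟩
        · have h2 : (g⁻¹ * h).1 x = x := by
            show g⁻¹.1 (h.1 x) = x
            rw [hh x hx]
            exact supp_inv hg x hx
          rw [h2, sub_self, norm_zero]
          exact hr
    obtain ⟨F, hF, hFA, hFS⟩ := crit_internal (E := E) hκ hδ₀ (by
      intro δ hδ hδ' Y _ _ A hA f hf hf1 hfN
      obtain ⟨F, hF, hFc⟩ := H δ hδ hδ' Y A hA (fun a => down (f a) (hf1 a))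
        (continuous_down f hf hf1) (by
          intro a
          have h1 := (hclose δ hδ.le 1 (f a) (fun x _ => rfl) (hf1 a)).1 (by
            rw [inv_one, one_mul]; exact hfN a)
          exact h1)
      refine ⟨fun y => up (F y), continuous_up.comp hF, fun y x hx => up_supp _ x hx, fun a => ?_⟩
      rcases lt_or_ge (κ * δ) 0 with hneg | hpos
      · -- impossible, except for the trivial space
        have h1 := hFc a ⟨0, by simp⟩
        exact absurd ((norm_nonneg _).trans h1) (not_le.2 hneg)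
      · rw [hclose (κ * δ) hpos (up (F a)) (f a) (fun x hx => up_supp _ x hx) (hf1 a), down_up]
        exact hFc a) Y A hA (fun a => up (f a)) (continuous_up.comp hf)
      (fun a x hx => up_supp _ x hx)
    refine ⟨fun y => down (F y) (hFS y), continuous_down F hF hFS, fun a => ?_⟩
    have h2 : ∀ (g : HG E) (hg : ∀ x, 1 ≤ ‖x‖ → g.1 x = x), g = up (f a) →
        down g hg = f a := by
      intro g hg hgu
      subst hgu
      exact down_up _ _
    exact h2 _ _ (hFA a)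

end Pool.Agent.H662.HM
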