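import Pool.Agent.H662.HM.Shear

/-!
# Discrete approximation
-/

set_option autoImplicit false
set_option linter.unusedSectionVars false

open Set Topology Filter
open scoped BoundedContinuousFunction ContDiff

namespace Pool.Agent.H662.HM

universe u v

theorem HG.continuous_apply {E : Type*} [NormedAddCommGroup E] [NormedSpace ℝ E] :
    Continuous (fun p : HG E × E => p.1.1 p.2) := by
  have h1 : (fun p : HG E × E => p.1.1 p.2) = fun p => HG.disp p.1 p.2 + p.2 := by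
    ext1 p
    rw [HG.disp_apply]
    simp
  rw [h1]
  have h2 : Continuous (fun p : HG E × E => ((HG.disp p.1, p.2) : (E →ᵇ E) × E)) :=
    (HG.continuous_disp.comp continuous_fst).prodMk continuous_snd
  exact (ContinuousEval.continuous_eval.comp h2).add continuous_snd

theorem exists_step (E : Type u) [NormedAddCommGroup E] [NormedSpace ℝ E] [FiniteDimensional ℝ E]
    [Nontrivial E] : ∃ ρ : ℝ, 0 < ρ ∧ ∀ (K : Type v) [TopologicalSpace K] [CompactSpace K]
      (C : Set (HG E)), IsCompact C → ∀ f : K → HG E, Continuous f → (∀ x, f x ∈ HG.Sm 1) →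
      ∀ r : K → ℝ, Continuous r → (∀ x, 0 < r x) → (∀ x, r x ≤ ρ) →
      ∃ g : K → HG E, Continuous g ∧ (∀ x, g x ∈ HG.Sm 1) ∧ (∀ x, dist (g x) (f x) ≤ r x) ∧
        ∀ x, ∀ c ∈ C, r x / 4 ≤ dist (g x) c := by
  obtain ⟨ρ, hρ, e, he, H⟩ := exists_shear E
  refine ⟨ρ, hρ, ?_⟩
  intro K _ _ C hC f hf hfS r hr hr0 hrρ
  have hcont : Continuous (fun p : ℝ × (K × HG E) =>
      ‖(p.2.2 * (f p.2.1)⁻¹).1 (p.1 • e) - (p.2.2 * (f p.2.1)⁻¹).1 0‖ - r p.2.1 / 2) := by
    have c1 : Continuous (fun p : ℝ × (K × HG E) => p.2.2 * (f p.2.1)⁻¹) :=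
      (continuous_snd.comp continuous_snd).mul
        ((hf.comp (continuous_fst.comp continuous_snd)).inv)
    have c2 : Continuous (fun p : ℝ × (K × HG E) => (p.2.2 * (f p.2.1)⁻¹).1 (p.1 • e)) :=
      HG.continuous_apply.comp (c1.prodMk (continuous_fst.smul continuous_const))
    have c3 : Continuous (fun p : ℝ × (K × HG E) => (p.2.2 * (f p.2.1)⁻¹).1 (0 : E)) :=
      HG.continuous_apply.comp (c1.prodMk continuous_const)
    exact (c2.sub c3).norm.sub ((hr.comp (continuous_fst.comp continuous_snd)).div_const 2)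
  have h1 : ∀ᶠ δ : ℝ in 𝓝 0, ∀ y ∈ (univ : Set K) ×ˢ C,
      ‖(y.2 * (f y.1)⁻¹).1 (δ • e) - (y.2 * (f y.1)⁻¹).1 0‖ - r y.1 / 2 < 0 := by
    refine (isCompact_univ.prod hC).eventually_forall_of_forall_eventually fun y _ => ?_
    refine hcont.continuousAt.eventually_lt_const ?_
    simp only [zero_smul, sub_self, norm_zero]
    have := hr0 y.1
    linarith
  have h2 : ∀ᶠ δ : ℝ in 𝓝[>] 0, ∀ y ∈ (univ : Set K) ×ˢ C,
      ‖(y.2 * (f y.1)⁻¹).1 (δ • e) - (y.2 * (f y.1)⁻¹).1 0‖ - r y.1 / 2 < 0 :=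
    h1.filter_mono nhdsWithin_le_nhds
  have h3 : ∀ᶠ δ : ℝ in 𝓝[>] 0, δ ∈ Ioo (0 : ℝ) (1 / 4) :=
    Ioo_mem_nhdsGT (by norm_num)
  obtain ⟨δ, hδ, hδ0, hδ1⟩ := (h2.and h3).exists
  obtain ⟨Ψ, hΨS, hΨc, hΨN, hΨd⟩ := H δ hδ0 hδ1
  have hrI : ∀ x, r x ∈ Icc 0 ρ := fun x => ⟨(hr0 x).le, hrρ x⟩
  refine ⟨fun x => Ψ (r x) * f x, ?_, ?_, ?_, ?_⟩
  · exact (hΨc.comp_continuous hr hrI).mul hf
  · exact fun x => HG.Sm_mul (hΨS _ (hrI x)) (hfS x)
  · intro x
    have h4 := HG.dist_mul_right (Ψ (r x)) 1 (f x)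
    rw [one_mul] at h4
    rw [h4]
    exact hΨN _ (hrI x)
  · intro x c hc
    have h4 := HG.dist_mul_right (Ψ (r x)) (c * (f x)⁻¹) (f x)
    rw [inv_mul_cancel_right] at h4
    rw [h4]
    have h5 := hδ (x, c) ⟨mem_univ _, hc⟩
    simp only at h5
    have h6 := hΨd _ (hrI x)
    set l := c * (f x)⁻¹ with hl
    have h7 := HG.norm_sub_le_dist (Ψ (r x)) l (δ • e)
    have h8 := HG.norm_sub_le_dist (Ψ (r x)) l 0
    have h9 : (Ψ (r x)).1 (δ • e) - (Ψ (r x)).1 0 =
        ((Ψ (r x)).1 (δ • e) - l.1 (δ • e)) - ((Ψ (r x)).1 0 - l.1 0) +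
          (l.1 (δ • e) - l.1 0) := by abel
    rw [h9] at h6
    have h10 := norm_add_le (((Ψ (r x)).1 (δ • e) - l.1 (δ • e)) - ((Ψ (r x)).1 0 - l.1 0))
      (l.1 (δ • e) - l.1 0)
    have h11 := norm_sub_le ((Ψ (r x)).1 (δ • e) - l.1 (δ • e)) ((Ψ (r x)).1 0 - l.1 0)
    linarith

theorem dap_internal (E : Type u) [NormedAddCommGroup E] [NormedSpace ℝ E]
    [FiniteDimensional ℝ E] [Nontrivial E] (Z : Set (HG E))
    (hZ : ∀ (K : Type v) [TopologicalSpace K] [CompactSpace K] (f : K → Z), Continuous f →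
      ∀ ε : K → ℝ, Continuous ε → (∀ x, 0 < ε x) → ∃ f' : K → HG E, Continuous f' ∧
        (∀ x, f' x ∈ HG.Sm 1) ∧ ∀ x, dist (f' x) (f x).1 < ε x)
    (K : ℕ → Type v) [∀ k, TopologicalSpace (K k)] [∀ k, CompactSpace (K k)]
    (f : ∀ k, K k → Z) (hf : ∀ k, Continuous (f k)) (ε : Z → ℝ) (hε0 : ∀ z, 0 < ε z)
    (hεL : ∀ z z', ε z ≤ ε z' + dist z z') :
    ∃ g : ∀ k, K k → HG E, (∀ k, Continuous (g k)) ∧ (∀ k x, g k x ∈ HG.Sm 1) ∧
      (∀ k x, dist (g k x) (f k x).1 < ε (f k x)) ∧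
      ∀ z : Z, ∃ τ > 0, ∀ j k, j < k → ∀ (x : K k) (y : K j),
        ¬ (dist (g k x) z.1 < τ ∧ dist (g j y) z.1 < τ) := by
  obtain ⟨ρ, hρ, hstep⟩ := exists_step.{u, v} E
  have hεc : Continuous ε := by
    have h1 : LipschitzWith 1 ε := by
      refine LipschitzWith.of_dist_le_mul fun z z' => ?_
      rw [NNReal.coe_one, one_mul, Real.dist_eq, abs_sub_le_iff]
      have h2 := hεL z z'
      have h3 := hεL z' z
      rw [dist_comm z' z] at h3
      constructor <;> linarith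
    exact h1.continuous
  set r : ∀ k, K k → ℝ := fun k x => min ρ (ε (f k x) / 4) with hr
  have hrc : ∀ k, Continuous (r k) := fun k =>
    continuous_const.min ((hεc.comp (hf k)).div_const 4)
  have hr0 : ∀ k x, 0 < r k x := fun k x => lt_min hρ (by have := hε0 (f k x); positivity)
  have h1 : ∀ k, ∃ f' : K k → HG E, Continuous f' ∧ (∀ x, f' x ∈ HG.Sm 1) ∧
      ∀ x, dist (f' x) (f k x).1 < ε (f k x) / 4 := fun k =>
    hZ (K k) (f k) (hf k) (fun x => ε (f k x) / 4) ((hεc.comp (hf k)).div_const 4)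
      (fun x => by have := hε0 (f k x); positivity)
  choose f' hf'c hf'S hf'd using h1
  have h2 : ∀ (k : ℕ) (C : {C : Set (HG E) // IsCompact C}), ∃ g : K k → HG E, Continuous g ∧
      (∀ x, g x ∈ HG.Sm 1) ∧ (∀ x, dist (g x) (f' k x) ≤ r k x) ∧
        ∀ x, ∀ c ∈ C.1, r k x / 4 ≤ dist (g x) c := fun k C =>
    hstep (K k) C.1 C.2 (f' k) (hf'c k) (hf'S k) (r k) (hrc k) (hr0 k) (fun x => min_le_left _ _)
  choose G hG using h2
  let C : ℕ → {C : Set (HG E) // IsCompact C} := fun k => Nat.rec ⟨∅, isCompact_empty⟩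
    (fun k C => ⟨C.1 ∪ range (G k C), C.2.union (isCompact_range (hG k C).1)⟩) k
  have hCs : ∀ k, (C (k + 1)).1 = (C k).1 ∪ range (G k (C k)) := fun k => rfl
  have hCr : ∀ j k, j < k → range (G j (C j)) ⊆ (C k).1 := by
    intro j k hjk
    induction k, hjk using Nat.le_induction with
    | base => rw [hCs]; exact subset_union_right
    | succ k _ ih => rw [hCs]; exact ih.trans subset_union_left
  refine ⟨fun k => G k (C k), fun k => (hG k (C k)).1, fun k => (hG k (C k)).2.1, ?_, ?_⟩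
  · intro k x
    have h3 := (hG k (C k)).2.2.1 x
    have h4 := hf'd k x
    have h5 := dist_triangle (G k (C k) x) (f' k x) (f k x).1
    have h6 : r k x ≤ ε (f k x) / 4 := min_le_right _ _
    have h7 := hε0 (f k x)
    linarith
  · intro z
    have hz := hε0 z
    refine ⟨min (ε z / 2) (min ρ (ε z / 12) / 8), by positivity, ?_⟩
    rintro j k hjk x y ⟨h3, h4⟩
    have h5 : dist (G k (C k) x) z.1 < ε z / 2 := h3.trans_le (min_le_left _ _)
    have h6 : dist (G k (C k) x) (f k x).1 < ε (f k x) / 2 := by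
      have h3 := (hG k (C k)).2.2.1 x
      have h4 := hf'd k x
      have h5 := dist_triangle (G k (C k) x) (f' k x) (f k x).1
      have h6 : r k x ≤ ε (f k x) / 4 := min_le_right _ _
      linarith
    have h7 := hεL z (f k x)
    have h8 : dist z (f k x) ≤ dist (G k (C k) x) z.1 + dist (G k (C k) x) (f k x).1 := by
      rw [Subtype.dist_eq, dist_comm (G k (C k) x) z.1]
      exact dist_triangle _ _ _
    have h9 : ε z / 3 ≤ ε (f k x) := by linarith
    have h10 : min ρ (ε z / 12) ≤ r k x := by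
      refine min_le_min le_rfl ?_
      linarith
    have h11 := (hG k (C k)).2.2.2 x (G j (C j) y) (hCr j k hjk ⟨y, rfl⟩)
    have h12 := dist_triangle_right (G k (C k) x) (G j (C j) y) z.1
    have h13 : min (ε z / 2) (min ρ (ε z / 12) / 8) ≤ min ρ (ε z / 12) / 8 := min_le_right _ _
    linarith

end Pool.Agent.H662.HM
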