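import Pool.Agent.H662.HM.Dap
import Pool.Agent.H662.HM.Ball

/-!
# Discrete approximation: preparation of the final statement
-/

set_option autoImplicit false
set_option linter.unusedSectionVars false

open Set Topology Filter
open scoped BoundedContinuousFunction ContDiff unitInterval

namespace Pool.Agent.H662.HM

universe u v w

/-- a Lebesgue function of an open cover -/
theorem exists_lebesgue {X : Type*} [PseudoMetricSpace X] (U : Set (Set X))
    (hU : ∀ u ∈ U, IsOpen u) (hcov : ⋃₀ U = univ) :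
    ∃ ε : X → ℝ, (∀ z, 0 < ε z) ∧ (∀ z z', ε z ≤ ε z' + dist z z') ∧
      ∀ z, ∃ u ∈ U, Metric.ball z (ε z) ⊆ u := by
  set S : X → Set ℝ := fun z => {t | 0 ≤ t ∧ t ≤ 1 ∧ ∃ u ∈ U, Metric.ball z t ⊆ u} with hS
  have hbdd : ∀ z, BddAbove (S z) := fun z => ⟨1, fun t ht => ht.2.1⟩
  have hpos : ∀ z, ∃ t ∈ S z, 0 < t := by
    intro z
    have hz : z ∈ ⋃₀ U := by rw [hcov]; exact mem_univ z
    obtain ⟨u, hu, hzu⟩ := hz
    obtain ⟨r, hr, hru⟩ := Metric.isOpen_iff.1 (hU u hu) z hzu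
    have h0 : 0 < min 1 r := lt_min one_pos hr
    exact ⟨min 1 r, ⟨h0.le, min_le_left _ _, u, hu,
      (Metric.ball_subset_ball (min_le_right _ _)).trans hru⟩, h0⟩
  have hδ : ∀ z, 0 < sSup (S z) := by
    intro z
    obtain ⟨t, ht, ht0⟩ := hpos z
    exact ht0.trans_le (le_csSup (hbdd z) ht)
  refine ⟨fun z => sSup (S z) / 2, fun z => by have := hδ z; positivity, ?_, ?_⟩
  · intro z z'
    have h1 : sSup (S z) ≤ sSup (S z') + dist z z' := by
      obtain ⟨t₀, ht₀, _⟩ := hpos z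
      refine csSup_le ⟨t₀, ht₀⟩ fun t ht => ?_
      by_cases h : t ≤ dist z z'
      · have := hδ z'
        linarith
      · have h2 : t - dist z z' ∈ S z' := by
          refine ⟨by linarith, by have := ht.2.1; have := dist_nonneg (x := z) (y := z'); linarith,
            ?_⟩
          obtain ⟨u, hu, htu⟩ := ht.2.2
          refine ⟨u, hu, (Metric.ball_subset_ball' ?_).trans htu⟩
          rw [dist_comm z' z]
          linarith
        have := le_csSup (hbdd z') h2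
        linarith
    have := dist_nonneg (x := z) (y := z')
    simp only
    linarith
  · intro z
    have h1 := hδ z
    obtain ⟨t, ht, h2⟩ := exists_lt_of_lt_csSup (s := S z) (b := sSup (S z) / 2)
      (let ⟨t, ht, _⟩ := hpos z; ⟨t, ht⟩) (by linarith)
    obtain ⟨u, hu, htu⟩ := ht.2.2
    exact ⟨u, hu, (Metric.ball_subset_ball h2.le).trans htu⟩

/-- approximation by maps with smooth values -/
theorem exists_smooth_approx {E : Type u} [NormedAddCommGroup E] [NormedSpace ℝ E]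
    [FiniteDimensional ℝ E] {η : ℝ}
    (H : ∀ (Y : Type u) [TopologicalSpace Y] [TopologicalSpace.MetrizableSpace Y]
      (A : Set Y) (_ : IsClosed A) (f : A → HG E) (_ : Continuous f)
      (_ : ∀ a x, 1 ≤ ‖x‖ → (f a).1 x = x)
      (_ : ∀ a, ∀ ε > 0, ∃ s, 0 < s ∧ s < ε ∧ NearAffine η s (f a).1),
      ∃ F : Y → HG E, Continuous F ∧ (∀ a : A, F a = f a) ∧ ∀ y, y ∉ A → F y ∈ HG.Sm 1)
    (Z : Set (HG E)) (hZ1 : ∀ z ∈ Z, ∀ x, 1 ≤ ‖x‖ → z.1 x = x)
    (hZ2 : ∀ z ∈ Z, ∀ ε > 0, ∃ s, 0 < s ∧ s < ε ∧ NearAffine η s z.1)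
    (K : Type v) [TopologicalSpace K] [CompactSpace K] (f : K → Z) (hf : Continuous f)
    (ε : K → ℝ) (hε : Continuous ε) (hε0 : ∀ x, 0 < ε x) : ∃ f' : K → HG E, Continuous f' ∧
        (∀ x, f' x ∈ HG.Sm 1) ∧ ∀ x, dist (f' x) (f x).1 < ε x := by
  have hA : IsClosed {p : Z × ℝ | p.2 = 0} := isClosed_eq continuous_snd continuous_const
  obtain ⟨F, hF, hFA, hFS⟩ := H (Z × ℝ) {p : Z × ℝ | p.2 = 0} hA (fun a => (a.1.1 : HG E))
    (continuous_subtype_val.comp (continuous_fst.comp continuous_subtype_val))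
    (fun a => hZ1 _ a.1.1.2) (fun a => hZ2 _ a.1.1.2)
  have hF0 : ∀ z : Z, F (z, 0) = z.1 := fun z => hFA ⟨(z, 0), rfl⟩
  have hcont : Continuous (fun p : ℝ × K => dist (F (f p.2, p.1)) (f p.2).1 - ε p.2) := by
    have c1 : Continuous (fun p : ℝ × K => F (f p.2, p.1)) :=
      hF.comp ((hf.comp continuous_snd).prodMk continuous_fst)
    have c2 : Continuous (fun p : ℝ × K => ((f p.2).1 : HG E)) :=
      continuous_subtype_val.comp (hf.comp continuous_snd)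
    exact (c1.dist c2).sub (hε.comp continuous_snd)
  have h1 : ∀ᶠ t : ℝ in 𝓝 0, ∀ x ∈ (univ : Set K), dist (F (f x, t)) (f x).1 - ε x < 0 := by
    refine isCompact_univ.eventually_forall_of_forall_eventually fun x _ => ?_
    refine hcont.continuousAt.eventually_lt_const ?_
    simp only [hF0, dist_self]
    have := hε0 x
    linarith
  have h2 : ∀ᶠ t : ℝ in 𝓝[>] 0, ∀ x ∈ (univ : Set K), dist (F (f x, t)) (f x).1 - ε x < 0 :=
    h1.filter_mono nhdsWithin_le_nhds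
  have h3 : ∀ᶠ t : ℝ in 𝓝[>] 0, t ∈ Ioi (0 : ℝ) := self_mem_nhdsWithin
  obtain ⟨t, ht, ht0⟩ := (h2.and h3).exists
  refine ⟨fun x => F (f x, t), hF.comp (hf.prodMk continuous_const), fun x => ?_, fun x => ?_⟩
  · refine hFS _ ?_
    show ¬ t = 0
    exact ne_of_gt ht0
  · have := ht x (mem_univ x)
    linarith

open HB in
theorem dap_final (E : Type u) [NormedAddCommGroup E] [NormedSpace ℝ E]
    [FiniteDimensional ℝ E] [Nontrivial E] : ∃ η : ℝ, 0 < η ∧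
    ∀ Z : Set (HB E), (∀ h : HB E, IsDiffeo ∞ h → h ∈ Z) → Z ⊆ WB E η →
    ∀ (K : ℕ → Type v) [∀ k, TopologicalSpace (K k)] [∀ k, CompactSpace (K k)]
      (f : ∀ k, K k → Z), (∀ k, Continuous (f k)) →
      ∀ U : Set (Set Z), (∀ u ∈ U, IsOpen u) → ⋃₀ U = univ →
      ∃ g : ∀ k, K k → Z, (∀ k, Continuous (g k)) ∧ (∀ k x, ∃ u ∈ U, f k x ∈ u ∧ g k x ∈ u) ∧
        (∀ k x, IsDiffeo ∞ (g k x).1) ∧
        ∀ z : Z, ∃ V ∈ 𝓝 z, ∀ (j k : ℕ) (x : K j) (y : K k), g j x ∈ V → g k y ∈ V → j = k := by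
  obtain ⟨η, hη, hη1, hext⟩ := exists_ext.{u, u} E
  refine ⟨η, hη, ?_⟩
  intro Z hZ1 hZ2 K _ _ f hf U hU hcov
  -- the copy of `Z` in the internal group
  set Z' : Set (HG E) := up '' Z with hZ'
  have hZ's : ∀ z ∈ Z', ∀ x, 1 ≤ ‖x‖ → z.1 x = x := by
    rintro _ ⟨z, _, rfl⟩
    exact up_supp z
  have hZ'a : ∀ z ∈ Z', ∀ ε > 0, ∃ s, 0 < s ∧ s < ε ∧ NearAffine η s z.1 := by
    rintro _ ⟨z, hz, rfl⟩
    exact hZ2 hz
  have hdZ : ∀ z : Z', down z.1 (hZ's z.1 z.2) ∈ Z := by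
    intro z
    obtain ⟨w, hw, hwz⟩ := z.2
    have h2 : ∀ (g : HG E) (hg : ∀ x, 1 ≤ ‖x‖ → g.1 x = x), g = up w → down g hg ∈ Z := by
      intro g hg hgu
      subst hgu
      rw [down_up]
      exact hw
    exact h2 _ _ hwz.symm
  set ψ : Z' → Z := fun z => ⟨down z.1 (hZ's z.1 z.2), hdZ z⟩ with hψ
  have hψc : Continuous ψ :=
    (continuous_down (fun z : Z' => z.1) continuous_subtype_val
      (fun z => hZ's z.1 z.2)).subtype_mk _
  have hψup : ∀ z : Z, ψ ⟨up z.1, ⟨z.1, z.2, rfl⟩⟩ = z :=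
    fun z => Subtype.ext (down_up z.1 (up_supp z.1))
  obtain ⟨ε, hε0, hεL, hεU⟩ := exists_lebesgue (X := Z') {V | ∃ u ∈ U, ψ ⁻¹' u = V}
    (by rintro _ ⟨u, hu, rfl⟩; exact (hU u hu).preimage hψc)
    (by
      ext z
      simp only [mem_univ, iff_true]
      have h1 : ψ z ∈ ⋃₀ U := by rw [hcov]; exact mem_univ _
      obtain ⟨u, hu, hzu⟩ := h1
      exact ⟨ψ ⁻¹' u, ⟨u, hu, rfl⟩, hzu⟩)
  have hSm : ∀ h ∈ (HG.Sm 1 : Set (HG E)), h ∈ Z' := by
    intro h hh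
    refine ⟨down h hh.2.2, hZ1 _ (isDiffeo_down hh), ?_⟩
    ext1
    ext1 x
    exact hat_down h _ x
  obtain ⟨g, hgc, hgS, hgd, hgL⟩ := dap_internal.{u, v} E Z'
    (fun K _ _ f hf ε hε hε0 => exists_smooth_approx hext Z' hZ's hZ'a K f hf ε hε hε0)
    K (fun k x => ⟨up (f k x).1, ⟨(f k x).1, (f k x).2, rfl⟩⟩)
    (fun k => (continuous_up.comp (continuous_subtype_val.comp (hf k))).subtype_mk _) ε hε0 hεL
  refine ⟨fun k x => ψ ⟨g k x, hSm _ (hgS k x)⟩, fun k => hψc.comp ((hgc k).subtype_mk _), ?_,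
    fun k x => isDiffeo_down (hgS k x), ?_⟩
  · intro k x
    obtain ⟨_, ⟨u, hu, rfl⟩, hball⟩ := hεU ⟨up (f k x).1, ⟨(f k x).1, (f k x).2, rfl⟩⟩
    refine ⟨u, hu, ?_, ?_⟩
    · have h1 := hball (Metric.mem_ball_self (hε0 _))
      have h2 : ψ ⟨up (f k x).1, ⟨(f k x).1, (f k x).2, rfl⟩⟩ ∈ u := h1
      rwa [hψup] at h2
    · have h3 : (⟨g k x, hSm _ (hgS k x)⟩ : Z') ∈ Metric.ball
          (⟨up (f k x).1, ⟨(f k x).1, (f k x).2, rfl⟩⟩ : Z')
          (ε ⟨up (f k x).1, ⟨(f k x).1, (f k x).2, rfl⟩⟩) := hgd k x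
      exact hball h3
  · intro z
    obtain ⟨τ, hτ, h1⟩ := hgL ⟨up z.1, ⟨z.1, z.2, rfl⟩⟩
    have hupc : Continuous (fun w : Z => up w.1) := continuous_up.comp continuous_subtype_val
    have h2 : ∀ᶠ w : Z in 𝓝 z, dist (up w.1) (up z.1) < τ :=
      hupc.continuousAt.eventually (Metric.ball_mem_nhds _ hτ)
    have h3 : ∀ k x, up (ψ ⟨g k x, hSm _ (hgS k x)⟩).1 = g k x := by
      intro k x
      ext1
      ext1 y
      exact hat_down (g k x) (hgS k x).2.2 y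
    refine ⟨_, h2, ?_⟩
    intro j k x y hx hy
    have hx' : dist (g j x) (up z.1) < τ := by
      have : dist (up (ψ ⟨g j x, hSm _ (hgS j x)⟩).1) (up z.1) < τ := hx
      rwa [h3] at this
    have hy' : dist (g k y) (up z.1) < τ := by
      have : dist (up (ψ ⟨g k y, hSm _ (hgS k y)⟩).1) (up z.1) < τ := hy
      rwa [h3] at this
    rcases lt_trichotomy j k with h | h | h
    · exact (h1 j k h y x ⟨hy', hx'⟩).elim
    · exact h
    · exact (h1 k j h x y ⟨hx', hy'⟩).elim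

end Pool.Agent.H662.HM
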