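import Pool.Agent.H662.HM.Def

/-!
# Composition, and the homeomorphisms which are nearly affine at all small scales
-/

set_option autoImplicit false
set_option linter.unusedSectionVars false

open Set Topology Filter

namespace Pool.Agent.H662.HM

/-- the composition of two homeomorphisms of the ball which fix the boundary points -/
def comp {E : Type*} [NormedAddCommGroup E] (g h : HB E) : HB E :=
  ⟨h.1.trans g.1, fun x hx => (congrArg g.1 (h.2 x hx)).trans (g.2 x hx)⟩

/-- the homeomorphisms of the ball which are affine up to `η` at all sufficiently small scales -/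
def WB1 (E : Type*) [NormedAddCommGroup E] [NormedSpace ℝ E] (η : ℝ) : Set (HB E) :=
  {h | ∃ t > 0, ∀ s, 0 < s → s < t → NearAffine η s (hat h)}

/-- property C of Haver and of Addis and Gresham -/
def PropC (X : Type*) [TopologicalSpace X] : Prop :=
  ∀ U : ℕ → Set (Set X), (∀ i, ∀ u ∈ U i, IsOpen u) → (∀ i, ⋃₀ U i = univ) →
    ∃ V : ℕ → Set (Set X), (∀ i, ∀ v ∈ V i, IsOpen v ∧ ∃ u ∈ U i, v ⊆ u) ∧
      (∀ i, (V i).PairwiseDisjoint id) ∧ ⋃ i, ⋃₀ V i = univ

end Pool.Agent.H662.HM
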