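import Pool.Agent.H662.HM.Def

/-!
# Compactly supported homeomorphisms and smoothings
-/

set_option autoImplicit false
set_option linter.unusedSectionVars false

open Set Topology Filter
open scoped ContDiff

namespace Pool.Agent.H662.HM

/-- the homeomorphisms of `E` onto itself which are the identity outside some ball -/
def HC (E : Type*) [NormedAddCommGroup E] : Type _ :=
  {h : E ≃ₜ E // ∃ R : ℝ, ∀ x, R ≤ ‖x‖ → h x = x}

/-- the uniform distance of `g` and `h` is at most `r` -/
def Near {E : Type*} [NormedAddCommGroup E] (r : ℝ) (g h : HC E) : Prop :=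
  ∀ x, ‖g.1 x - h.1 x‖ ≤ r

/-- `h` is a diffeomorphism of class `C^∞` -/
def IsSmooth {E : Type*} [NormedAddCommGroup E] [NormedSpace ℝ E] (h : HC E) : Prop :=
  ContDiff ℝ ∞ h.1 ∧ ContDiff ℝ ∞ h.1.symm

/-- the elements which move each point by at most one -/
def HC1 (E : Type*) [NormedAddCommGroup E] : Set (HC E) := {h | ∀ x, ‖h.1 x - x‖ ≤ 1}

/-- there is a map `φ`, continuous on `S` for the uniform distance, which sends each `h` in `S` to
a `C^∞` diffeomorphism at uniform distance at most `r` from `h` -/
def Smoothing {E : Type*} [NormedAddCommGroup E] [NormedSpace ℝ E] (S : Set (HC E)) (r : ℝ) :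
    Prop :=
  ∃ φ : HC E → HC E, (∀ h ∈ S, ∀ ε > 0, ∃ δ > 0, ∀ h' ∈ S, Near δ h' h → Near ε (φ h') (φ h)) ∧
    ∀ h ∈ S, IsSmooth (φ h) ∧ Near r (φ h) h

/-- `X` is an absolute extensor for metrizable spaces: each continuous map from a closed subset of
a metrizable space to `X` extends to the whole space -/
def IsAE.{u} (X : Type u) [TopologicalSpace X] : Prop :=
  ∀ (Y : Type u) [TopologicalSpace Y] [TopologicalSpace.MetrizableSpace Y] (A : Set Y),
    IsClosed A → ∀ f : A → X, Continuous f → ∃ F : Y → X, Continuous F ∧ ∀ a : A, F a = f a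

end Pool.Agent.H662.HM
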