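import Pool.Agent.H662.HM.Zero

/-!
# Approximation by maps into a dense set, in groups which are absolute extensors
-/

set_option autoImplicit false
set_option linter.unusedSectionVars false

open Set Topology Filter

namespace Pool.Agent.H662.HM

universe u

namespace Con

theorem approx_of_ae {G : Type u} [Group G] [TopologicalSpace G] [IsTopologicalGroup G]
    (κ : Con G) {V : Type u} [NormedAddCommGroup V] [NormedSpace ℝ V] (ι : G → V)
    (hι : IsInducing ι) (hinj : Function.Injective ι) [SecondCountableTopology G]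
    [TopologicalSpace.MetrizableSpace G]
    (hAE : ∀ (Y : Type u) [TopologicalSpace Y] [TopologicalSpace.MetrizableSpace Y] (A : Set Y),
      IsClosed A → ∀ f : A → G, Continuous f → ∃ F : Y → G, Continuous F ∧ ∀ a : A, F a = f a)
    {D : Set G} (hD : κ.Cx D) (hdense : Dense D) {ε : ℝ} (hε : 0 < ε) :
    ∃ J : G → G, Continuous J ∧ (∀ g, J g ∈ D) ∧ ∀ g, κ.dL (J g) g ≤ ε := by
  classical
  have hpar : ParacompactSpace G := by
    let := TopologicalSpace.metrizableSpaceMetric G
    infer_instance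
  have hnor : NormalSpace G := by
    let := TopologicalSpace.metrizableSpaceMetric G
    infer_instance
  set e : ℝ := ε / 4 with he
  have he0 : 0 < e := by positivity
  -- the universal extension
  let Y₁ : Type u := {p : V × ℝ // 0 < p.2 ∨ (p.2 = 0 ∧ p.1 ∈ range ι)}
  let A₁ : Set Y₁ := {p | p.1.2 = 0}
  have hA₁ : IsClosed A₁ := isClosed_eq (continuous_snd.comp continuous_subtype_val) continuous_const
  have hmem : ∀ p : A₁, p.1.1.1 ∈ range ι := by
    rintro ⟨⟨p, hp⟩, hp0⟩
    rcases hp with h | h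
    · exact absurd hp0 h.ne'
    · exact h.2
  set f₁ : A₁ → G := fun p => (hmem p).choose with hf₁
  have hf₁ι : ∀ p : A₁, ι (f₁ p) = p.1.1.1 := fun p => (hmem p).choose_spec
  have hf₁c : Continuous f₁ := by
    rw [hι.continuous_iff]
    have h1 : ι ∘ f₁ = fun p : A₁ => p.1.1.1 := funext hf₁ι
    rw [h1]
    exact continuous_fst.comp (continuous_subtype_val.comp continuous_subtype_val)
  obtain ⟨r, hr, hrA⟩ := hAE Y₁ A₁ hA₁ f₁ hf₁c
  let pt : G → Y₁ := fun g => ⟨(ι g, 0), Or.inr ⟨rfl, g, rfl⟩⟩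
  have hpt : ∀ g, r (pt g) = g := by
    intro g
    have h1 := hrA ⟨pt g, rfl⟩
    have h2 := hf₁ι ⟨pt g, rfl⟩
    have h3 : f₁ ⟨pt g, rfl⟩ = g := hinj h2
    rw [h3] at h1
    exact h1
  have hloc : ∀ g, ∃ τ > 0, ∀ p : Y₁, dist p.1.1 (ι g) < τ → dist p.1.2 0 < τ →
      κ.dL g (r p) < e := by
    intro g
    have h1 : Tendsto r (𝓝 (pt g)) (𝓝 (r (pt g))) := hr.continuousAt
    rw [hpt g] at h1
    have h2 := κ.tendsto_iff.1 h1 e he0
    obtain ⟨τ, hτ, h3⟩ := Metric.eventually_nhds_iff.1 h2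
    refine ⟨τ, hτ, fun p hp1 hp2 => h3 ?_⟩
    exact max_lt hp1 hp2
  choose τ hτ0 hτ using hloc
  set U : G → Set G := fun g => {x | dist (ι x) (ι g) < τ g / 2 ∧ κ.dL g x < e} with hU
  have hUo : ∀ g, IsOpen (U g) := fun g =>
    (isOpen_lt (hι.continuous.dist continuous_const) continuous_const).inter
      (isOpen_lt (κ.continuous_dL.comp (continuous_const.prodMk continuous_id)) continuous_const)
  have hUm : ∀ g, g ∈ U g := by
    intro g
    refine ⟨?_, ?_⟩
    · rw [dist_self]
      have := hτ0 g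
      positivity
    · rw [κ.dL_self]
      exact he0
  obtain ⟨s, hs, hsU⟩ := TopologicalSpace.countable_cover_nhds
    (f := U) fun g => (hUo g).mem_nhds (hUm g)
  have hsne : s.Nonempty := by
    by_contra hcon
    rw [not_nonempty_iff_eq_empty] at hcon
    rw [hcon] at hsU
    have : (1 : G) ∈ (univ : Set G) := mem_univ _
    rw [← hsU] at this
    simp at this
  obtain ⟨gi, hgi⟩ := hs.exists_eq_range hsne
  have hcovU : (univ : Set G) ⊆ ⋃ i, U (gi i) := by
    intro x hx
    rw [← hsU] at hx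
    simp only [mem_iUnion] at hx
    obtain ⟨g, hg, hxg⟩ := hx
    rw [hgi] at hg
    obtain ⟨i, rfl⟩ := hg
    exact mem_iUnion.2 ⟨i, hxg⟩
  obtain ⟨l, hl⟩ := PartitionOfUnity.exists_isSubordinate isClosed_univ (fun i => U (gi i))
    (fun i => hUo _) hcovU
  have hlU : ∀ i x, l i x ≠ 0 → x ∈ U (gi i) := fun i x hx => hl i (subset_tsupport _ hx)
  set z : G → V := fun x => ∑ᶠ i, l i x • ι (gi i) with hz
  set t : G → ℝ := fun x => ∑ᶠ i, l i x • (τ (gi i) / 2) with ht
  have hzc : Continuous z := l.continuous_finsum_smul (fun i x _ => continuousAt_const)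
  have htc : Continuous t := l.continuous_finsum_smul (fun i x _ => continuousAt_const)
  have hmax : ∀ x, ∃ i, l i x ≠ 0 ∧ ∀ j, l j x ≠ 0 → τ (gi j) ≤ τ (gi i) := by
    intro x
    have h1 : (l.finsupport x).Nonempty := by
      rw [Finset.nonempty_iff_ne_empty]
      intro hcon
      have h2 := l.sum_finsupport (mem_univ x)
      rw [hcon, Finset.sum_empty] at h2
      exact zero_ne_one h2
    obtain ⟨i, hi, him⟩ := Finset.exists_max_image (l.finsupport x) (fun i => τ (gi i)) h1
    refine ⟨i, (l.mem_finsupport x).1 hi, fun j hj => him j ((l.mem_finsupport x).2 hj)⟩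
  have htmem : ∀ x i, (∀ j, l j x ≠ 0 → τ (gi j) ≤ τ (gi i)) → t x ∈ Ioc (0 : ℝ) (τ (gi i) / 2) := by
    intro x i hi
    have h0 : ∀ j, l j x ≠ 0 → τ (gi j) / 2 ∈ Ioc (0 : ℝ) (τ (gi i) / 2) := fun j hj => by
      have h1 := hτ0 (gi j)
      have h2 := hi j hj
      exact ⟨by positivity, by linarith⟩
    exact l.finsum_smul_mem_convex (g := fun j _ => τ (gi j) / 2) (mem_univ x) h0
      (convex_Ioc (𝕜 := ℝ) (0 : ℝ) (τ (gi i) / 2))
  have ht0 : ∀ x, 0 < t x := by
    intro x
    obtain ⟨i, _, hi⟩ := hmax x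
    exact (htmem x i hi).1
  set φ₀ : G → G := fun x => r ⟨(z x, t x), Or.inl (ht0 x)⟩ with hφ₀
  have hφ₀c : Continuous φ₀ := hr.comp ((hzc.prodMk htc).subtype_mk _)
  have hφ₀d : ∀ x, κ.dL (φ₀ x) x < 2 * e := by
    intro x
    obtain ⟨i, hi0, hi⟩ := hmax x
    have h1 : z x ∈ Metric.ball (ι x) (τ (gi i) / 2) := by
      have h0 : ∀ j, l j x ≠ 0 → ι (gi j) ∈ Metric.ball (ι x) (τ (gi i) / 2) := fun j hj => by
        have h2 := (hlU j x hj).1
        have h3 := hi j hj
        rw [Metric.mem_ball, dist_comm]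
        linarith
      exact l.finsum_smul_mem_convex (g := fun j _ => ι (gi j)) (mem_univ x) h0
        (convex_ball _ _)
    have h4 := (hlU i x hi0).1
    have h5 : dist (z x) (ι (gi i)) < τ (gi i) := by
      have h6 := dist_triangle (z x) (ι x) (ι (gi i))
      rw [Metric.mem_ball] at h1
      linarith
    have h7 := htmem x i hi
    have h8 : dist (t x) 0 < τ (gi i) := by
      rw [Real.dist_eq, sub_zero, abs_of_pos h7.1]
      have := hτ0 (gi i)
      linarith [h7.2]
    have h9 := hτ (gi i) ⟨(z x, t x), Or.inl (ht0 x)⟩ h5 h8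
    have h10 := (hlU i x hi0).2
    have h11 := κ.dL_triangle' (φ₀ x) (gi i) x
    have h12 : κ.dL (gi i) (φ₀ x) < e := h9
    linarith
  -- thinness
  have hmono : Monotone (fun _ : ℝ => D) := fun _ _ _ => le_rfl
  set f : ↥(univ : Set G) → G := fun a => φ₀ a.1 with hf
  have hfc : Continuous f := hφ₀c.comp continuous_subtype_val
  set P : (Σ m : ℕ, Finset (Fin m) × (Fin m → ℚ)) → Set ↥(univ : Set G) := fun T =>
    {a | (∀ i, T.1 ≤ i → l i a.1 = 0) ∧ (∀ i ∈ T.2.1, Irrational (l (i : ℕ) a.1)) ∧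
      ∀ i, i ∉ T.2.1 → l (i : ℕ) a.1 = T.2.2 i} with hPdef
  have hPcov : ∀ a, ∃ T, a ∈ P T := by
    intro a
    obtain ⟨m, hm⟩ : ∃ m : ℕ, ∀ i, m ≤ i → l i a.1 = 0 := by
      refine ⟨(l.finsupport a.1).sup id + 1, fun i hi => ?_⟩
      by_contra hne
      have h1 := (l.mem_finsupport a.1).2 hne
      have h2 : i ≤ (l.finsupport a.1).sup id := Finset.le_sup (f := id) h1
      omega
    set F : Finset (Fin m) := Finset.univ.filter fun i => Irrational (l (i : ℕ) a.1) with hF
    have hq : ∀ i : Fin m, ∃ q : ℚ, i ∉ F → l (i : ℕ) a.1 = q := by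
      intro i
      by_cases hi : i ∈ F
      · exact ⟨0, fun h => absurd hi h⟩
      · have h1 : ¬ Irrational (l (i : ℕ) a.1) := by
          intro h2
          exact hi (Finset.mem_filter.2 ⟨Finset.mem_univ _, h2⟩)
        unfold Irrational at h1
        rw [not_not] at h1
        obtain ⟨q, hq⟩ := h1
        exact ⟨q, fun _ => hq.symm⟩
    choose q hq using hq
    refine ⟨⟨m, F, q⟩, hm, fun i hi => (Finset.mem_filter.1 hi).2, hq⟩
  have : Nonempty (Σ m : ℕ, Finset (Fin m) × (Fin m → ℚ)) := ⟨⟨0, ∅, fun _ => 0⟩⟩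
  obtain ⟨en, hen⟩ := exists_surjective_nat (Σ m : ℕ, Finset (Fin m) × (Fin m → ℚ))
  have hPu : ⋃ n, P (en n) = univ := by
    ext a
    simp only [mem_univ, iff_true, mem_iUnion]
    obtain ⟨T, hT⟩ := hPcov a
    obtain ⟨n, rfl⟩ := hen T
    exact ⟨n, hT⟩
  have hthin : κ.Thin (fun _ => D) f univ := by
    rw [← hPu]
    refine Con.Thin.iUnion _ hmono fun n => ?_
    obtain ⟨m, F, q⟩ := en n
    refine Con.Thin.of_zero κ _ hfc _ fun ε' hε' => ?_
    -- the finite-dimensional map
    set S : (Fin m → ℝ) → V × ℝ := fun v =>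
      (∑ i, v i • ι (gi i), ∑ i, v i • (τ (gi (i : ℕ)) / 2)) with hS
    have hSc : Continuous S := by
      refine Continuous.prodMk ?_ ?_
      · exact continuous_finsetSum _ fun i _ => (continuous_apply i).smul continuous_const
      · exact continuous_finsetSum _ fun i _ => (continuous_apply i).smul continuous_const
    have hzS : ∀ p : P ⟨m, F, q⟩, (z p.1.1, t p.1.1) = S (fun i => l (i : ℕ) p.1.1) := by
      intro p
      have h1 : ∀ (W : Type u) [AddCommGroup W] [Module ℝ W] (w : ℕ → W),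
          ∑ᶠ i, l i p.1.1 • w i = ∑ i : Fin m, l (i : ℕ) p.1.1 • w i := by
        intro W _ _ w
        rw [← Finset.sum_range (fun i => l i p.1.1 • w i)]
        refine finsum_eq_sum_of_support_subset _ ?_
        intro i hi
        rw [Finset.mem_coe, Finset.mem_range]
        by_contra hcon
        exact hi (by simp only [p.2.1 i (not_lt.1 hcon), zero_smul])
      have h2 : ∀ (w : ℕ → ℝ),
          ∑ᶠ i, l i p.1.1 • w i = ∑ i : Fin m, l (i : ℕ) p.1.1 • w i := by
        intro w
        rw [← Finset.sum_range (fun i => l i p.1.1 • w i)]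
        refine finsum_eq_sum_of_support_subset _ ?_
        intro i hi
        rw [Finset.mem_coe, Finset.mem_range]
        by_contra hcon
        exact hi (by simp only [p.2.1 i (not_lt.1 hcon), zero_smul])
      exact Prod.ext (h1 V _) (h2 _)
    obtain ⟨W, hWo, hWd, hWc, hWR⟩ := exists_disjoint_cover (X := P ⟨m, F, q⟩)
      (fun i p => l (i : ℕ) p.1.1)
      (fun i => (l i).continuous.comp (continuous_subtype_val.comp continuous_subtype_val))
      F (fun i => q i) (fun p i hi => p.2.2.1 i hi) (fun p i hi => p.2.2.2 i hi)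
      (fun x y => κ.dL (f x.1) (f y.1) < ε' / 2) (by
        intro x
        let O : Type := {v : Fin m → ℝ // 0 < (S v).2}
        let rO : O → G := fun v => r ⟨S v.1, Or.inl v.2⟩
        have hrO : Continuous rO := hr.comp ((hSc.comp continuous_subtype_val).subtype_mk _)
        have hx0 : 0 < (S (fun i => l (i : ℕ) x.1.1)).2 := by
          rw [← hzS x]
          exact ht0 _
        have h1 : Tendsto rO (𝓝 ⟨_, hx0⟩) (𝓝 (rO ⟨_, hx0⟩)) := hrO.continuousAt
        have h2 := κ.tendsto_iff.1 h1 (ε' / 2) (by positivity)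
        obtain ⟨ρ, hρ, h3⟩ := Metric.eventually_nhds_iff.1 h2
        refine ⟨ρ, hρ, fun y hy => ?_⟩
        have hy0 : 0 < (S (fun i => l (i : ℕ) y.1.1)).2 := by
          rw [← hzS y]
          exact ht0 _
        have h4 := h3 (y := ⟨_, hy0⟩) (by
          show dist (fun i : Fin m => l (i : ℕ) y.1.1) (fun i => l (i : ℕ) x.1.1) < ρ
          rw [dist_pi_lt_iff hρ]
          intro i
          rw [Real.dist_eq]
          exact hy i)
        have h5 : ∀ (p : P ⟨m, F, q⟩) (hp : 0 < (S (fun i => l (i : ℕ) p.1.1)).2),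
            rO ⟨_, hp⟩ = f p.1 := by
          intro p hp
          show r ⟨S _, _⟩ = r ⟨(z p.1.1, t p.1.1), _⟩
          congr 1
          apply Subtype.ext
          exact (hzS p).symm
        rw [h5, h5] at h4
        exact h4)
    have hck : ∀ k, ∃ c ∈ D, ∀ p ∈ W k, κ.dL c (f p.1) < ε' := by
      intro k
      rcases (W k).eq_empty_or_nonempty with h | h
      · refine ⟨1, hD.one, fun p hp => ?_⟩
        rw [h] at hp
        exact hp.elim
      · obtain ⟨x, hx⟩ := hWR k h
        have h1 : IsOpen {c : G | κ.dL c (f x.1) < ε' / 2} :=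
          isOpen_lt (κ.continuous_dL.comp (continuous_id.prodMk continuous_const)) continuous_const
        obtain ⟨c, hc1, hc2⟩ := hdense.inter_open_nonempty _ h1 ⟨f x.1, by
          show κ.dL _ _ < _
          rw [κ.dL_self]
          positivity⟩
        refine ⟨c, hc2, fun p hp => ?_⟩
        have h2 := κ.dL_triangle c (f x.1) (f p.1)
        have h3 : κ.dL c (f x.1) < ε' / 2 := hc1
        have h4 := hx p hp
        linarith
    choose c hcD hc using hck
    exact ⟨W, c, hWo, hWd, hWc, hcD, hc⟩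
  obtain ⟨J, hJ, hJD, hJd⟩ := Con.Thin.approx κ (fun _ _ => hD) hthin he0
  refine ⟨J, hJ, hJD, fun g => ?_⟩
  have h1 : κ.dL (J g) (φ₀ g) ≤ 2 * e := hJd g
  have h2 := hφ₀d g
  have h3 := κ.dL_triangle (J g) (φ₀ g) g
  have h4 : ε = 2 * e + 2 * e := by rw [he]; ring
  linarith

end Con

end Pool.Agent.H662.HM
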