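import Pool.Agent.H662.HM.Thin

/-!
# Zero-dimensional pieces are thin
-/

set_option autoImplicit false
set_option linter.unusedSectionVars false

open Set Topology Filter
open scoped ENNReal

namespace Pool.Agent.H662.HM

namespace Con

variable {G : Type*} [Group G] [TopologicalSpace G] [IsTopologicalGroup G] (κ : Con G)

/-- sets with disjoint relatively open covers on which the map is nearly constant are thin -/
theorem Thin.of_zero (D : ℝ → Set G) {Y : Type*} [TopologicalSpace Y]
    [TopologicalSpace.MetrizableSpace Y]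
    {A : Set Y} {f : A → G} (hf : Continuous f) (P : Set A)
    (hP : ∀ ε > 0, ∃ (V : ℕ → Set P) (c : ℕ → G), (∀ k, IsOpen (V k)) ∧
      (∀ k l, k ≠ l → Disjoint (V k) (V l)) ∧ (⋃ k, V k = univ) ∧ (∀ k, c k ∈ D ε) ∧
      ∀ k, ∀ p ∈ V k, κ.dL (c k) (f p) < ε) : κ.Thin D f P := by
  classical
  let := TopologicalSpace.metrizableSpaceMetric Y
  intro ε hε
  obtain ⟨V, c, hVo, hVd, hVc, hcD, hcf⟩ := hP ε hε
  set j : P → Y := fun p => ((p : A) : Y) with hj
  have hji : IsInducing j := IsInducing.subtypeVal.comp IsInducing.subtypeVal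
  set ex : Set P → Set Y := fun v =>
    {y | Metric.infEDist y (j '' v) < Metric.infEDist y (j '' vᶜ)} with hex
  have hexo : ∀ v, IsOpen (ex v) := fun v =>
    isOpen_lt Metric.continuous_infEDist Metric.continuous_infEDist
  have hexm : ∀ v : Set P, IsOpen v → ∀ p ∈ v, j p ∈ ex v := by
    intro v hv p hp
    obtain ⟨O, hO, hOv⟩ := hji.isOpen_iff.1 hv
    have h1 : Metric.infEDist (j p) (j '' v) = 0 :=
      Metric.infEDist_zero_of_mem (mem_image_of_mem j hp)
    have h2 : 0 < Metric.infEDist (j p) (j '' vᶜ) := by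
      rw [Metric.infEDist_pos_iff_notMem_closure]
      have h3 : closure (j '' vᶜ) ⊆ Oᶜ := by
        refine closure_minimal ?_ hO.isClosed_compl
        rintro _ ⟨q, hq, rfl⟩ hq'
        exact hq (by rw [← hOv]; exact hq')
      intro h4
      exact h3 h4 (by rw [← hOv] at hp; exact hp)
    show Metric.infEDist (j p) (j '' v) < Metric.infEDist (j p) (j '' vᶜ)
    rw [h1]
    exact h2
  have hexd : ∀ v w : Set P, Disjoint v w → ∀ y, y ∈ ex v → y ∈ ex w → False := by
    intro v w hvw y hyv hyw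
    have h1 : Metric.infEDist y (j '' v) < Metric.infEDist y (j '' vᶜ) := hyv
    have h2 : Metric.infEDist y (j '' w) < Metric.infEDist y (j '' wᶜ) := hyw
    have h3 : Metric.infEDist y (j '' vᶜ) ≤ Metric.infEDist y (j '' w) :=
      Metric.infEDist_anti (image_mono (Set.disjoint_left.1 hvw.symm))
    have h4 : Metric.infEDist y (j '' wᶜ) ≤ Metric.infEDist y (j '' v) :=
      Metric.infEDist_anti (image_mono (Set.disjoint_left.1 hvw))
    exact absurd (h1.trans_le (h3.trans (h2.le.trans h4))) (lt_irrefl _)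
  have hO : ∀ k : ℕ, ∃ O : Set Y, IsOpen O ∧
      (Subtype.val : A → Y) ⁻¹' O = {a : A | κ.dL (c k) (f a) < ε} := by
    intro k
    refine isOpen_induced_iff.1 ?_
    exact isOpen_lt (κ.continuous_dL.comp (continuous_const.prodMk hf)) continuous_const
  choose O hOo hOP using hO
  have hOP' : ∀ k (a : A), (a : Y) ∈ O k ↔ κ.dL (c k) (f a) < ε := by
    intro k a
    have h1 : a ∈ (Subtype.val : A → Y) ⁻¹' (O k) ↔ (a : Y) ∈ O k := Iff.rfl
    rw [← h1, hOP k]
    rfl
  set g : Y → G := fun y => if h : ∃ k, y ∈ ex (V k) then c h.choose else 1 with hg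
  have hgv : ∀ k, ∀ y ∈ ex (V k), g y = c k := by
    intro k y hy
    have h : ∃ k, y ∈ ex (V k) := ⟨k, hy⟩
    have h1 : g y = c h.choose := dif_pos h
    rw [h1]
    by_contra hne
    have h2 : h.choose ≠ k := fun h3 => hne (by rw [h3])
    exact hexd _ _ (hVd _ _ h2) y h.choose_spec hy
  set Q₀ : Set Y := ⋃ k, ex (V k) ∩ O k with hQ₀
  have hQ₀o : IsOpen Q₀ := isOpen_iUnion fun k => (hexo _).inter (hOo k)
  have hgc : ContinuousOn g Q₀ := by
    intro y hy
    obtain ⟨k, hyk, _⟩ := mem_iUnion.1 hy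
    refine ContinuousAt.continuousWithinAt ?_
    refine (continuousAt_const (y := c k)).congr ?_
    filter_upwards [(hexo (V k)).mem_nhds hyk] with z hz
    exact (hgv k z hz).symm
  refine ⟨fun n => if n = 0 then Q₀ else ∅, fun _ => g, fun n => if n = 0 then ε else 0,
    ?_, ?_, ?_, ?_, ?_, ?_, ?_, ?_⟩
  · intro n
    by_cases hn : n = 0
    · simp only [hn, if_true]; exact hQ₀o
    · simp only [hn, if_false]; exact isOpen_empty
  · intro n
    by_cases hn : n = 0
    · simp only [hn, if_true]; exact hgc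
    · simp only [hn, if_false]; exact continuousOn_empty _
  · intro n
    by_cases hn : n = 0
    · simp only [hn, if_true]; exact hε.le
    · simp only [hn, if_false]; exact le_rfl
  · exact (hasSum_ite_eq 0 ε).summable
  · exact (tsum_ite_eq 0 (fun _ => ε)).le
  · intro n a ha
    by_cases hn : n = 0
    · simp only [hn, if_true] at ha ⊢
      obtain ⟨k, hak, haO⟩ := mem_iUnion.1 ha
      rw [hgv k a hak]
      exact ((hOP' k a).1 haO).le
    · simp only [hn, if_false] at ha
      exact ha.elim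
  · intro a ha
    refine ⟨0, ?_⟩
    simp only [if_true]
    have h1 : (⟨a, ha⟩ : P) ∈ ⋃ k, V k := by rw [hVc]; exact mem_univ _
    obtain ⟨k, hk⟩ := mem_iUnion.1 h1
    exact mem_iUnion.2 ⟨k, hexm _ (hVo k) _ hk, (hOP' k a).2 (hcf k ⟨a, ha⟩ hk)⟩
  · intro n y hy
    by_cases hn : n = 0
    · simp only [hn, if_true] at hy
      obtain ⟨k, hyk, _⟩ := mem_iUnion.1 hy
      show g y ∈ D ε
      rw [hgv k y hyk]
      exact hcD k
    · simp only [hn, if_false] at hy
      exact hy.elim

/-- approximation from thinness -/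
theorem Thin.approx {D : ℝ → Set G} (hDc : ∀ ε > 0, κ.Cx (D ε)) {Y : Type*}
    [TopologicalSpace Y] [TopologicalSpace.MetrizableSpace Y]
    {f : ↥(univ : Set Y) → G} (h : κ.Thin D f univ) {ε : ℝ} (hε : 0 < ε) :
    ∃ J : Y → G, Continuous J ∧ (∀ y, J y ∈ D ε) ∧
      ∀ y, κ.dL (J y) (f ⟨y, mem_univ y⟩) ≤ 2 * ε := by
  obtain ⟨Q, g, e, hQ, hg, he0, hes, heε, hd, hcov, hgD⟩ := h ε hε
  obtain ⟨J, hJ, hJD, hJe⟩ := κ.glue Q hQ g hg _ (hDc ε hε) hgD e he0 hes
  have hu : ⋃ k, Q k = univ := by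
    ext y
    simp only [mem_univ, iff_true]
    obtain ⟨k, hk⟩ := hcov ⟨y, mem_univ y⟩ (mem_univ _)
    exact mem_iUnion.2 ⟨k, hk⟩
  refine ⟨J, ?_, hJD, fun y => ?_⟩
  · rw [hu] at hJ
    exact continuousOn_univ.1 hJ
  · have h1 := hJe y (by rw [hu]; exact mem_univ _) (f ⟨y, mem_univ y⟩)
      (fun k hk => hd k ⟨y, mem_univ y⟩ hk)
    linarith

end Con

/-- disjoint relatively open covers on which a map with finitely many real coordinates is nearly
constant, on a set where each coordinate is either irrational or a given number -/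
theorem exists_disjoint_cover {X : Type*} [TopologicalSpace X] {m : ℕ} (l : Fin m → X → ℝ)
    (hl : ∀ i, Continuous (l i)) (F : Finset (Fin m)) (q : Fin m → ℝ)
    (hF : ∀ x, ∀ i ∈ F, Irrational (l i x)) (hq : ∀ x, ∀ i, i ∉ F → l i x = q i)
    (R : X → X → Prop)
    (hR : ∀ x, ∃ ρ > 0, ∀ y, (∀ i, |l i y - l i x| < ρ) → R x y) :
    ∃ V : ℕ → Set X, (∀ k, IsOpen (V k)) ∧ (∀ k l, k ≠ l → Disjoint (V k) (V l)) ∧
      (⋃ k, V k = univ) ∧ ∀ k, (V k).Nonempty → ∃ x, ∀ y ∈ V k, R x y := by
  classical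
  -- the boxes
  set B : (Fin m → ℚ) × (Fin m → ℚ) → Set X := fun ab =>
    {x | ∀ i ∈ F, (ab.1 i : ℝ) < l i x ∧ l i x < ab.2 i} with hB
  have hBo : ∀ ab, IsOpen (B ab) := by
    intro ab
    have h1 : B ab = ⋂ i ∈ F, {x | (ab.1 i : ℝ) < l i x ∧ l i x < ab.2 i} := by
      ext x
      simp only [hB, mem_iInter]
      rfl
    rw [h1]
    refine isOpen_biInter_finset fun i _ => ?_
    exact (isOpen_lt continuous_const (hl i)).inter (isOpen_lt (hl i) continuous_const)
  have hBc : ∀ ab, IsClosed (B ab) := by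
    intro ab
    have h1 : B ab = ⋂ i ∈ F, {x | (ab.1 i : ℝ) ≤ l i x ∧ l i x ≤ ab.2 i} := by
      ext x
      simp only [hB, mem_iInter]
      refine forall_congr' fun i => forall_congr' fun hi => ?_
      have hne1 : l i x ≠ (ab.1 i : ℝ) := (hF x i hi).ne_rat _
      have hne2 : l i x ≠ (ab.2 i : ℝ) := (hF x i hi).ne_rat _
      constructor
      · rintro ⟨h1, h2⟩
        exact ⟨h1.le, h2.le⟩
      · rintro ⟨h1, h2⟩
        exact ⟨lt_of_le_of_ne h1 hne1.symm, lt_of_le_of_ne h2 hne2⟩
    rw [h1]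
    refine isClosed_biInter fun i _ => ?_
    exact (isClosed_le continuous_const (hl i)).inter (isClosed_le (hl i) continuous_const)
  obtain ⟨e, he⟩ := exists_surjective_nat ((Fin m → ℚ) × (Fin m → ℚ))
  set O : ℕ → Set X := fun k => if ∃ x, ∀ y ∈ B (e k), R x y then B (e k) else ∅ with hO
  have hOo : ∀ k, IsOpen (O k) := by
    intro k
    by_cases h : ∃ x, ∀ y ∈ B (e k), R x y
    · simp only [hO, h, if_true]; exact hBo _
    · simp only [hO, h, if_false]; exact isOpen_empty
  have hOc : ∀ k, IsClosed (O k) := by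
    intro k
    by_cases h : ∃ x, ∀ y ∈ B (e k), R x y
    · simp only [hO, h, if_true]; exact hBc _
    · simp only [hO, h, if_false]; exact isClosed_empty
  have hOR : ∀ k, (O k).Nonempty → ∃ x, ∀ y ∈ O k, R x y := by
    intro k hne
    by_cases h : ∃ x, ∀ y ∈ B (e k), R x y
    · have h1 : O k = B (e k) := if_pos h
      rw [h1]
      exact h
    · have h1 : O k = ∅ := if_neg h
      rw [h1] at hne
      exact absurd hne not_nonempty_empty
  have hcov : ∀ x, ∃ k, x ∈ O k := by
    intro x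
    obtain ⟨ρ, hρ, h1⟩ := hR x
    have h2 : ∀ i, ∃ a : ℚ, l i x - ρ < a ∧ (a : ℝ) < l i x := fun i =>
      exists_rat_btwn (by linarith)
    have h3 : ∀ i, ∃ b : ℚ, l i x < b ∧ (b : ℝ) < l i x + ρ := fun i =>
      exists_rat_btwn (by linarith)
    choose a ha1 ha2 using h2
    choose b hb1 hb2 using h3
    obtain ⟨k, hk⟩ := he (a, b)
    have h4 : ∃ x, ∀ y ∈ B (e k), R x y := by
      refine ⟨x, fun y hy => h1 y fun i => ?_⟩
      by_cases hi : i ∈ F
      · rw [hk] at hy
        obtain ⟨h5, h6⟩ := hy i hi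
        simp only at h5 h6
        have h7 := ha1 i
        have h8 := hb2 i
        rw [abs_lt]
        constructor <;> linarith
      · rw [hq y i hi, hq x i hi, sub_self, abs_zero]
        exact hρ
    refine ⟨k, ?_⟩
    have h5 : O k = B (e k) := if_pos h4
    rw [h5, hk]
    exact fun i _ => ⟨ha2 i, hb1 i⟩
  refine ⟨fun k => O k \ ⋃ j ∈ Finset.range k, O j, ?_, ?_, ?_, ?_⟩
  · intro k
    refine (hOo k).sdiff ?_
    exact isClosed_biUnion_finset fun j _ => hOc j
  · have key : ∀ k l, k < l → Disjoint (O k \ ⋃ j ∈ Finset.range k, O j)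
        (O l \ ⋃ j ∈ Finset.range l, O j) := by
      intro k l hkl
      rw [Set.disjoint_left]
      rintro x ⟨hx, _⟩ ⟨_, hx'⟩
      apply hx'
      simp only [mem_iUnion]
      exact ⟨k, Finset.mem_range.2 hkl, hx⟩
    intro k l hkl
    rcases lt_or_gt_of_ne hkl with h | h
    · exact key k l h
    · exact (key l k h).symm
  · ext x
    simp only [mem_univ, iff_true, mem_iUnion]
    have h1 := hcov x
    refine ⟨Nat.find h1, Nat.find_spec h1, ?_⟩
    simp only [mem_iUnion, not_exists]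
    intro j hj
    exact Nat.find_min h1 (Finset.mem_range.1 hj)
  · intro k hne
    obtain ⟨x, hx⟩ := hOR k (hne.mono sdiff_subset)
    exact ⟨x, fun y hy => hx y hy.1⟩

end Pool.Agent.H662.HM
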