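import Pool.Agent.H662.HM.Thin
import Pool.Agent.H662.HM.Zero

/-!
# More thin sets: small covers, and subsets which are neighbourhood extensors
-/

set_option autoImplicit false
set_option linter.unusedSectionVars false

open Set Topology Filter
open scoped ENNReal

namespace Pool.Agent.H662.HM

universe u v w

namespace Con

variable {G : Type*} [Group G] [TopologicalSpace G] [IsTopologicalGroup G] (κ : Con G)

/-- sets with covers by disjoint families on which the oscillations have a small sum are thin -/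
theorem Thin.of_families (D : ℝ → Set G) {Y : Type*} [TopologicalSpace Y]
    [TopologicalSpace.MetrizableSpace Y]
    {A : Set Y} {f : A → G} (hf : Continuous f) (P : Set A)
    (hP : ∀ ε > 0, ∃ (V : ℕ → Set (Set P)) (e : ℕ → ℝ), Summable e ∧ ∑' i, e i ≤ ε ∧
      (∀ i, 0 < e i) ∧ (∀ i, (V i).PairwiseDisjoint id) ∧ (∀ i, ∀ v ∈ V i, IsOpen v) ∧
      (∀ i, ∀ v ∈ V i, ∀ p ∈ v, ∀ q ∈ v, κ.dL (f p) (f q) < e i) ∧ ⋃ i, ⋃₀ V i = univ)
    (hfD : ∀ ε > 0, ∀ a, f a ∈ D ε) (h1D : ∀ ε > 0, (1 : G) ∈ D ε) : κ.Thin D f P := by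
  classical
  let := TopologicalSpace.metrizableSpaceMetric Y
  intro ε hε
  obtain ⟨V, e, hes, heε, he0, hVd, hVo, hVf, hVc⟩ := hP ε hε
  set j : P → Y := fun p => ((p : A) : Y) with hj
  have hji : IsInducing j := IsInducing.subtypeVal.comp IsInducing.subtypeVal
  set ex : Set P → Set Y := fun v =>
    {y | Metric.infEDist y (j '' v) < Metric.infEDist y (j '' vᶜ)} with hex
  have hexo : ∀ v, IsOpen (ex v) := fun v =>
    isOpen_lt Metric.continuous_infEDist Metric.continuous_infEDist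
  have hexm : ∀ v : Set P, IsOpen v → ∀ p ∈ v, j p ∈ ex v := by
    intro v hv p hp
    obtain ⟨O, hO, hOv⟩ := hji.isOpen_iff.1 hv
    have h1 : Metric.infEDist (j p) (j '' v) = 0 :=
      Metric.infEDist_zero_of_mem (mem_image_of_mem j hp)
    have h2 : 0 < Metric.infEDist (j p) (j '' vᶜ) := by
      rw [Metric.infEDist_pos_iff_notMem_closure]
      have h3 : closure (j '' vᶜ) ⊆ Oᶜ := by
        refine closure_minimal ?_ hO.isClosed_compl
        rintro _ ⟨q, hq, rfl⟩ hq'
        exact hq (by rw [← hOv]; exact hq')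
      intro h4
      exact h3 h4 (by rw [← hOv] at hp; exact hp)
    show Metric.infEDist (j p) (j '' v) < Metric.infEDist (j p) (j '' vᶜ)
    rw [h1]
    exact h2
  have hexd : ∀ v w : Set P, Disjoint v w → ∀ y, y ∈ ex v → y ∈ ex w → False := by
    intro v w hvw y hyv hyw
    have h1 : Metric.infEDist y (j '' v) < Metric.infEDist y (j '' vᶜ) := hyv
    have h2 : Metric.infEDist y (j '' w) < Metric.infEDist y (j '' wᶜ) := hyw
    have h3 : Metric.infEDist y (j '' vᶜ) ≤ Metric.infEDist y (j '' w) :=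
      Metric.infEDist_anti (image_mono (Set.disjoint_left.1 hvw.symm))
    have h4 : Metric.infEDist y (j '' wᶜ) ≤ Metric.infEDist y (j '' v) :=
      Metric.infEDist_anti (image_mono (Set.disjoint_left.1 hvw))
    exact absurd (h1.trans_le (h3.trans (h2.le.trans h4))) (lt_irrefl _)
  set c : Set P → G := fun v => if h : v.Nonempty then f h.some else 1 with hc
  have hO : ∀ (i : ℕ) (v : Set P), ∃ O : Set Y, IsOpen O ∧
      (Subtype.val : A → Y) ⁻¹' O = {a : A | κ.dL (c v) (f a) < e i} := by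
    intro i v
    refine isOpen_induced_iff.1 ?_
    exact isOpen_lt (κ.continuous_dL.comp (continuous_const.prodMk hf)) continuous_const
  choose O hOo hOP using hO
  have hOP' : ∀ i v (a : A), (a : Y) ∈ O i v ↔ κ.dL (c v) (f a) < e i := by
    intro i v a
    have h1 : a ∈ (Subtype.val : A → Y) ⁻¹' (O i v) ↔ (a : Y) ∈ O i v := Iff.rfl
    rw [← h1, hOP i v]
    rfl
  set g : ℕ → Y → G := fun i y => if h : ∃ v ∈ V i, y ∈ ex v then c h.choose else 1 with hg
  have hgv : ∀ i, ∀ v ∈ V i, ∀ y ∈ ex v, g i y = c v := by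
    intro i v hv y hy
    have h : ∃ v ∈ V i, y ∈ ex v := ⟨v, hv, hy⟩
    have h1 : g i y = c h.choose := dif_pos h
    rw [h1]
    by_contra hne
    have h2 : h.choose ≠ v := fun h3 => hne (by rw [h3])
    exact hexd _ _ (hVd i h.choose_spec.1 hv h2) y h.choose_spec.2 hy
  refine ⟨fun i => ⋃ v ∈ V i, ex v ∩ O i v, g, e, ?_, ?_, fun i => (he0 i).le,
    hes, heε, ?_, ?_, ?_⟩
  · exact fun i => isOpen_biUnion fun v _ => (hexo v).inter (hOo i v)
  · intro i y hy
    simp only [mem_iUnion] at hy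
    obtain ⟨v, hv, hyv, _⟩ := hy
    refine ContinuousAt.continuousWithinAt ?_
    refine (continuousAt_const (y := c v)).congr ?_
    filter_upwards [(hexo v).mem_nhds hyv] with z hz
    exact (hgv i v hv z hz).symm
  · intro i a ha
    simp only [mem_iUnion] at ha
    obtain ⟨v, hv, hav, haO⟩ := ha
    rw [hgv i v hv a hav]
    exact ((hOP' i v a).1 haO).le
  · intro a ha
    have h1 : (⟨a, ha⟩ : P) ∈ ⋃ i, ⋃₀ V i := by rw [hVc]; exact mem_univ _
    obtain ⟨i, hi⟩ := mem_iUnion.1 h1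
    obtain ⟨v, hv, hav⟩ := hi
    refine ⟨i, ?_⟩
    simp only [mem_iUnion]
    refine ⟨v, hv, hexm v (hVo i v hv) _ hav, (hOP' i v a).2 ?_⟩
    have hne : v.Nonempty := ⟨_, hav⟩
    have h2 : c v = f hne.some := dif_pos hne
    rw [h2]
    exact hVf i v hv _ hne.some_mem _ hav
  · intro i y hy
    have hcD : ∀ v, c v ∈ D ε := by
      intro v
      by_cases h : v.Nonempty
      · have h2 : c v = f h.some := dif_pos h
        rw [h2]
        exact hfD ε hε _
      · have h2 : c v = 1 := dif_neg h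
        rw [h2]
        exact h1D ε hε
    simp only [mem_iUnion] at hy
    obtain ⟨v, hv, hyv, _⟩ := hy
    rw [hgv i v hv y hyv]
    exact hcD v

/-- sets on which the map factors through a space with property C are thin -/
theorem Thin.of_propC_factor (D : ℝ → Set G) {Y : Type*} [TopologicalSpace Y]
    [TopologicalSpace.MetrizableSpace Y]
    {A : Set Y} {f : A → G} (hf : Continuous f) (P : Set A) {X : Type*} [TopologicalSpace X]
    (hX : PropC X) (φ : P → X) (hφ : Continuous φ) (ψ : X → G) (hψ : Continuous ψ)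
    (hfac : ∀ p : P, f p = ψ (φ p))
    (hfD : ∀ ε > 0, ∀ a, f a ∈ D ε) (h1D : ∀ ε > 0, (1 : G) ∈ D ε) : κ.Thin D f P := by
  refine Thin.of_families κ D hf P (fun ε hε => ?_) hfD h1D
  set e : ℕ → ℝ := fun i => ε / 2 / 2 ^ i with he
  have he0 : ∀ i, 0 < e i := fun i => by positivity
  obtain ⟨V, hV, hVd, hVc⟩ := hX (fun i => range fun x₀ : X => {x : X | κ.dL (ψ x₀) (ψ x) < e i / 2})
    (by
      rintro i _ ⟨x₀, rfl⟩
      have h1 : Continuous fun x : X => κ.dL (ψ x₀) (ψ x) :=
        κ.continuous_dL.comp (continuous_const.prodMk hψ)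
      exact isOpen_lt h1 continuous_const)
    (by
      intro i
      ext x
      simp only [mem_univ, iff_true]
      refine ⟨_, ⟨x, rfl⟩, ?_⟩
      show κ.dL (ψ x) (ψ x) < _
      rw [κ.dL_self]
      have := he0 i
      positivity)
  refine ⟨fun i => (fun v => φ ⁻¹' v) '' (V i), e, summable_geometric_two' ε,
    (tsum_geometric_two' ε).le, he0, ?_, ?_, ?_, ?_⟩
  · rintro i _ ⟨v, hv, rfl⟩ _ ⟨v', hv', rfl⟩ hne
    have h1 : v ≠ v' := fun h => hne (by rw [h])
    exact (hVd i hv hv' h1).preimage φ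
  · rintro i _ ⟨v, hv, rfl⟩
    exact (hV i v hv).1.preimage hφ
  · rintro i _ ⟨v, hv, rfl⟩ p hp q hq
    obtain ⟨_, ⟨x₀, rfl⟩, hvu⟩ := (hV i v hv).2
    have h3 : κ.dL (ψ x₀) (ψ (φ p)) < e i / 2 := hvu hp
    have h4 : κ.dL (ψ x₀) (ψ (φ q)) < e i / 2 := hvu hq
    have h5 := κ.dL_triangle' (ψ (φ p)) (ψ x₀) (ψ (φ q))
    rw [hfac p, hfac q]
    linarith
  · ext p
    simp only [mem_univ, iff_true]
    have h1 : φ p ∈ ⋃ i, ⋃₀ V i := by rw [hVc]; exact mem_univ _
    obtain ⟨i, hi⟩ := mem_iUnion.1 h1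
    obtain ⟨v, hv, hav⟩ := hi
    exact mem_iUnion.2 ⟨i, _, ⟨v, hv, rfl⟩, hav⟩

end Con

end Pool.Agent.H662.HM
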