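import Pool.Agent.H662.HM.HKc
import Pool.Agent.H662.HM.Dom
import Pool.Agent.H662.HM.Def3

/-!
# The smoothing criterion
-/

set_option autoImplicit false
set_option linter.unusedSectionVars false

open Set Topology Filter
open scoped BoundedContinuousFunction ContDiff

namespace Pool.Agent.H662.HM

universe u

section

variable {E : Type u} [NormedAddCommGroup E] [NormedSpace ℝ E]

/-- the change of the bundle -/
def toK (h : HC E) : HK E := ⟨h.1, h.2⟩

/-- the change of the bundle -/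
def toC (h : HK E) : HC E := ⟨h.1, h.2⟩

theorem near_iff {r : ℝ} (hr : 0 ≤ r) (g h : HC E) : Near r g h ↔ dist (toK g) (toK h) ≤ r :=
  (HK.dist_le_iff (g := toK g) (h := toK h) hr).symm

theorem isSmooth_iff (h : HC E) : IsSmooth h ↔ toK h ∈ (HK.Sm : Set (HK E)) := Iff.rfl

theorem mem_HC1_iff (h : HC E) : h ∈ HC1 E ↔ HK.N (toK h) ≤ 1 :=
  (HK.N_le_iff (h := toK h) zero_le_one).symm

variable [FiniteDimensional ℝ E]

theorem secondCountable_HK : SecondCountableTopology (HK E) := by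
  have hproper : ProperSpace E := FiniteDimensional.proper ℝ E
  have h1 : SecondCountableTopology (UB E) :=
    TopologicalSpace.secondCountableTopology_induced (UB E) E (fun x => x.1)
  have h2 : T2Space (UB E) :=
    T2Space.of_injective_continuous (f := fun x : UB E => x.1) (fun _ _ h => Subtype.ext h)
      HB.continuous_val
  have h3 : SecondCountableTopology C(UB E, UB E) := inferInstance
  have h4 : SecondCountableTopology (HB E) :=
    TopologicalSpace.secondCountableTopology_induced (HB E) C(UB E, UB E) _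
  have h5 : ∀ j : ℕ, TopologicalSpace.IsSeparable
      (range fun h : HB E => HK.sc ((j : ℝ) + 1) (HK.inc (HB.up h))) := fun j =>
    TopologicalSpace.isSeparable_range ((HK.continuous_sc (by positivity)).comp
      (HK.isometry_inc.continuous.comp HB.continuous_up))
  have h6 : (⋃ j : ℕ, range fun h : HB E => HK.sc ((j : ℝ) + 1) (HK.inc (HB.up h))) = univ := by
    ext g
    simp only [mem_univ, iff_true, mem_iUnion, mem_range]
    obtain ⟨R, hR⟩ := HK.exists_Sp g
    obtain ⟨j, hj⟩ := exists_nat_gt R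
    have hj0 : (0 : ℝ) < (j : ℝ) + 1 := by positivity
    have h7 : HK.sc ((j : ℝ) + 1)⁻¹ g ∈ (HK.Sp 1 : Set (HK E)) := by
      have h8 := HK.Sp_sc (t := ((j : ℝ) + 1)⁻¹)
        (HK.Sp_mono (show R ≤ (j : ℝ) + 1 by linarith) hR) (by positivity)
      rwa [inv_mul_cancel₀ hj0.ne'] at h8
    refine ⟨j, HB.down (HK.rs _ h7) (fun x hx => h7 x hx), ?_⟩
    have h8 : HK.inc (HB.up (HB.down (HK.rs _ h7) (fun x hx => h7 x hx))) =
        HK.sc ((j : ℝ) + 1)⁻¹ g := by
      ext x
      exact HB.hat_down (HK.rs _ h7) (fun x hx => h7 x hx) x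
    rw [h8, HK.sc_sc hj0 (by positivity), mul_inv_cancel₀ hj0.ne', HK.sc_one]
  have h7 : TopologicalSpace.SeparableSpace (HK E) := by
    rw [← TopologicalSpace.isSeparable_univ_iff, ← h6]
    exact TopologicalSpace.IsSeparable.iUnion h5
  exact UniformSpace.secondCountable_of_separable (HK E)

theorem ae_HK (h : IsAE (HB E)) (Y : Type u) [TopologicalSpace Y]
    [TopologicalSpace.MetrizableSpace Y] (A : Set Y) (hA : IsClosed A) (f : A → HK E)
    (hf : Continuous f) : ∃ F : Y → HK E, Continuous F ∧ ∀ a : A, F a = f a := by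
  refine HK.ext_of_pieces hA hf (fun j : ℕ => {a | f a ∈ HK.Sp ((j : ℝ) + 1)}) ?_ ?_
  · ext a
    simp only [mem_iUnion, mem_univ, iff_true]
    obtain ⟨R, hR⟩ := HK.exists_Sp (f a)
    obtain ⟨j, hj⟩ := exists_nat_gt R
    exact ⟨j, HK.Sp_mono (by linarith) hR⟩
  · intro j
    refine HK.exists_on_piece hA hf _ ((HK.isClosed_Sp _).preimage hf) ?_
    intro B hB k hk hkP
    have hj : (0 : ℝ) < (j : ℝ) + 1 := by positivity
    have hkS : ∀ b, HK.sc ((j : ℝ) + 1)⁻¹ (k b) ∈ (HK.Sp 1 : Set (HK E)) := by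
      intro b
      obtain ⟨a, ha, _, hab⟩ := hkP b
      rw [hab]
      have h1 := HK.Sp_sc (t := ((j : ℝ) + 1)⁻¹) (show f a ∈ HK.Sp ((j : ℝ) + 1) from ha)
        (by positivity)
      rwa [inv_mul_cancel₀ hj.ne'] at h1
    obtain ⟨F, hF, hFB⟩ := h Y B hB (fun b => HB.down (HK.rs _ (hkS b)) (fun x hx => hkS b x hx))
      (HB.continuous_down _ (HK.continuous_rs _ ((HK.continuous_sc (by positivity)).comp hk) hkS)
        (fun b x hx => hkS b x hx))
    refine ⟨fun y => HK.sc ((j : ℝ) + 1) (HK.inc (HB.up (F y))),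
      (HK.continuous_sc hj).comp (HK.isometry_inc.continuous.comp (HB.continuous_up.comp hF)),
      fun b => ?_⟩
    show HK.sc ((j : ℝ) + 1) (HK.inc (HB.up (F b))) = k b
    rw [hFB b]
    have h8 : HK.inc (HB.up (HB.down (HK.rs _ (hkS b)) (fun x hx => hkS b x hx))) =
        HK.sc ((j : ℝ) + 1)⁻¹ (k b) := by
      ext x
      exact HB.hat_down (HK.rs _ (hkS b)) (fun x hx => hkS b x hx) x
    rw [h8, HK.sc_sc hj (by positivity), mul_inv_cancel₀ hj.ne', HK.sc_one]

theorem ae_HB (h : ∀ (Y : Type u) [TopologicalSpace Y]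
    [TopologicalSpace.MetrizableSpace Y] (A : Set Y), IsClosed A → ∀ f : A → HK E,
    Continuous f → ∃ F : Y → HK E, Continuous F ∧ ∀ a : A, F a = f a) : IsAE (HB E) := by
  intro Y _ _ A hA f hf
  have hf1 : ∀ a, HK.inc (HB.up (f a)) ∈ (HK.Sp 1 : Set (HK E)) := fun a x hx =>
    HB.up_supp (f a) x hx
  have hfc : Continuous fun a => HK.inc (HB.up (f a)) :=
    HK.isometry_inc.continuous.comp (HB.continuous_up.comp hf)
  obtain ⟨F, hF, hFA, hFS⟩ := HK.ext_Sp hA hfc hf1 (h Y A hA _ hfc)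
  refine ⟨fun y => HB.down (HK.rs (F y) (hFS y)) (fun x hx => hFS y x hx),
    HB.continuous_down _ (HK.continuous_rs F hF hFS) (fun y x hx => hFS y x hx), fun a => ?_⟩
  have h2 : ∀ (g : HG E) (hg : ∀ x, 1 ≤ ‖x‖ → g.1 x = x), g = HB.up (f a) →
      HB.down g hg = f a := by
    intro g hg hgu
    subst hgu
    exact HB.down_up _ _
  apply h2
  apply Subtype.ext
  have h3 := hFA a
  exact congrArg (fun g : HK E => (g.1 : E ≃ₜ E)) h3

end

/-- the smoothing criterion -/
theorem crit_smooth (E : Type u) [NormedAddCommGroup E] [NormedSpace ℝ E]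
    [FiniteDimensional ℝ E] :
    [IsAE (HB E) ∧ ∀ h : HC E, ∀ ε > 0, ∃ g : HC E, IsSmooth g ∧ Near ε g h,
      ∀ ε > 0, Smoothing (univ : Set (HC E)) ε,
      ∃ r < 1, Smoothing (HC1 E) r].TFAE := by
  tfae_have 1 → 2 := by
    rintro ⟨hAE, hd⟩ ε hε
    have := secondCountable_HK (E := E)
    have hdense : Dense (HK.Sm : Set (HK E)) := by
      rw [Metric.dense_iff]
      intro h r hr
      obtain ⟨g, hg, hgh⟩ := hd (toC h) (r / 2) (by positivity)
      refine ⟨toK g, ?_, hg⟩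
      rw [Metric.mem_ball]
      have h1 := (near_iff (by positivity) g (toC h)).1 hgh
      have h2 : dist (toK g) h ≤ r / 2 := h1
      linarith
    obtain ⟨J, hJ, hJS, hJd⟩ := (HK.kap (E := E)).approx_of_ae (V := E →ᵇ E) HK.disp
      HK.isInducing_disp HK.disp_injective (ae_HK hAE) HK.Sm_cx hdense hε
    have hψ : Continuous fun h : HK E => (J h⁻¹)⁻¹ := (hJ.comp continuous_inv).inv
    refine ⟨fun h => toC (J (toK h)⁻¹)⁻¹, ?_, ?_⟩
    · intro h _ ε' hε'
      obtain ⟨δ, hδ, h1⟩ := Metric.continuous_iff.1 hψ (toK h) ε' hε'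
      refine ⟨δ / 2, by positivity, fun h' _ hh' => ?_⟩
      rw [near_iff (by positivity)] at hh' ⊢
      exact (h1 (toK h') (by linarith)).le
    · intro h _
      refine ⟨HK.Sm_inv (hJS _), ?_⟩
      rw [near_iff hε.le]
      show dist (J (toK h)⁻¹)⁻¹ (toK h) ≤ ε
      rw [HK.dist_eq_N]
      exact hJd (toK h)⁻¹
  tfae_have 2 → 3 := by
    intro h
    obtain ⟨φ, hφ, hφS⟩ := h (1 / 2) (by norm_num)
    refine ⟨1 / 2, by norm_num, φ, fun h _ ε hε => ?_, fun h _ => hφS h (mem_univ _)⟩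
    obtain ⟨δ, hδ, h1⟩ := hφ h (mem_univ _) ε hε
    exact ⟨δ, hδ, fun h' _ hh' => h1 h' (mem_univ _) hh'⟩
  tfae_have 3 → 1 := by
    rintro ⟨r, hr, φ, hφ, hφS⟩
    have hmem : ∀ h : {h : HK E // HK.N h ≤ 1}, toC h.1 ∈ HC1 E := fun h =>
      (mem_HC1_iff (toC h.1)).2 h.2
    have hr0 : 0 ≤ r := by
      have h1 := (hφS _ (hmem ⟨1, by rw [HK.N_one]; exact zero_le_one⟩)).2 0
      exact (norm_nonneg _).trans h1
    set ψ : {h : HK E // HK.N h ≤ 1} → HK E := fun h => toK (φ (toC h.1)) with hψ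
    have hψc : Continuous ψ := by
      rw [Metric.continuous_iff]
      intro h ε hε
      obtain ⟨δ, hδ, h1⟩ := hφ _ (hmem h) (ε / 2) (by positivity)
      refine ⟨δ, hδ, fun h' hh' => ?_⟩
      have h2 := h1 _ (hmem h') ((near_iff hδ.le _ _).2 (show dist h'.1 h.1 ≤ δ from hh'.le))
      rw [near_iff (by positivity)] at h2
      exact lt_of_le_of_lt h2 (by linarith)
    have hψS : ∀ h, ψ h ∈ (HK.Sm : Set (HK E)) := fun h => (hφS _ (hmem h)).1
    have hψd : ∀ h, dist (ψ h) h.1 ≤ r := fun h =>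
      (near_iff hr0 _ (toC h.1)).1 (hφS _ (hmem h)).2
    refine ⟨ae_HB fun Y _ _ A hA f hf => HK.ext_all E hr ψ hψc hψS hψd Y A hA f hf, ?_⟩
    intro h ε hε
    obtain ⟨g, hg, hgh⟩ := HK.dense_of E hr ψ hψS hψd (toK h) hε
    exact ⟨toC g, hg, (near_iff hε.le (toC g) h).2 hgh⟩
  tfae_finish

end Pool.Agent.H662.HM
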