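import Pool.Agent.H662.HM.Abs

/-!
# Gluing countably many approximations defined on open sets
-/

set_option autoImplicit false
set_option linter.unusedSectionVars false

open Set Topology Filter

namespace Pool.Agent.H662.HM

namespace Con

variable {G : Type*} [Group G] [TopologicalSpace G] [IsTopologicalGroup G] (κ : Con G)

theorem chain_continuousAt {Y : Type*} [TopologicalSpace Y] (g : ℕ → Y → G) (t : ℕ → Y → ℝ)
    (y : Y) (ht : ∀ k, ContinuousAt (t k) y)
    (hg : ∀ k, ContinuousAt (g k) y ∨ ∀ᶠ z in 𝓝 y, 1 ≤ t k z) :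
    ∀ r k, ContinuousAt (fun z => κ.chain (fun k => g k z) (fun k => t k z) r k) y := by
  intro r
  induction r with
  | zero => intro k; exact continuousAt_const
  | succ r ih =>
    intro k
    rcases hg k with h | h
    · have h1 : ContinuousAt (fun z => ((g k z,
          κ.chain (fun k => g k z) (fun k => t k z) r (k + 1), t k z) : G × G × ℝ)) y :=
        h.prodMk ((ih (k + 1)).prodMk (ht k))
      exact (κ.continuous_lam.tendsto (g k y,
          κ.chain (fun k => g k y) (fun k => t k y) r (k + 1), t k y)).comp h1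
    · refine (ih (k + 1)).congr ?_
      filter_upwards [h] with z hz
      show _ = κ.lam _ _ _
      rw [κ.lam_of_ge _ _ hz]

/-- gluing on the whole space -/
theorem glue_univ {Y : Type*} [TopologicalSpace Y] [NormalSpace Y] [ParacompactSpace Y]
    (Q : ℕ → Set Y) (hQ : ∀ k, IsOpen (Q k)) (hcov : ⋃ k, Q k = univ) (g : ℕ → Y → G)
    (hg : ∀ k, ContinuousOn (g k) (Q k)) (D : Set G) (hD : κ.Cx D)
    (hgD : ∀ k, ∀ y ∈ Q k, g k y ∈ D) (ε : ℕ → ℝ) (hε : ∀ k, 0 ≤ ε k) (hεs : Summable ε) :
    ∃ J : Y → G, Continuous J ∧ (∀ y, J y ∈ D) ∧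
      ∀ y z, (∀ k, y ∈ Q k → κ.dL (g k y) z ≤ ε k) → κ.dL (J y) z ≤ 2 * ∑' k, ε k := by
  classical
  obtain ⟨p, hp⟩ := PartitionOfUnity.exists_isSubordinate (X := Y) (s := univ) isClosed_univ Q hQ
    (by rw [hcov])
  set t : ℕ → Y → ℝ := fun k y => 1 - 2 ^ (k + 2) * p k y with ht
  have htc : ∀ k, Continuous (t k) := fun k => by
    have := (p k).continuous
    fun_prop
  -- off `Q k` the function `t k` is one near the point
  have ht1 : ∀ k y, y ∉ Q k → ∀ᶠ z in 𝓝 y, 1 ≤ t k z := by
    intro k y hy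
    have h1 : y ∉ tsupport (p k) := fun h => hy (hp k h)
    have h2 : ∀ᶠ z in 𝓝 y, p k z = 0 := by
      have := notMem_tsupport_iff_eventuallyEq.1 h1
      filter_upwards [this] with z hz
      simpa using hz
    filter_upwards [h2] with z hz
    simp [ht, hz]
  have hlt : ∀ k y, t k y < 1 → y ∈ Q k := by
    intro k y h
    by_contra hy
    have := (ht1 k y hy).self_of_nhds
    linarith
  -- somewhere `t` is negative
  have hneg : ∀ y, ∃ m, t m y < 0 := by
    intro y
    by_contra hcon
    push Not at hcon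
    have h1 : ∀ k, p k y ≤ (1 / 4) * (1 / 2) ^ k := by
      intro k
      have h2 := hcon k
      simp only [ht] at h2
      have h3 : (2 : ℝ) ^ (k + 2) * p k y ≤ 1 := by linarith
      have h4 : (0 : ℝ) < 2 ^ (k + 2) := by positivity
      rw [← le_div_iff₀' h4] at h3
      refine h3.trans (le_of_eq ?_)
      rw [pow_add, one_div_pow]
      field_simp
      norm_num
    have h5 : ∑ᶠ k, p k y = 1 := p.sum_eq_one (mem_univ y)
    have hfin : (Function.support fun k => p k y).Finite := p.locallyFinite.point_finite y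
    rw [finsum_eq_sum _ hfin] at h5
    have h6 : ∑ i ∈ hfin.toFinset, p i y ≤ ∑ i ∈ hfin.toFinset, (1 / 4 : ℝ) * (1 / 2) ^ i :=
      Finset.sum_le_sum fun i _ => h1 i
    have h7 : Summable (fun i : ℕ => (1 / 4 : ℝ) * (1 / 2) ^ i) :=
      (summable_geometric_of_lt_one (by norm_num) (by norm_num)).mul_left _
    have h8 := h7.sum_le_tsum hfin.toFinset (fun i _ => by positivity)
    rw [tsum_mul_left, tsum_geometric_of_lt_one (by norm_num) (by norm_num)] at h8
    norm_num at h8
    linarith
  choose m hm using hneg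
  refine ⟨fun y => κ.chain (fun k => g k y) (fun k => t k y) (m y + 1) 0, ?_, ?_, ?_⟩
  · rw [continuous_iff_continuousAt]
    intro y
    have h1 : ∀ᶠ z in 𝓝 y, t (m y) z < 0 := (htc (m y)).continuousAt.eventually_lt_const (hm y)
    have h2 := κ.chain_continuousAt g t y (fun k => (htc k).continuousAt) (fun k => by
      by_cases hy : y ∈ Q k
      · exact Or.inl ((hg k).continuousAt ((hQ k).mem_nhds hy))
      · exact Or.inr (ht1 k y hy)) (m y + 1) 0
    refine h2.congr ?_
    filter_upwards [h1] with z hz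
    by_cases hle : m y ≤ m z
    · exact κ.chain_stable _ _ hz.le _ _ 0 (Nat.zero_le _) (by omega) (by omega)
    · exact κ.chain_stable _ _ (hm z).le _ _ 0 (Nat.zero_le _) (by omega) (by omega)
  · intro y
    exact κ.chain_mem hD _ _ (fun k hk => hgD k y (hlt k y hk)) _ _
  · intro y z h
    have h1 := κ.chain_dL (fun k => g k y) (fun k => t k y) z ε hε
      (fun k hk => h k (hlt k y hk)) (hm y).le (m y + 1) 0 (Nat.zero_le _) (by omega)
    have h2 := hεs.sum_le_tsum (Finset.Icc 0 (m y)) (fun i _ => hε i)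
    linarith

/-- gluing on the union of the open sets -/
theorem glue {Y : Type*} [TopologicalSpace Y] [TopologicalSpace.MetrizableSpace Y]
    (Q : ℕ → Set Y) (hQ : ∀ k, IsOpen (Q k)) (g : ℕ → Y → G)
    (hg : ∀ k, ContinuousOn (g k) (Q k)) (D : Set G) (hD : κ.Cx D)
    (hgD : ∀ k, ∀ y ∈ Q k, g k y ∈ D) (ε : ℕ → ℝ) (hε : ∀ k, 0 ≤ ε k) (hεs : Summable ε) :
    ∃ J : Y → G, ContinuousOn J (⋃ k, Q k) ∧ (∀ y, J y ∈ D) ∧
      ∀ y ∈ ⋃ k, Q k, ∀ z, (∀ k, y ∈ Q k → κ.dL (g k y) z ≤ ε k) →
        κ.dL (J y) z ≤ 2 * ∑' k, ε k := by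
  classical
  set W : Set Y := ⋃ k, Q k with hW
  let := TopologicalSpace.metrizableSpaceMetric Y
  obtain ⟨J, hJ, hJD, hJe⟩ := κ.glue_univ (Y := W) (fun k => Subtype.val ⁻¹' (Q k))
    (fun k => (hQ k).preimage continuous_subtype_val)
    (by
      ext y
      simp only [mem_iUnion, mem_preimage, mem_univ, iff_true]
      exact mem_iUnion.1 y.2)
    (fun k y => g k y)
    (fun k => (hg k).comp continuous_subtype_val.continuousOn (fun y hy => hy))
    D hD (fun k y hy => hgD k y hy) ε hε hεs
  refine ⟨fun y => if h : y ∈ W then J ⟨y, h⟩ else 1, ?_, ?_, ?_⟩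
  · rw [continuousOn_iff_continuous_domRestrict]
    refine hJ.congr fun y => ?_
    simp [y.2]
  · intro y
    by_cases h : y ∈ W
    · simp only [h, dite_true]
      exact hJD _
    · simp only [h, dite_false]
      exact hD.one
  · intro y hy z hz
    simp only [hy, dite_true]
    exact hJe ⟨y, hy⟩ z hz

end Con

end Pool.Agent.H662.HM
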