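import Pool.Agent.H662.HM.Lim

/-!
# The group of the homeomorphisms with bounded support, with the uniform metric and the
Alexander contraction
-/

set_option autoImplicit false
set_option linter.unusedSectionVars false

open Set Topology Filter
open scoped BoundedContinuousFunction ContDiff

namespace Pool.Agent.H662.HM

variable (E : Type*) [NormedAddCommGroup E] [NormedSpace ℝ E]

/-- the homeomorphisms of `E` with bounded support -/
def HK : Subgroup (E ≃ₜ E) where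
  carrier := {h | ∃ R : ℝ, ∀ x, R ≤ ‖x‖ → h x = x}
  mul_mem' := by
    rintro g h ⟨R, hg⟩ ⟨R', hh⟩
    refine ⟨max R R', fun x hx => ?_⟩
    show g (h x) = x
    rw [hh x ((le_max_right _ _).trans hx), hg x ((le_max_left _ _).trans hx)]
  one_mem' := ⟨0, fun x _ => rfl⟩
  inv_mem' := by
    rintro g ⟨R, hg⟩
    refine ⟨R, fun x hx => ?_⟩
    show g.symm x = x
    rw [Homeomorph.symm_apply_eq]
    exact (hg x hx).symm

variable {E}

namespace HK

/-- the elements supported in the ball of radius `r` -/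
def Sp (r : ℝ) : Set (HK E) := {h | ∀ x, r ≤ ‖x‖ → h.1 x = x}

theorem exists_Sp (h : HK E) : ∃ r : ℝ, h ∈ Sp r := h.2

theorem Sp_one (r : ℝ) : (1 : HK E) ∈ Sp r := fun _ _ => rfl

theorem Sp_mul {r : ℝ} {g h : HK E} (hg : g ∈ Sp r) (hh : h ∈ Sp r) : g * h ∈ Sp r := by
  intro x hx
  show g.1 (h.1 x) = x
  rw [hh x hx, hg x hx]

theorem Sp_inv {r : ℝ} {g : HK E} (hg : g ∈ Sp r) : g⁻¹ ∈ Sp r := by
  intro x hx
  show g.1.symm x = x
  rw [Homeomorph.symm_apply_eq]
  exact (hg x hx).symm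

theorem Sp_mono {r r' : ℝ} (h : r ≤ r') : (Sp r : Set (HK E)) ⊆ Sp r' :=
  fun _ hg x hx => hg x (h.trans hx)

theorem norm_apply_lt {R : ℝ} {h : HK E} (hh : h ∈ Sp R) {x : E} (hx : ‖x‖ < R) :
    ‖h.1 x‖ < R := by
  by_contra hcon
  have h1 := hh (h.1 x) (not_lt.1 hcon)
  have h2 := h.1.injective h1
  rw [h2] at hcon
  exact hcon hx

theorem norm_sub_le_of_Sp {R : ℝ} {h : HK E} (hh : h ∈ Sp R) (x : E) :
    ‖h.1 x - x‖ ≤ 2 * max R 0 := by
  by_cases hx : ‖x‖ < R
  · have h1 := norm_apply_lt hh hx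
    have h2 := _root_.norm_sub_le (h.1 x) x
    have h3 := le_max_left R 0
    linarith
  · rw [hh x (not_lt.1 hx)]
    simp

/-- the displacement -/
noncomputable def disp (h : HK E) : E →ᵇ E :=
  BoundedContinuousFunction.ofNormedAddCommGroup (fun x => h.1 x - x)
    (h.1.continuous.sub continuous_id) (2 * max (exists_Sp h).choose 0)
    (norm_sub_le_of_Sp (exists_Sp h).choose_spec)

theorem disp_apply (h : HK E) (x : E) : disp h x = h.1 x - x := rfl

theorem disp_injective : Function.Injective (disp : HK E → (E →ᵇ E)) := by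
  intro g h hgh
  ext x
  have h1 : disp g x = disp h x := by rw [hgh]
  rw [disp_apply, disp_apply] at h1
  simpa using h1

/-- the topology of uniform convergence -/
noncomputable instance : MetricSpace (HK E) := MetricSpace.induced disp disp_injective inferInstance

theorem dist_def (g h : HK E) : dist g h = dist (disp g) (disp h) := rfl

theorem isInducing_disp : IsInducing (disp : HK E → (E →ᵇ E)) := ⟨rfl⟩

theorem continuous_disp : Continuous (disp : HK E → (E →ᵇ E)) := isInducing_disp.continuous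

theorem dist_le_iff {g h : HK E} {C : ℝ} (hC : 0 ≤ C) :
    dist g h ≤ C ↔ ∀ x, ‖g.1 x - h.1 x‖ ≤ C := by
  rw [dist_def, BoundedContinuousFunction.dist_le hC]
  refine forall_congr' fun x => ?_
  rw [disp_apply, disp_apply, dist_eq_norm]
  simp

theorem norm_sub_le_dist (g h : HK E) (x : E) : ‖g.1 x - h.1 x‖ ≤ dist g h :=
  (dist_le_iff dist_nonneg).1 le_rfl x

/-- the largest displacement -/
noncomputable def N (h : HK E) : ℝ := dist h 1

theorem N_nonneg (h : HK E) : 0 ≤ N h := dist_nonneg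

theorem N_le_iff {h : HK E} {C : ℝ} (hC : 0 ≤ C) : N h ≤ C ↔ ∀ x, ‖h.1 x - x‖ ≤ C :=
  dist_le_iff hC

theorem norm_sub_le_N (h : HK E) (x : E) : ‖h.1 x - x‖ ≤ N h := norm_sub_le_dist h 1 x

theorem N_one : N (1 : HK E) = 0 := dist_self _

theorem N_inv_le (h : HK E) : N h⁻¹ ≤ N h := by
  rw [N_le_iff (N_nonneg h)]
  intro x
  have h1 := norm_sub_le_N h (h⁻¹.1 x)
  have h2 : h.1 (h⁻¹.1 x) = x := h.1.apply_symm_apply x
  rw [h2, norm_sub_rev] at h1
  exact h1

theorem N_inv (h : HK E) : N h⁻¹ = N h :=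
  le_antisymm (N_inv_le h) (by simpa using N_inv_le h⁻¹)

theorem N_mul (g h : HK E) : N (g * h) ≤ N g + N h := by
  rw [N_le_iff (add_nonneg (N_nonneg g) (N_nonneg h))]
  intro x
  have h1 := norm_sub_le_N g (h.1 x)
  have h2 := norm_sub_le_N h x
  have h3 : (g * h).1 x - x = (g.1 (h.1 x) - h.1 x) + (h.1 x - x) := by
    show g.1 (h.1 x) - x = _
    abel
  rw [h3]
  exact (norm_add_le _ _).trans (add_le_add h1 h2)

theorem dist_mul_right (g h k : HK E) : dist (g * k) (h * k) = dist g h := by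
  apply le_antisymm
  · rw [dist_le_iff dist_nonneg]
    intro x
    exact norm_sub_le_dist g h (k.1 x)
  · rw [dist_le_iff dist_nonneg]
    intro x
    have h1 := norm_sub_le_dist (g * k) (h * k) (k⁻¹.1 x)
    have h2 : k.1 (k⁻¹.1 x) = x := k.1.apply_symm_apply x
    show ‖g.1 x - h.1 x‖ ≤ _
    have h3 : (g * k).1 (k⁻¹.1 x) = g.1 x := by
      show g.1 (k.1 (k⁻¹.1 x)) = _
      rw [h2]
    have h4 : (h * k).1 (k⁻¹.1 x) = h.1 x := by
      show h.1 (k.1 (k⁻¹.1 x)) = _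
      rw [h2]
    rwa [h3, h4] at h1

theorem dist_eq_N (g h : HK E) : dist g h = N (g * h⁻¹) := by
  have := dist_mul_right g h h⁻¹
  rw [← this]
  simp [N]

theorem isClosed_Sp (r : ℝ) : IsClosed (Sp r : Set (HK E)) := by
  have h1 : (Sp r : Set (HK E)) = ⋂ x ∈ {x : E | r ≤ ‖x‖}, {h | disp h x = 0} := by
    ext h
    simp only [mem_iInter, Sp]
    refine forall_congr' fun x => forall_congr' fun hx => ?_
    show _ ↔ disp h x = 0
    rw [disp_apply, sub_eq_zero]
  rw [h1]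
  refine isClosed_biInter fun x _ => ?_
  refine isClosed_eq ?_ continuous_const
  exact (continuous_eval_const (F := E →ᵇ E) x).comp continuous_disp

section

variable [FiniteDimensional ℝ E]

theorem uniformContinuous_disp (h : HK E) : UniformContinuous (fun x => h.1 x - x) := by
  have : ProperSpace E := FiniteDimensional.proper ℝ E
  obtain ⟨R, hR⟩ := exists_Sp h
  refine HasCompactSupport.uniformContinuous_of_continuous ?_ (h.1.continuous.sub continuous_id)
  refine HasCompactSupport.of_support_subset_isCompact (isCompact_closedBall (0 : E) R) ?_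
  intro x hx
  rw [mem_closedBall_zero_iff]
  by_contra hcon
  exact hx (by simp [hR x (not_le.1 hcon).le])

theorem uniformContinuous (h : HK E) : UniformContinuous h.1 := by
  have := (uniformContinuous_disp h).add uniformContinuous_id
  refine this.congr ?_
  intro x
  simp

/-- left multiplication is continuous at the identity in a strong form -/
theorem exists_modulus (g : HK E) {ε : ℝ} (hε : 0 < ε) :
    ∃ δ > 0, ∀ h k : HK E, dist h k < δ → dist (g * h) (g * k) ≤ ε := by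
  obtain ⟨δ, hδ, h1⟩ := Metric.uniformContinuous_iff.1 (uniformContinuous g) ε hε
  refine ⟨δ, hδ, fun h k hhk => ?_⟩
  rw [dist_le_iff hε.le]
  intro x
  have h2 : dist (h.1 x) (k.1 x) < δ := by
    rw [dist_eq_norm]
    exact (norm_sub_le_dist h k x).trans_lt hhk
  have h3 := h1 h2
  rw [dist_eq_norm] at h3
  exact h3.le

instance : IsTopologicalGroup (HK E) where
  continuous_mul := by
    rw [continuous_iff_continuousAt]
    rintro ⟨g, h⟩
    rw [Metric.continuousAt_iff']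
    intro ε hε
    obtain ⟨δ, hδ, h1⟩ := exists_modulus g (show 0 < ε / 3 by positivity)
    have h2 : ∀ᶠ p : HK E × HK E in 𝓝 (g, h), dist p.1 g < ε / 3 :=
      (continuous_fst.tendsto (g, h)).eventually (Metric.ball_mem_nhds _ (by positivity))
    have h3 : ∀ᶠ p : HK E × HK E in 𝓝 (g, h), dist p.2 h < δ :=
      (continuous_snd.tendsto (g, h)).eventually (Metric.ball_mem_nhds _ hδ)
    filter_upwards [h2, h3] with p hp1 hp2
    have h4 : dist (p.1 * p.2) (g * p.2) = dist p.1 g := dist_mul_right _ _ _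
    have h5 := h1 p.2 h hp2
    have h6 := dist_triangle (p.1 * p.2) (g * p.2) (g * h)
    linarith
  continuous_inv := by
    rw [continuous_iff_continuousAt]
    intro g
    rw [Metric.continuousAt_iff']
    intro ε hε
    obtain ⟨δ, hδ, h1⟩ := exists_modulus g⁻¹ (show 0 < ε / 2 by positivity)
    have h2 : ∀ᶠ p : HK E in 𝓝 g, dist p g < δ := Metric.ball_mem_nhds _ hδ
    filter_upwards [h2] with p hp
    have h3 := h1 g p (by rwa [dist_comm])
    have h4 := dist_mul_right (g⁻¹ * g) (g⁻¹ * p) p⁻¹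
    have h5 : g⁻¹ * g * p⁻¹ = p⁻¹ := by simp
    have h6 : g⁻¹ * p * p⁻¹ = g⁻¹ := by simp
    rw [h5, h6] at h4
    linarith

end

/-! ### Scaling -/

/-- the scaled homeomorphism -/
noncomputable def sc (t : ℝ) (h : HK E) : HK E :=
  if ht : 0 < t then
    ⟨Homeomorph.smulOfNeZero t ht.ne' * h.1 * (Homeomorph.smulOfNeZero t ht.ne')⁻¹, by
      obtain ⟨R, hR⟩ := exists_Sp h
      refine ⟨t * R, fun x hx => ?_⟩
      show t • h.1 (t⁻¹ • x) = x
      rw [hR, smul_inv_smul₀ ht.ne']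
      rw [norm_smul, norm_inv, Real.norm_of_nonneg ht.le, inv_mul_eq_div, le_div_iff₀ ht]
      linarith⟩
  else 1

theorem sc_apply {t : ℝ} (ht : 0 < t) (h : HK E) (x : E) :
    (sc t h).1 x = t • h.1 (t⁻¹ • x) := by
  simp only [sc, ht, dite_true]
  rfl

theorem sc_of_nonpos {t : ℝ} (ht : t ≤ 0) (h : HK E) : sc t h = 1 := by
  simp only [sc, not_lt.2 ht, dite_false]

theorem sc_one (h : HK E) : sc 1 h = h := by
  ext x
  have h1 := sc_apply one_pos h x
  simpa using h1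

theorem sc_mul (t : ℝ) (g h : HK E) : sc t (g * h) = sc t g * sc t h := by
  by_cases ht : 0 < t
  · ext x
    show _ = (sc t g).1 ((sc t h).1 x)
    rw [sc_apply ht, sc_apply ht, sc_apply ht, inv_smul_smul₀ ht.ne']
    rfl
  · rw [sc_of_nonpos (not_lt.1 ht), sc_of_nonpos (not_lt.1 ht), sc_of_nonpos (not_lt.1 ht), one_mul]

theorem sc_map_one (t : ℝ) : sc t (1 : HK E) = 1 := by
  have h1 := sc_mul t (1 : HK E) 1
  rw [one_mul] at h1
  simpa using h1.symm

theorem sc_inv (t : ℝ) (h : HK E) : (sc t h)⁻¹ = sc t h⁻¹ := by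
  apply inv_eq_of_mul_eq_one_right
  rw [← sc_mul, mul_inv_cancel, sc_map_one]

theorem sc_sc {t t' : ℝ} (ht : 0 < t) (ht' : 0 < t') (h : HK E) : sc t (sc t' h) = sc (t * t') h := by
  ext x
  rw [sc_apply ht, sc_apply ht', sc_apply (mul_pos ht ht'), smul_smul, smul_smul]
  congr 3
  rw [mul_inv_rev]

theorem dist_sc {t : ℝ} (ht : 0 < t) (g h : HK E) : dist (sc t g) (sc t h) ≤ t * dist g h := by
  rw [dist_le_iff (by positivity)]
  intro x
  rw [sc_apply ht, sc_apply ht, ← smul_sub, norm_smul, Real.norm_of_nonneg ht.le]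
  exact mul_le_mul_of_nonneg_left (norm_sub_le_dist _ _ _) ht.le

theorem N_sc {t : ℝ} (ht : 0 < t) (h : HK E) : N (sc t h) ≤ t * N h := by
  have h1 := dist_sc ht h 1
  rw [sc_map_one] at h1
  exact h1

theorem continuous_sc {t : ℝ} (ht : 0 < t) : Continuous (sc t : HK E → HK E) := by
  refine (LipschitzWith.of_dist_le_mul (K := ⟨t, ht.le⟩) fun g h => ?_).continuous
  exact dist_sc ht g h

theorem Sp_sc {r t : ℝ} {g : HK E} (hg : g ∈ Sp r) (ht : 0 < t) : sc t g ∈ Sp (t * r) := by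
  intro x hx
  rw [sc_apply ht, hg, smul_inv_smul₀ ht.ne']
  rw [norm_smul, norm_inv, Real.norm_of_nonneg ht.le, inv_mul_eq_div, le_div_iff₀ ht]
  linarith

/-- smooth elements -/
def Sm : Set (HK E) := {h | ContDiff ℝ ∞ h.1 ∧ ContDiff ℝ ∞ h⁻¹.1}

theorem Sm_one : (1 : HK E) ∈ (Sm : Set (HK E)) := by
  refine ⟨contDiff_id, ?_⟩
  rw [inv_one]
  exact contDiff_id

theorem Sm_mul {g h : HK E} (hg : g ∈ (Sm : Set (HK E))) (hh : h ∈ (Sm : Set (HK E))) :
    g * h ∈ (Sm : Set (HK E)) := by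
  refine ⟨hg.1.comp hh.1, ?_⟩
  rw [mul_inv_rev]
  exact hh.2.comp hg.2

theorem Sm_inv {g : HK E} (hg : g ∈ (Sm : Set (HK E))) : g⁻¹ ∈ (Sm : Set (HK E)) :=
  ⟨hg.2, by rw [inv_inv]; exact hg.1⟩

theorem contDiff_sc {t : ℝ} {h : HK E} (hh : ContDiff ℝ ∞ h.1) : ContDiff ℝ ∞ (sc t h).1 := by
  by_cases ht : 0 < t
  · have : (fun x => t • h.1 (t⁻¹ • x)) = (sc t h).1 := by
      ext x; rw [sc_apply ht]
    rw [← this]
    fun_prop
  · rw [sc_of_nonpos (not_lt.1 ht)]
    exact contDiff_id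

theorem Sm_sc {g : HK E} (hg : g ∈ (Sm : Set (HK E))) (t : ℝ) : sc t g ∈ (Sm : Set (HK E)) := by
  refine ⟨contDiff_sc hg.1, ?_⟩
  rw [sc_inv]
  exact contDiff_sc hg.2

/-! ### The Alexander contraction -/

/-- the contraction -/
noncomputable def con (t : ℝ) (h : HK E) : HK E := sc (min t 1) h

theorem con_apply {t : ℝ} (ht : 0 < t) (h : HK E) (x : E) :
    (con t h).1 x = min t 1 • h.1 ((min t 1)⁻¹ • x) := sc_apply (lt_min ht one_pos) h x

theorem con_of_nonpos {t : ℝ} (ht : t ≤ 0) (h : HK E) : con t h = 1 :=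
  sc_of_nonpos ((min_le_left _ _).trans ht) h

theorem con_of_one_le {t : ℝ} (ht : 1 ≤ t) (h : HK E) : con t h = h := by
  unfold con
  rw [min_eq_right ht, sc_one]

theorem N_con_le (t : ℝ) (h : HK E) : N (con t h) ≤ N h := by
  by_cases ht : 0 < t
  · have h1 := N_sc (lt_min ht one_pos) h
    have h2 : min t 1 ≤ 1 := min_le_right _ _
    have h3 := N_nonneg h
    show N (sc (min t 1) h) ≤ _
    nlinarith
  · rw [con_of_nonpos (not_lt.1 ht), N_one]
    exact N_nonneg h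

theorem N_con_le' {t : ℝ} (ht : 0 ≤ t) (h : HK E) : N (con t h) ≤ t * N h := by
  rcases ht.eq_or_lt with h0 | ht
  · rw [← h0, con_of_nonpos le_rfl, N_one]; simp
  · have h1 := N_sc (lt_min ht one_pos) h
    have h2 : min t 1 ≤ t := min_le_left _ _
    have h3 := N_nonneg h
    show N (sc (min t 1) h) ≤ _
    nlinarith

theorem Sm_con {g : HK E} (hg : g ∈ (Sm : Set (HK E))) (t : ℝ) : con t g ∈ (Sm : Set (HK E)) :=
  Sm_sc hg _

theorem Sp_con {r : ℝ} {g : HK E} (hg : g ∈ Sp r) (t : ℝ) : con t g ∈ Sp r := by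
  intro x hx
  by_cases ht : 0 < t
  · rw [con_apply ht]
    have hs : 0 < min t 1 := lt_min ht one_pos
    rw [hg, smul_inv_smul₀ hs.ne']
    rw [norm_smul, norm_inv, Real.norm_of_nonneg hs.le]
    have h1 : 1 ≤ (min t 1)⁻¹ := (one_le_inv₀ hs).2 (min_le_right _ _)
    nlinarith [norm_nonneg x]
  · rw [con_of_nonpos (not_lt.1 ht)]
    rfl

theorem Sp_con' {r t : ℝ} {g : HK E} (hg : g ∈ Sp r) (ht : 0 < t) (ht1 : t ≤ 1) :
    con t g ∈ Sp (t * r) := by
  unfold con
  rw [min_eq_left ht1]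
  exact Sp_sc hg ht

section

variable [FiniteDimensional ℝ E]

theorem continuous_con : Continuous (fun p : ℝ × HK E => con p.1 p.2) := by
  rw [continuous_iff_continuousAt]
  rintro ⟨t₀, h₀⟩
  rcases lt_trichotomy t₀ 0 with ht₀ | ht₀ | ht₀
  · have h1 : ∀ᶠ p : ℝ × HK E in 𝓝 (t₀, h₀), p.1 < 0 :=
      (continuous_fst.tendsto (t₀, h₀)).eventually_lt_const ht₀
    refine (continuousAt_const (y := (1 : HK E))).congr ?_
    filter_upwards [h1] with p hp
    rw [con_of_nonpos hp.le]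
  · subst ht₀
    rw [Metric.continuousAt_iff']
    intro ε hε
    have h0 : 0 ≤ N h₀ := N_nonneg h₀
    have h1 : ∀ᶠ p : ℝ × HK E in 𝓝 ((0 : ℝ), h₀), p.1 < ε / (N h₀ + 1) :=
      (continuous_fst.tendsto ((0 : ℝ), h₀)).eventually_lt_const (by positivity)
    have h2 : ∀ᶠ p : ℝ × HK E in 𝓝 ((0 : ℝ), h₀), dist p.2 h₀ < 1 :=
      (continuous_snd.tendsto ((0 : ℝ), h₀)).eventually (Metric.ball_mem_nhds _ one_pos)
    filter_upwards [h1, h2] with p hp hp2
    show dist (con p.1 p.2) (con 0 h₀) < ε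
    rw [con_of_nonpos le_rfl h₀]
    by_cases hp0 : 0 ≤ p.1
    · have h3 := N_con_le' hp0 p.2
      have h4 : N p.2 ≤ dist p.2 h₀ + N h₀ := dist_triangle _ _ _
      show N _ < ε
      rw [lt_div_iff₀ (by positivity)] at hp
      nlinarith
    · rw [con_of_nonpos (not_le.1 hp0).le, dist_self]
      exact hε
  · rw [Metric.continuousAt_iff']
    intro ε hε
    set τ₀ := min t₀ 1 with hτ₀
    have hτ₀p : 0 < τ₀ := lt_min ht₀ one_pos
    obtain ⟨R, hR⟩ := exists_Sp h₀
    have hR0 : 0 ≤ max R 0 := le_max_right _ _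
    have hN0 : 0 ≤ N h₀ := N_nonneg h₀
    obtain ⟨δ, hδ, hu⟩ := Metric.uniformContinuous_iff.1 (uniformContinuous_disp h₀) (ε / 8)
      (by positivity)
    have hτc : Continuous (fun p : ℝ × HK E => min p.1 1) := by fun_prop
    have e1 : ∀ᶠ p : ℝ × HK E in 𝓝 (t₀, h₀), 0 < p.1 :=
      (continuous_fst.tendsto (t₀, h₀)).eventually_const_lt ht₀
    have e2 : ∀ᶠ p : ℝ × HK E in 𝓝 (t₀, h₀), |min p.1 1 - τ₀| < ε / (4 * (N h₀ + 1)) := by
      have : Continuous (fun p : ℝ × HK E => |min p.1 1 - τ₀|) := by fun_prop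
      exact (this.tendsto (t₀, h₀)).eventually_lt_const (by simp [hτ₀]; positivity)
    have e3 : ∀ᶠ p : ℝ × HK E in 𝓝 (t₀, h₀), |(min p.1 1)⁻¹ - τ₀⁻¹| < δ / (max R 0 + 1) := by
      have : ContinuousAt (fun p : ℝ × HK E => |(min p.1 1)⁻¹ - τ₀⁻¹|) (t₀, h₀) := by
        have h1 : ContinuousAt (fun p : ℝ × HK E => (min p.1 1)⁻¹) (t₀, h₀) :=
          hτc.continuousAt.inv₀ (by exact hτ₀p.ne')
        exact (h1.sub continuousAt_const).abs
      exact this.eventually_lt_const (by simp [hτ₀]; positivity)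
    have e4 : ∀ᶠ p : ℝ × HK E in 𝓝 (t₀, h₀), dist p.2 h₀ < ε / 8 :=
      (continuous_snd.tendsto (t₀, h₀)).eventually (Metric.ball_mem_nhds _ (by positivity))
    filter_upwards [e1, e2, e3, e4] with p h1 h2 h3 h4
    show dist (con p.1 p.2) (con t₀ h₀) < ε
    have hle : dist (con p.1 p.2) (con t₀ h₀) ≤ ε / 2 := by
      rw [dist_le_iff (by positivity)]
      intro x
      rw [con_apply h1, con_apply ht₀]
      set τ := min p.1 1 with hτ
      have hτp : 0 < τ := lt_min h1 one_pos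
      have hτ1 : τ ≤ 1 := min_le_right _ _
      have hτ₀1 : τ₀ ≤ 1 := min_le_right _ _
      have key : τ • p.2.1 (τ⁻¹ • x) - τ₀ • h₀.1 (τ₀⁻¹ • x) =
          τ • (p.2.1 (τ⁻¹ • x) - h₀.1 (τ⁻¹ • x)) +
          (τ - τ₀) • (h₀.1 (τ⁻¹ • x) - τ⁻¹ • x) +
          τ₀ • ((h₀.1 (τ⁻¹ • x) - τ⁻¹ • x) - (h₀.1 (τ₀⁻¹ • x) - τ₀⁻¹ • x)) := by
        have a1 : τ • τ⁻¹ • x = x := smul_inv_smul₀ hτp.ne' x
        have a2 : τ₀ • τ₀⁻¹ • x = x := smul_inv_smul₀ hτ₀p.ne' x
        simp only [smul_sub, sub_smul, a1, a2]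
        abel
      rw [key]
      have b1 : ‖τ • (p.2.1 (τ⁻¹ • x) - h₀.1 (τ⁻¹ • x))‖ ≤ ε / 8 := by
        rw [norm_smul, Real.norm_of_nonneg hτp.le]
        have := norm_sub_le_dist p.2 h₀ (τ⁻¹ • x)
        nlinarith [norm_nonneg (p.2.1 (τ⁻¹ • x) - h₀.1 (τ⁻¹ • x))]
      have b2 : ‖(τ - τ₀) • (h₀.1 (τ⁻¹ • x) - τ⁻¹ • x)‖ ≤ ε / 4 := by
        rw [norm_smul, Real.norm_eq_abs]
        have h5 := norm_sub_le_N h₀ (τ⁻¹ • x)
        rw [lt_div_iff₀ (by positivity)] at h2
        nlinarith [norm_nonneg (h₀.1 (τ⁻¹ • x) - τ⁻¹ • x), abs_nonneg (τ - τ₀)]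
      have b3 : ‖τ₀ • ((h₀.1 (τ⁻¹ • x) - τ⁻¹ • x) - (h₀.1 (τ₀⁻¹ • x) - τ₀⁻¹ • x))‖ ≤ ε / 8 := by
        rw [norm_smul, Real.norm_of_nonneg hτ₀p.le]
        have c1 : ‖(h₀.1 (τ⁻¹ • x) - τ⁻¹ • x) - (h₀.1 (τ₀⁻¹ • x) - τ₀⁻¹ • x)‖ ≤ ε / 8 := by
          by_cases hx : max R 0 ≤ ‖x‖
          · have d1 : ∀ s : ℝ, 0 < s → s ≤ 1 → h₀.1 (s⁻¹ • x) - s⁻¹ • x = 0 := by
              intro s hs hs1
              rw [hR, sub_self]
              rw [norm_smul, norm_inv, Real.norm_of_nonneg hs.le]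
              have h5 : 1 ≤ s⁻¹ := (one_le_inv₀ hs).2 hs1
              have h6 := (le_max_left R 0).trans hx
              nlinarith [norm_nonneg x]
            rw [d1 τ hτp hτ1, d1 τ₀ hτ₀p hτ₀1]
            simp
            positivity
          · have d2 : dist (τ⁻¹ • x) (τ₀⁻¹ • x) < δ := by
              rw [dist_eq_norm, ← sub_smul, norm_smul, Real.norm_eq_abs]
              rw [lt_div_iff₀ (by positivity)] at h3
              rw [not_le] at hx
              nlinarith [norm_nonneg x, abs_nonneg (τ⁻¹ - τ₀⁻¹)]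
            have := hu d2
            rw [dist_eq_norm] at this
            exact this.le
        nlinarith [norm_nonneg ((h₀.1 (τ⁻¹ • x) - τ⁻¹ • x) - (h₀.1 (τ₀⁻¹ • x) - τ₀⁻¹ • x))]
      have c3 := norm_add_le (τ • (p.2.1 (τ⁻¹ • x) - h₀.1 (τ⁻¹ • x)) +
          (τ - τ₀) • (h₀.1 (τ⁻¹ • x) - τ⁻¹ • x))
          (τ₀ • ((h₀.1 (τ⁻¹ • x) - τ⁻¹ • x) - (h₀.1 (τ₀⁻¹ • x) - τ₀⁻¹ • x)))
      have c4 := norm_add_le (τ • (p.2.1 (τ⁻¹ • x) - h₀.1 (τ⁻¹ • x)))
          ((τ - τ₀) • (h₀.1 (τ⁻¹ • x) - τ⁻¹ • x))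
      linarith
    linarith

/-- the structure used in the abstract part -/
noncomputable def kap : Con (HK E) where
  N := N
  c := con
  N_one := N_one
  N_nonneg := N_nonneg
  N_inv := N_inv
  N_mul := N_mul
  nhds_basis := by
    have := Metric.nhds_basis_ball (x := (1 : HK E))
    exact this
  c_cont := continuous_con
  c_zero := fun t g ht => con_of_nonpos ht g
  c_one := fun t g ht => con_of_one_le ht g
  N_c := N_con_le

theorem Sp_cx (r : ℝ) : (kap (E := E)).Cx (Sp r) where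
  one := Sp_one r
  lam := fun _ hx _ hy t => Sp_mul hx (Sp_con (Sp_mul (Sp_inv hx) hy) t)

theorem Sm_cx : (kap (E := E)).Cx Sm where
  one := Sm_one
  lam := fun _ hx _ hy t => Sm_mul hx (Sm_con (Sm_mul (Sm_inv hx) hy) t)

theorem univ_cx : (kap (E := E)).Cx univ where
  one := mem_univ _
  lam := fun _ _ _ _ _ => mem_univ _

end

end HK

end Pool.Agent.H662.HM
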