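import Pool.Agent.H662.HM.HK

/-!
# Squeezing the support of a homeomorphism with bounded support into a neighbourhood of the ball
-/

set_option autoImplicit false
set_option linter.unusedSectionVars false

open Set Topology Filter
open scoped BoundedContinuousFunction ContDiff

namespace Pool.Agent.H662.HM

variable {E : Type*} [NormedAddCommGroup E] [NormedSpace ℝ E]

namespace Sq

/-- the factor of the squeezing map -/
noncomputable def q (ε t : ℝ) : ℝ := (1 + ε) / max 1 t - ε / (max 1 t) ^ 2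

/-- the factor of the inverse of the squeezing map -/
noncomputable def p (ε t : ℝ) : ℝ := ε / ((1 + ε - max 1 t) * max 1 t)

/-- the squeezing map -/
noncomputable def ga (ε : ℝ) (x : E) : E := q ε ‖x‖ • x

/-- the inverse of the squeezing map -/
noncomputable def gb (ε : ℝ) (x : E) : E := p ε ‖x‖ • x

theorem q_of_le {ε t : ℝ} (ht : t ≤ 1) : q ε t = 1 := by
  unfold q
  rw [max_eq_left ht]
  ring

theorem p_of_le {ε t : ℝ} (hε : 0 < ε) (ht : t ≤ 1) : p ε t = 1 := by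
  unfold p
  rw [max_eq_left ht, mul_one, add_sub_cancel_left, div_self hε.ne']

theorem ga_of_le {ε : ℝ} {x : E} (hx : ‖x‖ ≤ 1) : ga ε x = x := by
  unfold ga
  rw [q_of_le hx, one_smul]

theorem gb_of_le {ε : ℝ} (hε : 0 < ε) {x : E} (hx : ‖x‖ ≤ 1) : gb ε x = x := by
  unfold gb
  rw [p_of_le hε hx, one_smul]

theorem q_pos {ε : ℝ} (hε : 0 < ε) (t : ℝ) : 0 < q ε t := by
  unfold q
  have h1 : 1 ≤ max 1 t := le_max_left _ _
  have h2 : 0 < max 1 t := by linarith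
  rw [sub_pos, div_lt_div_iff₀ (by positivity) h2]
  have h3 : 0 ≤ ε * max 1 t * (max 1 t - 1) :=
    mul_nonneg (mul_nonneg hε.le h2.le) (sub_nonneg.2 h1)
  have h4 : 0 < max 1 t * max 1 t := mul_pos h2 h2
  nlinarith

theorem q_le {ε : ℝ} (hε1 : ε ≤ 1) (t : ℝ) : q ε t ≤ 1 := by
  unfold q
  have h1 : 1 ≤ max 1 t := le_max_left _ _
  have h2 : 0 < max 1 t := by linarith
  have h3 : (1 + ε) / max 1 t - ε / (max 1 t) ^ 2 = ((1 + ε) * max 1 t - ε) / (max 1 t) ^ 2 := by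
    field_simp
  rw [h3, div_le_one (by positivity)]
  nlinarith

theorem norm_ga {ε : ℝ} (hε : 0 < ε) (x : E) : ‖ga ε x‖ = q ε ‖x‖ * ‖x‖ := by
  unfold ga
  rw [norm_smul, Real.norm_of_nonneg (q_pos hε _).le]

theorem norm_ga_of_ge {ε : ℝ} (hε : 0 < ε) {x : E} (hx : 1 ≤ ‖x‖) :
    ‖ga ε x‖ = 1 + ε - ε / ‖x‖ := by
  rw [norm_ga hε]
  unfold q
  rw [max_eq_right hx]
  field_simp

theorem norm_ga_lt {ε : ℝ} (hε : 0 < ε) (x : E) : ‖ga ε x‖ < 1 + ε := by
  rcases le_total ‖x‖ 1 with hx | hx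
  · rw [ga_of_le hx]
    linarith
  · rw [norm_ga_of_ge hε hx]
    have : 0 < ε / ‖x‖ := by positivity
    linarith

theorem one_le_norm_ga {ε : ℝ} (hε : 0 < ε) {x : E} (hx : 1 ≤ ‖x‖) : 1 ≤ ‖ga ε x‖ := by
  rw [norm_ga_of_ge hε hx]
  have : ε / ‖x‖ ≤ ε := div_le_self hε.le hx
  linarith

theorem norm_gb {ε : ℝ} (hε : 0 < ε) {x : E} (hx : 1 ≤ ‖x‖) (hx' : ‖x‖ < 1 + ε) :
    ‖gb ε x‖ = ε / (1 + ε - ‖x‖) := by
  unfold gb p
  rw [max_eq_right hx, norm_smul, Real.norm_of_nonneg (by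
    have : 0 < 1 + ε - ‖x‖ := by linarith
    positivity)]
  have : (1 + ε - ‖x‖) ≠ 0 := by linarith
  field_simp

theorem one_le_norm_gb {ε : ℝ} (hε : 0 < ε) {x : E} (hx : 1 ≤ ‖x‖) (hx' : ‖x‖ < 1 + ε) :
    1 ≤ ‖gb ε x‖ := by
  rw [norm_gb hε hx hx', one_le_div (by linarith)]
  linarith

theorem gb_ga {ε : ℝ} (hε : 0 < ε) (x : E) : gb ε (ga ε x) = x := by
  rcases le_total ‖x‖ 1 with hx | hx
  · rw [ga_of_le hx, gb_of_le hε hx]
  · have h1 := norm_ga_of_ge hε hx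
    have h2 := one_le_norm_ga hε hx
    have hx0 : 0 < ‖x‖ := by linarith
    unfold gb
    have h3 : p ε ‖ga ε x‖ * q ε ‖x‖ = 1 := by
      unfold p
      rw [max_eq_right h2, h1]
      unfold q
      rw [max_eq_right hx]
      have h4 : (0 : ℝ) < 1 + ε - ε / ‖x‖ := by rw [← h1]; linarith
      have h5 : (1 + ε - (1 + ε - ε / ‖x‖)) = ε / ‖x‖ := by ring
      rw [h5]
      have h6 : (1 + ε) / ‖x‖ - ε / ‖x‖ ^ 2 = (1 + ε - ε / ‖x‖) / ‖x‖ := by
        field_simp
      rw [h6]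
      have h7 : ∀ s n : ℝ, 0 < s → 0 < n → ε / (ε / n * s) * (s / n) = 1 := by
        intro s n hs hn
        field_simp
      exact h7 _ _ h4 hx0
    show p ε ‖ga ε x‖ • q ε ‖x‖ • x = x
    rw [smul_smul, h3, one_smul]

theorem ga_gb {ε : ℝ} (hε : 0 < ε) {x : E} (hx : ‖x‖ < 1 + ε) : ga ε (gb ε x) = x := by
  rcases le_total ‖x‖ 1 with hx1 | hx1
  · rw [gb_of_le hε hx1, ga_of_le hx1]
  · have h1 := norm_gb hε hx1 hx
    have h2 := one_le_norm_gb hε hx1 hx
    have h3 : 0 < 1 + ε - ‖x‖ := by linarith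
    have hx0 : 0 < ‖x‖ := by linarith
    have h4 : q ε ‖gb ε x‖ * p ε ‖x‖ = 1 := by
      unfold q
      rw [max_eq_right h2, h1]
      unfold p
      rw [max_eq_right hx1]
      field_simp
      ring
    show q ε ‖gb ε x‖ • p ε ‖x‖ • x = x
    rw [smul_smul, h4, one_smul]

theorem continuous_q (ε : ℝ) : Continuous (q ε) := by
  unfold q
  have h1 : Continuous fun t : ℝ => max 1 t := continuous_const.max continuous_id
  have h0 : ∀ t : ℝ, max 1 t ≠ 0 := fun t => (lt_max_of_lt_left one_pos).ne'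
  exact (continuous_const.div h1 h0).sub
    (continuous_const.div (h1.pow 2) (fun t => pow_ne_zero 2 (h0 t)))

theorem continuous_ga (ε : ℝ) : Continuous (ga ε : E → E) :=
  ((continuous_q ε).comp continuous_norm).smul continuous_id

theorem continuousAt_gb {ε : ℝ} (hε : 0 < ε) {x : E} (hx : ‖x‖ < 1 + ε) :
    ContinuousAt (gb ε : E → E) x := by
  have h1 : Continuous fun t : ℝ => max 1 t := continuous_const.max continuous_id
  have h0 : max 1 ‖x‖ ≠ 0 := (lt_max_of_lt_left one_pos).ne'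
  have h2 : max 1 ‖x‖ < 1 + ε := max_lt (by linarith) hx
  have h3 : Continuous fun y : E => max 1 ‖y‖ := h1.comp continuous_norm
  have h4 : ContinuousAt (fun y : E => p ε ‖y‖) x := by
    refine ContinuousAt.div continuousAt_const ?_ ?_
    · exact ((continuous_const.sub h3).mul h3).continuousAt
    · refine mul_ne_zero ?_ h0
      linarith
  exact h4.smul continuousAt_id

theorem lipschitz_ga {ε : ℝ} (hε : 0 < ε) (hε1 : ε ≤ 1) (x y : E) :
    ‖ga ε x - ga ε y‖ ≤ 5 * ‖x - y‖ := by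
  set a := max 1 ‖x‖ with ha
  set b := max 1 ‖y‖ with hb
  have ha1 : 1 ≤ a := le_max_left _ _
  have hb1 : 1 ≤ b := le_max_left _ _
  have hab : |a - b| ≤ ‖x - y‖ := by
    rw [ha, hb, max_comm 1 ‖x‖, max_comm 1 ‖y‖]
    exact (abs_max_sub_max_le_abs _ _ _).trans (abs_norm_sub_norm_le x y)
  have hyb : ‖y‖ ≤ b := le_max_right _ _
  have h1 : ga ε x - ga ε y = q ε ‖x‖ • (x - y) + (q ε ‖x‖ - q ε ‖y‖) • y := by
    unfold ga
    rw [smul_sub, sub_smul]
    abel
  have h2 : |q ε ‖x‖ - q ε ‖y‖| * b ≤ 4 * |a - b| := by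
    have h3 : q ε ‖x‖ - q ε ‖y‖ =
        (b - a) * ((1 + ε) / (a * b) - ε * (a + b) / (a ^ 2 * b ^ 2)) := by
      unfold q
      rw [← ha, ← hb]
      field_simp
      ring
    rw [h3, abs_mul, abs_sub_comm b a, mul_assoc]
    have h4 : |(1 + ε) / (a * b) - ε * (a + b) / (a ^ 2 * b ^ 2)| * b ≤ 4 := by
      have h5 : |(1 + ε) / (a * b) - ε * (a + b) / (a ^ 2 * b ^ 2)| ≤
          (1 + ε) / (a * b) + ε * (a + b) / (a ^ 2 * b ^ 2) := by
        refine (abs_sub _ _).trans ?_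
        rw [abs_of_nonneg (by positivity), abs_of_nonneg (by positivity)]
      have h6 : (1 + ε) / (a * b) * b ≤ 2 := by
        rw [div_mul_eq_mul_div, div_le_iff₀ (by positivity)]
        have : 0 < b := by linarith
        nlinarith
      have h7 : ε * (a + b) / (a ^ 2 * b ^ 2) * b ≤ 2 := by
        rw [div_mul_eq_mul_div, div_le_iff₀ (by positivity)]
        have hab1 : 1 ≤ a * b := one_le_mul_of_one_le_of_one_le ha1 hb1
        have e1 : a ≤ a ^ 2 * b := by nlinarith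
        have e2 : b ≤ a ^ 2 * b := by nlinarith [mul_pos (show 0 < b by linarith) (show 0 < a by linarith)]
        have e3 : ε * (a + b) ≤ 2 * (a ^ 2 * b) := by nlinarith
        nlinarith
      have hb0 : 0 < b := by linarith
      nlinarith
    have h8 : 0 ≤ |a - b| := abs_nonneg _
    nlinarith
  rw [h1]
  have h9 : ‖q ε ‖x‖ • (x - y)‖ ≤ ‖x - y‖ := by
    rw [norm_smul, Real.norm_of_nonneg (q_pos hε _).le]
    have := q_le hε1 ‖x‖
    nlinarith [norm_nonneg (x - y)]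
  have h10 : ‖(q ε ‖x‖ - q ε ‖y‖) • y‖ ≤ 4 * ‖x - y‖ := by
    rw [norm_smul, Real.norm_eq_abs]
    have : |q ε ‖x‖ - q ε ‖y‖| * ‖y‖ ≤ |q ε ‖x‖ - q ε ‖y‖| * b :=
      mul_le_mul_of_nonneg_left hyb (abs_nonneg _)
    linarith
  have := norm_add_le (q ε ‖x‖ • (x - y)) ((q ε ‖x‖ - q ε ‖y‖) • y)
  linarith

/-- the squeezed map -/
noncomputable def fn (ε : ℝ) (g : HK E) (y : E) : E :=
  if ‖y‖ < 1 + ε then ga ε (g.1 (gb ε y)) else y

theorem norm_fn_lt {ε : ℝ} (hε : 0 < ε) (g : HK E) {y : E} (hy : ‖y‖ < 1 + ε) :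
    ‖fn ε g y‖ < 1 + ε := by
  unfold fn
  rw [if_pos hy]
  exact norm_ga_lt hε _

theorem fn_inv_fn {ε : ℝ} (hε : 0 < ε) (g : HK E) (y : E) : fn ε g⁻¹ (fn ε g y) = y := by
  by_cases hy : ‖y‖ < 1 + ε
  · have h1 := norm_fn_lt hε g hy
    have h2 : fn ε g y = ga ε (g.1 (gb ε y)) := if_pos hy
    have h3 : fn ε g⁻¹ (fn ε g y) = ga ε (g⁻¹.1 (gb ε (fn ε g y))) := if_pos h1
    rw [h3, h2, gb_ga hε]
    have h4 : g⁻¹.1 (g.1 (gb ε y)) = gb ε y := g.1.symm_apply_apply _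
    rw [h4, ga_gb hε hy]
  · have h2 : fn ε g y = y := if_neg hy
    rw [h2]
    exact if_neg hy

theorem continuous_fn {ε : ℝ} (hε : 0 < ε) (g : HK E) : Continuous (fn ε g) := by
  rw [continuous_iff_continuousAt]
  intro y
  by_cases hy : ‖y‖ < 1 + ε
  · have h1 : ContinuousAt (fun z => ga ε (g.1 (gb ε z))) y :=
      (continuous_ga ε).continuousAt.comp (g.1.continuous.continuousAt.comp (continuousAt_gb hε hy))
    refine h1.congr ?_
    have h2 : ∀ᶠ z in 𝓝 y, ‖z‖ < 1 + ε := continuous_norm.continuousAt.eventually_lt_const hy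
    filter_upwards [h2] with z hz
    exact (if_pos hz).symm
  · rw [not_lt] at hy
    obtain ⟨R, hR⟩ := HK.exists_Sp g
    set R' := max R 1 with hR'
    have hR1 : 1 ≤ R' := le_max_right _ _
    have hRR : R ≤ R' := le_max_left _ _
    refine continuousAt_id.congr ?_
    have hc : 1 + ε - ε / R' < ‖y‖ := by
      have : 0 < ε / R' := by positivity
      linarith
    have h2 : ∀ᶠ z in 𝓝 y, 1 + ε - ε / R' < ‖z‖ :=
      continuous_norm.continuousAt.eventually_const_lt hc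
    filter_upwards [h2] with z hz
    show z = fn ε g z
    by_cases hz1 : ‖z‖ < 1 + ε
    · have h3 : fn ε g z = ga ε (g.1 (gb ε z)) := if_pos hz1
      have h4 : 1 ≤ ‖z‖ := by
        have : ε / R' ≤ ε := div_le_self hε.le hR1
        linarith
      have h5 : R ≤ ‖gb ε z‖ := by
        refine hRR.trans ?_
        rw [norm_gb hε h4 hz1, le_div_iff₀ (by linarith)]
        have h6 : 1 + ε - ‖z‖ < ε / R' := by linarith
        rw [lt_div_iff₀ (by linarith)] at h6
        linarith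
      rw [h3, hR _ h5, ga_gb hε hz1]
    · exact (if_neg hz1).symm

end Sq

namespace HK

/-- the squeezed homeomorphism -/
noncomputable def sq (ε : ℝ) (hε : 0 < ε) (g : HK E) : HK E :=
  ⟨{ toFun := Sq.fn ε g
     invFun := Sq.fn ε g⁻¹
     left_inv := Sq.fn_inv_fn hε g
     right_inv := fun y => by
       have := Sq.fn_inv_fn hε g⁻¹ y
       rwa [inv_inv] at this
     continuous_toFun := Sq.continuous_fn hε g
     continuous_invFun := Sq.continuous_fn hε g⁻¹ },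
    1 + ε, fun _ hx => if_neg (not_lt.2 hx)⟩

theorem sq_apply {ε : ℝ} (hε : 0 < ε) (g : HK E) (x : E) : (sq ε hε g).1 x = Sq.fn ε g x := rfl

theorem sq_Sp {ε : ℝ} (hε : 0 < ε) (g : HK E) : sq ε hε g ∈ (Sp (1 + ε) : Set (HK E)) :=
  fun _ hx => if_neg (not_lt.2 hx)

theorem dist_sq_le {ε : ℝ} (hε : 0 < ε) (hε1 : ε ≤ 1) (g h : HK E) :
    dist (sq ε hε g) (sq ε hε h) ≤ 5 * dist g h := by
  rw [dist_le_iff (by positivity)]
  intro y
  rw [sq_apply, sq_apply]
  by_cases hy : ‖y‖ < 1 + ε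
  · have h2 : Sq.fn ε g y = Sq.ga ε (g.1 (Sq.gb ε y)) := if_pos hy
    have h3 : Sq.fn ε h y = Sq.ga ε (h.1 (Sq.gb ε y)) := if_pos hy
    rw [h2, h3]
    refine (Sq.lipschitz_ga hε hε1 _ _).trans ?_
    have := norm_sub_le_dist g h (Sq.gb ε y)
    linarith
  · have h2 : Sq.fn ε g y = y := if_neg hy
    have h3 : Sq.fn ε h y = y := if_neg hy
    rw [h2, h3, sub_self, norm_zero]
    positivity

theorem continuous_sq {ε : ℝ} (hε : 0 < ε) (hε1 : ε ≤ 1) :
    Continuous (sq ε hε : HK E → HK E) :=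
  (LipschitzWith.of_dist_le_mul (K := 5) fun g h => by
    have := dist_sq_le hε hε1 g h
    simpa using this).continuous

theorem sq_eq {ε : ℝ} (hε : 0 < ε) {g : HK E} (hg : g ∈ (Sp 1 : Set (HK E))) :
    sq ε hε g = g := by
  ext y
  rw [sq_apply]
  by_cases hy : ‖y‖ < 1 + ε
  · have h2 : Sq.fn ε g y = Sq.ga ε (g.1 (Sq.gb ε y)) := if_pos hy
    rw [h2]
    rcases le_total ‖y‖ 1 with h1 | h1
    · rw [Sq.gb_of_le hε h1]
      have h3 : ‖g.1 y‖ ≤ 1 := by
        by_contra hcon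
        have h4 := hg (g.1 y) (not_le.1 hcon).le
        have h5 := g.1.injective h4
        rw [h5] at hcon
        exact hcon h1
      rw [Sq.ga_of_le h3]
    · rw [hg _ (Sq.one_le_norm_gb hε h1 hy), Sq.ga_gb hε hy, hg y h1]
  · have h2 : Sq.fn ε g y = y := if_neg hy
    rw [h2]
    rw [not_lt] at hy
    exact (hg y (by linarith)).symm

end HK

end Pool.Agent.H662.HM
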