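import Pool.Agent.H662.HM.HKx
import Pool.Agent.H662.HM.Squeeze

/-!
# From approximations with relative error less than one to extensions
-/

set_option autoImplicit false
set_option linter.unusedSectionVars false

open Set Topology Filter
open scoped BoundedContinuousFunction ContDiff

namespace Pool.Agent.H662.HM

universe u v

/-- sets on which the map extends, with good values, are thin -/
theorem Con.Thin.of_extends' {G : Type*} [Group G] [TopologicalSpace G] [IsTopologicalGroup G]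
    (κ : Con G) (D : ℝ → Set G) {Y : Type*} [TopologicalSpace Y] {A : Set Y} {f : A → G}
    (P : Set A) (h : ∀ ε > 0, ∃ F : Y → G, Continuous F ∧ (∀ a ∈ P, F a = f a) ∧
      (∀ a : A, κ.dL (F a) (f a) ≤ 0) ∧ ∀ y, F y ∈ D ε) : κ.Thin D f P := by
  intro ε hε
  obtain ⟨F, hF, _, hFd, hFD⟩ := h ε hε
  refine ⟨fun _ => univ, fun _ => F, fun _ => 0, fun _ => isOpen_univ,
    fun _ => hF.continuousOn, fun _ => le_rfl, summable_zero, by simpa using hε.le,
    fun _ a _ => hFd a, fun a _ => ⟨0, mem_univ _⟩, fun _ y _ => hFD y⟩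

namespace HK

variable {E : Type*} [NormedAddCommGroup E] [NormedSpace ℝ E]

theorem mono_Sp : Monotone (fun ε : ℝ => (Sp (1 + ε) : Set (HK E))) :=
  fun _ _ h => Sp_mono (by linarith)

variable [FiniteDimensional ℝ E]

theorem compressSp {Y : Type*} [TopologicalSpace Y] (A : Set Y)
    (F : Y → HK E) (hF : Continuous F)
    (θ : Y → ℝ) (hθ : Continuous θ) (hθA : ∀ y ∈ A, θ y = 0) (hθA' : ∀ y, y ∉ A → 0 < θ y)
    (hF0 : ∀ y, y ∉ A → F y ∈ HK.Sp (1 + (1 / 2) ^ 0))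
    (hFM : ∀ y, y ∉ A → ∀ M : ℕ, θ y < (1 / 2) ^ M → F y ∈ HK.Sp (1 + (1 / 2) ^ M)) :
    ∃ F' : Y → HK E, Continuous F' ∧ (∀ y ∈ A, F' y = F y) ∧ ∀ y, y ∉ A → F' y ∈ HK.Sp 1 := by
  set ρ : Y → ℝ := fun y => min 1 (2 * θ y) with hρ
  have hρc : Continuous ρ := continuous_const.min (continuous_const.mul hθ)
  have hθ0 : ∀ y, 0 ≤ θ y := fun y => by
    by_cases hy : y ∈ A
    · rw [hθA y hy]
    · exact (hθA' y hy).le
  have hρ0 : ∀ y, 0 ≤ ρ y := fun y => le_min zero_le_one (by have := hθ0 y; positivity)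
  have hs1 : ∀ k : ℕ, ((1 : ℝ) / 2) ^ k ≤ 1 := fun k => pow_le_one₀ (by norm_num) (by norm_num)
  have hρS : ∀ y, y ∉ A → F y ∈ HK.Sp (1 + ρ y) := by
    intro y hy
    by_cases h1 : 1 / 2 ≤ θ y
    · have h2 : ρ y = 1 := min_eq_left (by linarith)
      have h3 := hF0 y hy
      rw [h2]
      rwa [pow_zero] at h3
    · rw [not_le] at h1
      obtain ⟨M, hM1, hM2⟩ := exists_nat_pow_near_of_lt_one (hθA' y hy)
        (by linarith : θ y ≤ 1) (show (0 : ℝ) < 1 / 2 by norm_num) (by norm_num)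
      rcases hM2.lt_or_eq with h2 | h2
      · refine HK.Sp_mono ?_ (hFM y hy M h2)
        have h3 : (1 / 2 : ℝ) ^ M ≤ 2 * θ y := by
          rw [pow_succ] at hM1
          linarith
        have h4 := hs1 M
        have h5 : (1 / 2 : ℝ) ^ M ≤ ρ y := le_min h4 h3
        linarith
      · cases M with
        | zero => rw [pow_zero] at h2; linarith
        | succ M =>
          have h3 : θ y < (1 / 2) ^ M := by
            rw [h2]
            exact pow_lt_pow_right_of_lt_one₀ (by norm_num) (by norm_num) (Nat.lt_succ_self M)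
          refine HK.Sp_mono ?_ (hFM y hy M h3)
          have h4 : (1 / 2 : ℝ) ^ M ≤ 2 * θ y := by
            rw [h2, pow_succ]
            linarith
          have h5 : (1 / 2 : ℝ) ^ M ≤ ρ y := le_min (hs1 M) h4
          linarith
  refine ⟨fun y => HK.con (1 / (1 + ρ y)) (F y), ?_, ?_, ?_⟩
  · have h1 : Continuous (fun y => ((1 / (1 + ρ y), F y) : ℝ × HK E)) := by
      refine Continuous.prodMk ?_ hF
      refine continuous_const.div (continuous_const.add hρc) (fun y => ?_)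
      have := hρ0 y
      positivity
    exact HK.continuous_con.comp h1
  · intro a ha
    have h1 : ρ a = 0 := by
      simp only [hρ]
      rw [hθA a ha, mul_zero]
      exact min_eq_right zero_le_one
    simp only [h1, add_zero, div_one]
    rw [HK.con_of_one_le le_rfl]
  · intro y hy
    have h1 := hρ0 y
    have h2 := HK.Sp_con' (hρS y hy) (t := 1 / (1 + ρ y)) (by positivity)
      (by rw [div_le_one (by positivity)]; linarith)
    rwa [one_div_mul_cancel (by positivity)] at h2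

/-- from extensions with bounded supports to extensions supported in the ball -/
theorem ext_Sp {Y : Type*} [TopologicalSpace Y] [TopologicalSpace.MetrizableSpace Y]
    {A : Set Y} (hA : IsClosed A) {f : A → HK E} (hf : Continuous f)
    (hf1 : ∀ a, f a ∈ (Sp 1 : Set (HK E)))
    (h : ∃ F : Y → HK E, Continuous F ∧ ∀ a : A, F a = f a) :
    ∃ F : Y → HK E, Continuous F ∧ (∀ a : A, F a = f a) ∧ ∀ y, F y ∈ (Sp 1 : Set (HK E)) := by
  obtain ⟨F₀, hF₀, hF₀A⟩ := h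
  have hthin : (kap (E := E)).Thin (fun ε => Sp (1 + ε)) f univ := by
    refine Con.Thin.of_extends' _ _ _ fun ε hε => ?_
    have hε' : 0 < min ε 1 := lt_min hε one_pos
    have h1 : ∀ a : A, sq (min ε 1) hε' (F₀ a) = f a := by
      intro a
      rw [hF₀A a]
      exact sq_eq hε' (hf1 a)
    refine ⟨fun y => sq (min ε 1) hε' (F₀ y),
      (continuous_sq hε' (min_le_right _ _)).comp hF₀, fun a _ => h1 a, fun a => ?_,
      fun y => Sp_mono (by have := min_le_left ε 1; linarith) (sq_Sp hε' (F₀ y))⟩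
    simp only [h1 a]
    rw [Con.dL_self]
  obtain ⟨F, θ, hF, hθ, hθA, hθA', hFA, hFD, hFM⟩ := Con.Thin.ext _ mono_Sp
    (fun ε _ => Sp_cx _) hA hf hthin
  obtain ⟨F', hF', hFA', hFS⟩ := compressSp A F hF θ hθ hθA hθA' hFD hFM
  have h1 : ∀ a : A, F' a = f a := fun a => by rw [hFA' a a.2, hFA]
  refine ⟨F', hF', h1, fun y => ?_⟩
  by_cases hy : y ∈ A
  · have h2 := h1 ⟨y, hy⟩
    simp only at h2
    rw [h2]
    exact hf1 _
  · exact hFS y hy

/-- one step of the approximation -/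
theorem step (E : Type u) [NormedAddCommGroup E] [NormedSpace ℝ E] [FiniteDimensional ℝ E]
    {κ : ℝ} (φ : {h : HK E // N h ≤ 1} → HK E) (hφ : Continuous φ)
    (hφS : ∀ h, φ h ∈ (Sm : Set (HK E))) (hφd : ∀ h, dist (φ h) h.1 ≤ κ)
    (Y : Type v) [TopologicalSpace Y] [TopologicalSpace.MetrizableSpace Y]
    (B : Set Y) (hB : IsClosed B) (k : B → HK E) (hk : Continuous k) {δ : ℝ} (hδ : 0 < δ)
    (hkN : ∀ b, N (k b) ≤ δ) :
    ∃ G : Y → HK E, Continuous G ∧ ∀ b : B, N ((G b)⁻¹ * k b) ≤ κ * δ := by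
  have hδ' : 0 < δ⁻¹ := by positivity
  have h1 : ∀ b, N (sc δ⁻¹ (k b)⁻¹) ≤ 1 := by
    intro b
    have h2 := N_sc hδ' (k b)⁻¹
    rw [N_inv] at h2
    have h3 := hkN b
    have h4 : δ⁻¹ * N (k b) ≤ 1 := by
      rw [inv_mul_le_iff₀ hδ, mul_one]
      exact h3
    linarith
  obtain ⟨G, hG, hGB⟩ := ext_smooth.{u, v} E Y B hB
    (fun b => sc δ (φ ⟨sc δ⁻¹ (k b)⁻¹, h1 b⟩))
    ((continuous_sc hδ).comp (hφ.comp (((continuous_sc hδ').comp hk.inv).subtype_mk _)))
    (fun b => Sm_sc (hφS _) _)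
  refine ⟨fun y => (G y)⁻¹, hG.inv, fun b => ?_⟩
  rw [inv_inv, hGB b]
  have h2 : k b = (sc δ (sc δ⁻¹ (k b)⁻¹))⁻¹ := by
    rw [sc_sc hδ hδ', mul_inv_cancel₀ hδ.ne', sc_one, inv_inv]
  have h3 : N (sc δ (φ ⟨sc δ⁻¹ (k b)⁻¹, h1 b⟩) * k b) =
      dist (sc δ (φ ⟨sc δ⁻¹ (k b)⁻¹, h1 b⟩)) (sc δ (sc δ⁻¹ (k b)⁻¹)) := by
    rw [dist_eq_N, ← h2]
  show N (sc δ (φ ⟨sc δ⁻¹ (k b)⁻¹, h1 b⟩) * k b) ≤ _
  rw [h3]
  refine (dist_sc hδ _ _).trans ?_
  have h4 := hφd ⟨sc δ⁻¹ (k b)⁻¹, h1 b⟩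
  nlinarith

theorem iterate (E : Type u) [NormedAddCommGroup E] [NormedSpace ℝ E] [FiniteDimensional ℝ E]
    {κ : ℝ} (hκ : 0 < κ) (φ : {h : HK E // N h ≤ 1} → HK E) (hφ : Continuous φ)
    (hφS : ∀ h, φ h ∈ (Sm : Set (HK E))) (hφd : ∀ h, dist (φ h) h.1 ≤ κ)
    (Y : Type v) [TopologicalSpace Y] [TopologicalSpace.MetrizableSpace Y]
    (B : Set Y) (hB : IsClosed B) (k : B → HK E) (hk : Continuous k) {δ : ℝ} (hδ : 0 < δ)
    (hkN : ∀ b, N (k b) ≤ δ) (m : ℕ) :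
    ∃ G : Y → HK E, Continuous G ∧ ∀ b : B, N ((G b)⁻¹ * k b) ≤ κ ^ m * δ := by
  induction m with
  | zero =>
    refine ⟨fun _ => 1, continuous_const, fun b => ?_⟩
    rw [inv_one, one_mul, pow_zero, one_mul]
    exact hkN b
  | succ m ih =>
    obtain ⟨F, hF, hFN⟩ := ih
    obtain ⟨G, hG, hGN⟩ := step E φ hφ hφS hφd Y B hB (fun b => (F b)⁻¹ * k b)
      ((hF.comp continuous_subtype_val).inv.mul hk) (show 0 < κ ^ m * δ by positivity) hFN
    refine ⟨fun y => F y * G y, hF.mul hG, fun b => ?_⟩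
    have h2 := hGN b
    rw [mul_inv_rev, mul_assoc]
    refine h2.trans ?_
    rw [pow_succ]
    nlinarith

/-- all maps extend -/
theorem ext_all (E : Type u) [NormedAddCommGroup E] [NormedSpace ℝ E] [FiniteDimensional ℝ E]
    {κ : ℝ} (hκ : κ < 1) (φ : {h : HK E // N h ≤ 1} → HK E) (hφ : Continuous φ)
    (hφS : ∀ h, φ h ∈ (Sm : Set (HK E))) (hφd : ∀ h, dist (φ h) h.1 ≤ κ)
    (Y : Type v) [TopologicalSpace Y] [TopologicalSpace.MetrizableSpace Y]
    (A : Set Y) (hA : IsClosed A) (f : A → HK E) (hf : Continuous f) :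
    ∃ F : Y → HK E, Continuous F ∧ ∀ a : A, F a = f a := by
  obtain ⟨κ', hκ1, hκ2⟩ := exists_between (max_lt hκ (one_pos : (0 : ℝ) < 1))
  have hκ0 : 0 < κ' := (le_max_right _ _).trans_lt hκ1
  have hκκ : κ ≤ κ' := (le_max_left _ _).trans hκ1.le
  have hmono : Monotone (fun _ : ℝ => (univ : Set (HK E))) := fun _ _ _ => le_rfl
  have hNc : Continuous (fun a => N (f a)) := (kap (E := E)).continuous_N.comp hf
  have hP : ⋃ j : ℕ, {a | N (f a) ≤ (j : ℝ) + 1} = univ := by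
    ext a
    simp only [mem_iUnion, mem_univ, iff_true]
    obtain ⟨j, hj⟩ := exists_nat_gt (N (f a))
    refine ⟨j, ?_⟩
    show N (f a) ≤ (j : ℝ) + 1
    linarith
  have hthin : (kap (E := E)).Thin (fun _ => univ) f univ := by
    rw [← hP]
    refine Con.Thin.iUnion _ hmono fun j => ?_
    refine Con.Thin.of_approx _ _ hf _ fun ε hε => ?_
    have hj : (0 : ℝ) < (j : ℝ) + 1 := by positivity
    obtain ⟨m, hm⟩ := exists_pow_lt_of_lt_one (show 0 < ε / ((j : ℝ) + 1) by positivity) hκ2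
    set P : Set A := {a | N (f a) ≤ (j : ℝ) + 1} with hPdef
    have hPc : IsClosed P := isClosed_le hNc continuous_const
    set B : Set Y := Subtype.val '' P with hB
    have hBc : IsClosed B := hA.isClosedEmbedding_subtypeVal.isClosedMap _ hPc
    have hmemA : ∀ y ∈ B, y ∈ A := by
      rintro _ ⟨a, _, rfl⟩
      exact a.2
    have hmemP : ∀ y (hy : y ∈ B), (⟨y, hmemA y hy⟩ : A) ∈ P := by
      rintro _ ⟨a, ha, rfl⟩
      exact ha
    obtain ⟨G, hG, hGN⟩ := iterate E hκ0 φ hφ hφS (fun h => (hφd h).trans hκκ) Y B hBc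
      (fun b => f ⟨b, hmemA b b.2⟩) (hf.comp (continuous_subtype_val.subtype_mk _)) hj
      (fun b => hmemP b b.2) m
    refine ⟨G, hG, fun a ha => ?_, fun _ _ _ => mem_univ _⟩
    have h1 := hGN ⟨a, ⟨a, ha, rfl⟩⟩
    rw [lt_div_iff₀ hj] at hm
    exact h1.trans_lt hm
  obtain ⟨F, θ, hF, _, _, _, hFA, _, _⟩ := Con.Thin.ext _ hmono (fun _ _ => univ_cx) hA hf hthin
  exact ⟨F, hF, hFA⟩

/-- density of the smooth elements -/
theorem dense_of (E : Type u) [NormedAddCommGroup E] [NormedSpace ℝ E] [FiniteDimensional ℝ E]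
    {κ : ℝ} (hκ : κ < 1) (φ : {h : HK E // N h ≤ 1} → HK E)
    (hφS : ∀ h, φ h ∈ (Sm : Set (HK E))) (hφd : ∀ h, dist (φ h) h.1 ≤ κ)
    (h : HK E) {ε : ℝ} (hε : 0 < ε) : ∃ g ∈ (Sm : Set (HK E)), dist g h ≤ ε := by
  obtain ⟨κ', hκ1, hκ2⟩ := exists_between (max_lt hκ (one_pos : (0 : ℝ) < 1))
  have hκ0 : 0 < κ' := (le_max_right _ _).trans_lt hκ1
  have hκκ : κ ≤ κ' := (le_max_left _ _).trans hκ1.le
  set δ := N h + 1 with hδ
  have hδ0 : 0 < δ := by have := N_nonneg h; positivity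
  have key : ∀ m : ℕ, ∃ F ∈ (Sm : Set (HK E)), N (h * F⁻¹) ≤ κ' ^ m * δ := by
    intro m
    induction m with
    | zero =>
      refine ⟨1, Sm_one, ?_⟩
      rw [inv_one, mul_one, pow_zero, one_mul]
      linarith
    | succ m ih =>
      obtain ⟨F, hF, hFN⟩ := ih
      set d := κ' ^ m * δ with hd
      have hd0 : 0 < d := by positivity
      have hd0' : 0 < d⁻¹ := by positivity
      have h1 : N (sc d⁻¹ (h * F⁻¹)) ≤ 1 := by
        refine (N_sc hd0' _).trans ?_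
        rw [inv_mul_le_iff₀ hd0, mul_one]
        exact hFN
      refine ⟨sc d (φ ⟨_, h1⟩) * F, Sm_mul (Sm_sc (hφS _) _) hF, ?_⟩
      have h2 : sc d (sc d⁻¹ (h * F⁻¹)) = h * F⁻¹ := by
        rw [sc_sc hd0 hd0', mul_inv_cancel₀ hd0.ne', sc_one]
      have h3 : N (h * (sc d (φ ⟨_, h1⟩) * F)⁻¹) = dist (h * F⁻¹) (sc d (φ ⟨_, h1⟩)) := by
        rw [dist_eq_N, mul_inv_rev, mul_assoc]
      have h7 : dist (h * F⁻¹) (sc d (φ ⟨_, h1⟩)) =
          dist (sc d (φ ⟨_, h1⟩)) (sc d (sc d⁻¹ (h * F⁻¹))) := by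
        rw [h2, dist_comm]
      rw [h3, h7]
      refine (dist_sc hd0 _ _).trans ?_
      have h4 := hφd ⟨_, h1⟩
      rw [pow_succ]
      have h5 : κ' ^ m * κ' * δ = κ' * d := by rw [hd]; ring
      rw [h5]
      have h6 := h4.trans hκκ
      nlinarith
  obtain ⟨m, hm⟩ := exists_pow_lt_of_lt_one (show 0 < ε / δ by positivity) hκ2
  obtain ⟨F, hF, hFN⟩ := key m
  refine ⟨F, hF, ?_⟩
  rw [dist_comm, dist_eq_N]
  rw [lt_div_iff₀ hδ0] at hm
  exact hFN.trans hm.le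

end HK

end Pool.Agent.H662.HM
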