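import Pool.Agent.H662.HM.Thin
import Pool.Agent.H662.HM.Ball

/-!
# Extension of maps which are good on countably many pieces
-/

set_option autoImplicit false
set_option linter.unusedSectionVars false

open Set Topology Filter
open scoped BoundedContinuousFunction ContDiff

namespace Pool.Agent.H662.HM

universe u v

namespace HG

variable {E : Type*} [NormedAddCommGroup E] [NormedSpace ℝ E]

/-- the elements supported in the ball of radius `r` -/
def Sp (r : ℝ) : Set (HG E) := {h | ∀ x, r ≤ ‖x‖ → h.1 x = x}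

theorem Sp_one (r : ℝ) : (1 : HG E) ∈ Sp r := fun _ _ => rfl

theorem Sp_mul {r : ℝ} {g h : HG E} (hg : g ∈ Sp r) (hh : h ∈ Sp r) : g * h ∈ Sp r := by
  intro x hx
  show g.1 (h.1 x) = x
  rw [hh x hx, hg x hx]

theorem Sp_inv {r : ℝ} {g : HG E} (hg : g ∈ Sp r) : g⁻¹ ∈ Sp r := by
  intro x hx
  show g.1.symm x = x
  rw [Homeomorph.symm_apply_eq]
  exact (hg x hx).symm

theorem Sp_con {r : ℝ} {g : HG E} (hg : g ∈ Sp r) (t : ℝ) : con t g ∈ Sp r := by
  intro x hx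
  by_cases ht : 0 < t
  · rw [con_apply ht]
    have hs : 0 < min t 1 := lt_min ht one_pos
    rw [hg, smul_inv_smul₀ hs.ne']
    rw [norm_smul, norm_inv, Real.norm_of_nonneg hs.le]
    have h1 : 1 ≤ (min t 1)⁻¹ := (one_le_inv₀ hs).2 (min_le_right _ _)
    nlinarith [norm_nonneg x]
  · rw [con_of_nonpos (not_lt.1 ht)]
    rfl

theorem Sp_con' {r t : ℝ} {g : HG E} (hg : g ∈ Sp r) (ht : 0 < t) (ht1 : t ≤ 1) :
    con t g ∈ Sp (t * r) := by
  intro x hx
  rw [con_apply ht, min_eq_left ht1]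
  rw [hg, smul_inv_smul₀ ht.ne']
  rw [norm_smul, norm_inv, Real.norm_of_nonneg ht.le]
  rw [inv_mul_eq_div, le_div_iff₀ ht]
  linarith

theorem Sp_mono {r r' : ℝ} (h : r ≤ r') : (Sp r : Set (HG E)) ⊆ Sp r' :=
  fun _ hg x hx => hg x (h.trans hx)

theorem Sp_cx [FiniteDimensional ℝ E] (r : ℝ) : (kap (E := E)).Cx (Sp r) where
  one := Sp_one r
  lam := fun _ hx _ hy t => Sp_mul hx (Sp_con (Sp_mul (Sp_inv hx) hy) t)

theorem Sm_Sp {r : ℝ} {g : HG E} (hg : g ∈ Sm r) : g ∈ Sp r := hg.2.2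

theorem mono_Sp : Monotone (fun ε : ℝ => (Sp (1 + ε) : Set (HG E))) :=
  fun _ _ h => Sp_mono (by linarith)

theorem compressSp [FiniteDimensional ℝ E] {Y : Type*} [TopologicalSpace Y] (A : Set Y)
    (F : Y → HG E) (hF : Continuous F)
    (θ : Y → ℝ) (hθ : Continuous θ) (hθA : ∀ y ∈ A, θ y = 0) (hθA' : ∀ y, y ∉ A → 0 < θ y)
    (hF0 : ∀ y, y ∉ A → F y ∈ HG.Sp (1 + (1 / 2) ^ 0))
    (hFM : ∀ y, y ∉ A → ∀ M : ℕ, θ y < (1 / 2) ^ M → F y ∈ HG.Sp (1 + (1 / 2) ^ M)) :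
    ∃ F' : Y → HG E, Continuous F' ∧ (∀ y ∈ A, F' y = F y) ∧ ∀ y, y ∉ A → F' y ∈ HG.Sp 1 := by
  set ρ : Y → ℝ := fun y => min 1 (2 * θ y) with hρ
  have hρc : Continuous ρ := continuous_const.min (continuous_const.mul hθ)
  have hθ0 : ∀ y, 0 ≤ θ y := fun y => by
    by_cases hy : y ∈ A
    · rw [hθA y hy]
    · exact (hθA' y hy).le
  have hρ0 : ∀ y, 0 ≤ ρ y := fun y => le_min zero_le_one (by have := hθ0 y; positivity)
  have hs1 : ∀ k : ℕ, ((1 : ℝ) / 2) ^ k ≤ 1 := fun k => pow_le_one₀ (by norm_num) (by norm_num)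
  have hρS : ∀ y, y ∉ A → F y ∈ HG.Sp (1 + ρ y) := by
    intro y hy
    by_cases h1 : 1 / 2 ≤ θ y
    · have h2 : ρ y = 1 := min_eq_left (by linarith)
      have h3 := hF0 y hy
      rw [h2]
      rwa [pow_zero] at h3
    · rw [not_le] at h1
      obtain ⟨M, hM1, hM2⟩ := exists_nat_pow_near_of_lt_one (hθA' y hy)
        (by linarith : θ y ≤ 1) (show (0 : ℝ) < 1 / 2 by norm_num) (by norm_num)
      rcases hM2.lt_or_eq with h2 | h2
      · refine HG.Sp_mono ?_ (hFM y hy M h2)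
        have h3 : (1 / 2 : ℝ) ^ M ≤ 2 * θ y := by
          rw [pow_succ] at hM1
          linarith
        have h4 := hs1 M
        have h5 : (1 / 2 : ℝ) ^ M ≤ ρ y := le_min h4 h3
        linarith
      · cases M with
        | zero => rw [pow_zero] at h2; linarith
        | succ M =>
          have h3 : θ y < (1 / 2) ^ M := by
            rw [h2]
            exact pow_lt_pow_right_of_lt_one₀ (by norm_num) (by norm_num) (Nat.lt_succ_self M)
          refine HG.Sp_mono ?_ (hFM y hy M h3)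
          have h4 : (1 / 2 : ℝ) ^ M ≤ 2 * θ y := by
            rw [h2, pow_succ]
            linarith
          have h5 : (1 / 2 : ℝ) ^ M ≤ ρ y := le_min (hs1 M) h4
          linarith
  refine ⟨fun y => HG.con (1 / (1 + ρ y)) (F y), ?_, ?_, ?_⟩
  · have h1 : Continuous (fun y => ((1 / (1 + ρ y), F y) : ℝ × HG E)) := by
      refine Continuous.prodMk ?_ hF
      refine continuous_const.div (continuous_const.add hρc) (fun y => ?_)
      have := hρ0 y
      positivity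
    exact HG.continuous_con.comp h1
  · intro a ha
    have h1 : ρ a = 0 := by
      simp only [hρ]
      rw [hθA a ha, mul_zero]
      exact min_eq_right zero_le_one
    simp only [h1, add_zero, div_one]
    rw [HG.con_of_one_le le_rfl]
  · intro y hy
    have h1 := hρ0 y
    have h2 := HG.Sp_con' (hρS y hy) (t := 1 / (1 + ρ y)) (by positivity)
      (by rw [div_le_one (by positivity)]; linarith)
    rwa [one_div_mul_cancel (by positivity)] at h2

end HG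

section

variable {E : Type*} [NormedAddCommGroup E] [NormedSpace ℝ E] [FiniteDimensional ℝ E]
  [MeasurableSpace E] [BorelSpace E]

theorem thin_of_W {η : ℝ}
    (hη : ∀ (h : HG E) (s : ℝ), 0 < s → NearAffine η s h.1 →
      HG.disp h ∈ Us s ∧ ∀ x, ‖h⁻¹.1 (x + T s (HG.disp h) x) - x‖ ≤ s / 8)
    {Y : Type*} [TopologicalSpace Y] [TopologicalSpace.MetrizableSpace Y]
    {A : Set Y} (hA : IsClosed A) {f : A → HG E} (hf : Continuous f) (g : HG E)
    (hg1 : g ∈ HG.Sp 1) (hf1 : ∀ a x, 1 ≤ ‖x‖ → (g⁻¹ * f a).1 x = x) (P : Set A)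
    (hP : ∀ a ∈ P, ∀ ε > 0, ∃ s, 0 < s ∧ s < ε ∧ NearAffine (η / 2) s (g⁻¹ * f a).1) :
    (HG.kap (E := E)).Thin (fun ε => HG.Sp (1 + ε)) f P := by
  have hmem : ∀ a, HG.disp (g⁻¹ * f a) ∈ Cs E := by
    intro a x hx
    rw [HG.disp_apply, hf1 a x hx, sub_self]
  have hw : Continuous (fun a => g⁻¹ * f a) := continuous_const.mul hf
  obtain ⟨U, hU, hUf⟩ := dugundji A hA (fun a => (⟨HG.disp (g⁻¹ * f a), hmem a⟩ : Cs E))
    ((HG.continuous_disp.comp hw).subtype_mk _)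
  have hs0 : ∀ k : ℕ, (0 : ℝ) < (1 / 2) ^ k := fun k => by positivity
  have hs1 : ∀ k : ℕ, ((1 : ℝ) / 2) ^ k ≤ 1 := fun k => pow_le_one₀ (by norm_num) (by norm_num)
  have hc : ∀ k : ℕ, ContinuousOn (fun y => g * op ((1 / 2) ^ k) (U y : E →ᵇ E))
      (U ⁻¹' {v : Cs E | (v : E →ᵇ E) ∈ Us ((1 / 2) ^ k)}) := fun k =>
    continuousOn_const.mul ((continuousOn_op (hs0 k) (hs1 k)).comp hU.continuousOn
      (fun y hy => hy))
  have hD : ∀ ε > 0, ∃ K : ℕ, ∀ k, K ≤ k →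
      ∀ y ∈ U ⁻¹' {v : Cs E | (v : E →ᵇ E) ∈ Us ((1 / 2) ^ k)},
      g * op ((1 / 2) ^ k) (U y : E →ᵇ E) ∈ HG.Sp (1 + ε) := by
    intro ε hε
    obtain ⟨n, hn⟩ := exists_pow_lt_of_lt_one hε (by norm_num : (1 / 2 : ℝ) < 1)
    refine ⟨n, fun k hk y hy => ?_⟩
    have h1 : (1 / 2 : ℝ) ^ k ≤ (1 / 2) ^ n := pow_le_pow_of_le_one (by norm_num) (by norm_num) hk
    exact HG.Sp_mul (HG.Sp_mono (by linarith) hg1)
      (HG.Sp_mono (by linarith) (HG.Sm_Sp (op_spec (hs0 k) (hs1 k) hy (U y).2).2))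
  refine Con.Thin.of_op (HG.kap (E := E)) (fun ε => HG.Sp (1 + ε)) hf
    (fun k => U ⁻¹' {v : Cs E | (v : E →ᵇ E) ∈ Us ((1 / 2) ^ k)})
    (fun k => ((isOpen_Us (hs0 k)).preimage continuous_subtype_val).preimage hU)
    (fun k y => g * op ((1 / 2) ^ k) (U y : E →ᵇ E)) hc (fun k => (1 / 2) ^ k)
    (fun k => (hs0 k).le) (summable_geometric_of_lt_one (by norm_num) (by norm_num)) P ?_ hD
  intro a ha K
  obtain ⟨t, ht0, htε, htA⟩ := hP a ha ((1 / 2) ^ K) (by positivity)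
  obtain ⟨k, hk, hkA⟩ := exists_scale ht0 htε le_rfl htA
  have hUa : (U a : E →ᵇ E) = HG.disp (g⁻¹ * f a) := congrArg Subtype.val (hUf a)
  refine ⟨k, hk, ?_, ?_⟩
  · show (U a : E →ᵇ E) ∈ Us ((1 / 2) ^ k)
    rw [hUa]
    exact (hη _ _ (hs0 k) hkA).1
  · have h8 := dL_op hη (hs0 k) (hs1 k) (hf1 a) hkA
    show HG.N ((g * op ((1 / 2) ^ k) (U a : E →ᵇ E))⁻¹ * f a) < (1 / 2) ^ k
    rw [hUa, mul_inv_rev, mul_assoc]
    have h9 := hs0 k
    linarith

theorem thin_of_W1 {η : ℝ}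
    (hη : ∀ (h : HG E) (s : ℝ), 0 < s → NearAffine η s h.1 →
      HG.disp h ∈ Us s ∧ ∀ x, ‖h⁻¹.1 (x + T s (HG.disp h) x) - x‖ ≤ s / 8)
    {Y : Type*} [TopologicalSpace Y] [TopologicalSpace.MetrizableSpace Y]
    {A : Set Y} (hA : IsClosed A) {f : A → HG E} (hf : Continuous f) (g g' : HG E)
    (hg1 : g ∈ HG.Sp 1) (hg1' : g' ∈ HG.Sp 1) (hf1 : ∀ a x, 1 ≤ ‖x‖ → (g⁻¹ * f a * g'⁻¹).1 x = x) (P : Set A)
    (hP : ∀ a ∈ P, ∃ t > 0, ∀ s, 0 < s → s < t → NearAffine η s (g⁻¹ * f a * g'⁻¹).1) :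
    (HG.kap (E := E)).Thin (fun ε => HG.Sp (1 + ε)) f P := by
  have hmem : ∀ a, HG.disp (g⁻¹ * f a * g'⁻¹) ∈ Cs E := by
    intro a x hx
    rw [HG.disp_apply, hf1 a x hx, sub_self]
  have hw : Continuous (fun a => g⁻¹ * f a * g'⁻¹) := (continuous_const.mul hf).mul continuous_const
  obtain ⟨U, hU, hUf⟩ := dugundji A hA (fun a => (⟨HG.disp (g⁻¹ * f a * g'⁻¹), hmem a⟩ : Cs E))
    ((HG.continuous_disp.comp hw).subtype_mk _)
  -- the scales
  have hδ : ∀ i : ℕ, ∃ δ > 0, ∀ k : HG E, HG.N k < δ → HG.N (g'⁻¹ * k * g') < (1 / 2) ^ i := by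
    intro i
    have h1 : Continuous (fun k : HG E => g'⁻¹ * k * g') :=
      (continuous_const.mul continuous_id).mul continuous_const
    have h2 := Metric.continuousAt_iff.1 (h1.continuousAt (x := (1 : HG E))) ((1 / 2) ^ i)
      (by positivity)
    obtain ⟨δ, hδ, h3⟩ := h2
    refine ⟨δ, hδ, fun k hk => ?_⟩
    have h4 := h3 (x := k) hk
    simp only [mul_one, inv_mul_cancel] at h4
    exact h4
  choose δ hδ0 hδ' using hδ
  set s : ℕ → ℝ := fun i => min ((1 / 2) ^ i) (δ i) with hs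
  have hs0 : ∀ i, 0 < s i := fun i => lt_min (by positivity) (hδ0 i)
  have hs1 : ∀ i, s i ≤ 1 := fun i =>
    (min_le_left _ _).trans (pow_le_one₀ (by norm_num) (by norm_num))
  have hc : ∀ i : ℕ, ContinuousOn (fun y => g * op (s i) (U y : E →ᵇ E) * g')
      (U ⁻¹' {v : Cs E | (v : E →ᵇ E) ∈ Us (s i)}) := fun i =>
    (continuousOn_const.mul ((continuousOn_op (hs0 i) (hs1 i)).comp hU.continuousOn
      (fun y hy => hy))).mul continuousOn_const
  have hD : ∀ ε > 0, ∃ K : ℕ, ∀ k, K ≤ k → ∀ y ∈ U ⁻¹' {v : Cs E | (v : E →ᵇ E) ∈ Us (s k)},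
      g * op (s k) (U y : E →ᵇ E) * g' ∈ HG.Sp (1 + ε) := by
    intro ε hε
    obtain ⟨n, hn⟩ := exists_pow_lt_of_lt_one hε (by norm_num : (1 / 2 : ℝ) < 1)
    refine ⟨n, fun k hk y hy => ?_⟩
    have h1 : (1 / 2 : ℝ) ^ k ≤ (1 / 2) ^ n := pow_le_pow_of_le_one (by norm_num) (by norm_num) hk
    have h2 : s k ≤ (1 / 2) ^ k := min_le_left _ _
    exact HG.Sp_mul (HG.Sp_mul (HG.Sp_mono (by linarith) hg1)
      (HG.Sp_mono (by linarith) (HG.Sm_Sp (op_spec (hs0 k) (hs1 k) hy (U y).2).2)))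
      (HG.Sp_mono (by linarith) hg1')
  refine Con.Thin.of_op (HG.kap (E := E)) (fun ε => HG.Sp (1 + ε)) hf
    (fun i => U ⁻¹' {v : Cs E | (v : E →ᵇ E) ∈ Us (s i)})
    (fun i => ((isOpen_Us (hs0 i)).preimage continuous_subtype_val).preimage hU)
    (fun i y => g * op (s i) (U y : E →ᵇ E) * g') hc (fun i => (1 / 2) ^ i)
    (fun i => by positivity) (summable_geometric_of_lt_one (by norm_num) (by norm_num)) P ?_ hD
  intro a ha K
  obtain ⟨t, ht0, htA⟩ := hP a ha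
  obtain ⟨n, hn⟩ := exists_pow_lt_of_lt_one ht0 (by norm_num : (1 / 2 : ℝ) < 1)
  have hi : s (max K n) < t := by
    refine (min_le_left _ _).trans_lt (lt_of_le_of_lt ?_ hn)
    exact pow_le_pow_of_le_one (by norm_num) (by norm_num) (le_max_right _ _)
  have hkA := htA _ (hs0 _) hi
  have hUa : (U a : E →ᵇ E) = HG.disp (g⁻¹ * f a * g'⁻¹) := congrArg Subtype.val (hUf a)
  refine ⟨max K n, le_max_left _ _, ?_, ?_⟩
  · show (U a : E →ᵇ E) ∈ Us (s (max K n))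
    rw [hUa]
    exact (hη _ _ (hs0 _) hkA).1
  · have h8 := dL_op hη (hs0 _) (hs1 _) (hf1 a) hkA
    show HG.N ((g * op (s (max K n)) (U a : E →ᵇ E) * g')⁻¹ * f a) < (1 / 2) ^ (max K n)
    rw [hUa]
    set o := op (s (max K n)) (HG.disp (g⁻¹ * f a * g'⁻¹)) with ho
    have h9 : (g * o * g')⁻¹ * f a = g'⁻¹ * (o⁻¹ * (g⁻¹ * f a * g'⁻¹)) * g' := by
      group
    rw [h9]
    apply hδ'
    have h10 : s (max K n) ≤ δ (max K n) := min_le_right _ _
    have h11 := hs0 (max K n)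
    linarith

end

open HB in
theorem mixed_final (E : Type u) [NormedAddCommGroup E] [NormedSpace ℝ E]
    [FiniteDimensional ℝ E] : ∃ η : ℝ, 0 < η ∧ (∀ h : HB E, IsDiffeo 1 h → h ∈ WB1 E η) ∧
    ∀ (Y : Type v) [TopologicalSpace Y] [TopologicalSpace.MetrizableSpace Y] (A : Set Y),
      IsClosed A → ∀ f : A → HB E, Continuous f → ∀ P : ℕ → Set A, ⋃ j, P j = univ →
      (∀ j, PropC (P j) ∨ (∃ F : Y → HB E, Continuous F ∧ ∀ a ∈ P j, F a = f a) ∨
        (∃ g : HB E, ∀ a ∈ P j, ∃ w ∈ WB E η, f a = comp g w) ∨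
        ∃ g g' : HB E, ∀ a ∈ P j, ∃ w ∈ WB1 E η, f a = comp (comp g w) g') →
      ∃ F : Y → HB E, Continuous F ∧ ∀ a : A, F a = f a := by
  borelize E
  obtain ⟨η, hη, hη1, h⟩ := exists_eta E
  refine ⟨η / 2, by positivity, ?_, ?_⟩
  · intro h hh
    obtain ⟨δ, hδ, h1⟩ := nearAffine_of_contDiff (up h) (contDiff_up hh).1 (contDiff_up hh).2
      (show 0 < η / 2 by positivity)
    exact ⟨δ, hδ, h1⟩
  intro Y _ _ A hA f hf P hP hj
  have hf' : Continuous (fun a => up (f a)) := continuous_up.comp hf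
  have hcomp : ∀ g w : HB E, up (comp g w) = up g * up w := by
    intro g w
    ext1
    ext1 x
    show hat (comp g w) x = hat g (hat w x)
    rcases le_total ‖x‖ 1 with hx | hx
    · rw [hat_of_le _ hx, hat_of_le w hx, hat_coe]
      rfl
    · rw [hat_of_ge _ hx, hat_of_ge w hx, hat_of_ge g hx]
  have hup1 : ∀ (g : HB E) (ε : ℝ), 0 ≤ ε → up g ∈ HG.Sp (1 + ε) := fun g ε hε x hx =>
    up_supp g x (by linarith)
  have hthin : (HG.kap (E := E)).Thin (fun ε => HG.Sp (1 + ε)) (fun a => up (f a)) univ := by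
    rw [← hP]
    refine Con.Thin.iUnion _ HG.mono_Sp fun j => ?_
    rcases hj j with h1 | ⟨F, hF, hFf⟩ | ⟨g, hg⟩ | ⟨g, g', hg⟩
    · exact Con.Thin.of_propC _ _ hf' (P j) h1 (fun ε hε a => hup1 _ ε hε.le)
        (fun ε hε => HG.Sp_one _)
    · exact Con.Thin.of_extends _ _ hf' (fun y => up (F y)) (continuous_up.comp hF) (P j)
        (fun a ha => by rw [hFf a ha]) (fun ε hε y => hup1 _ ε hε.le)
    · refine thin_of_W h hA hf' (up g) (fun x hx => up_supp g x hx) ?_ (P j) ?_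
      · intro a x hx
        show (up g)⁻¹.1 ((up (f a)).1 x) = x
        rw [up_supp (f a) x hx, up_inv, up_supp _ x hx]
      · intro a ha ε hε
        obtain ⟨w, hw, hfa⟩ := hg a ha
        obtain ⟨s, hs0, hs1, hs⟩ := hw ε hε
        refine ⟨s, hs0, hs1, ?_⟩
        rw [hfa, hcomp, inv_mul_cancel_left]
        exact hs
    · refine thin_of_W1 h hA hf' (up g) (up g') (fun x hx => up_supp g x hx)
        (fun x hx => up_supp g' x hx) ?_ (P j) ?_
      · intro a x hx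
        show (up g)⁻¹.1 ((up (f a)).1 ((up g')⁻¹.1 x)) = x
        rw [up_inv, up_inv, up_supp _ x hx, up_supp (f a) x hx, up_supp _ x hx]
      · intro a ha
        obtain ⟨w, ⟨t, ht0, ht⟩, hfa⟩ := hg a ha
        refine ⟨t, ht0, fun s hs0 hs1 => ?_⟩
        rw [hfa, hcomp, hcomp]
        have h2 : (up g)⁻¹ * (up g * up w * up g') * (up g')⁻¹ = up w := by group
        rw [h2]
        exact (ht s hs0 hs1).mono (by linarith)
  obtain ⟨F, θ, hF, hθ, hθA, hθA', hFA, hFD, hFM⟩ := Con.Thin.ext _ HG.mono_Sp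
    (fun ε _ => HG.Sp_cx _) hA hf' hthin
  obtain ⟨F', hF', hFA', hFS⟩ := HG.compressSp A F hF θ hθ hθA hθA' hFD hFM
  have hFf : ∀ a : A, F' a = up (f a) := fun a => by rw [hFA' a a.2, hFA]
  have hF1 : ∀ y x, 1 ≤ ‖x‖ → (F' y).1 x = x := by
    intro y
    by_cases hy : y ∈ A
    · have h1 := hFf ⟨y, hy⟩
      simp only at h1
      rw [h1]
      exact up_supp _
    · exact hFS y hy
  refine ⟨fun y => down (F' y) (hF1 y), continuous_down F' hF' hF1, fun a => ?_⟩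
  have h2 : ∀ (g : HG E) (hg : ∀ x, 1 ≤ ‖x‖ → g.1 x = x), g = up (f a) →
      down g hg = f a := by
    intro g hg hgu
    subst hgu
    exact down_up _ _
  exact h2 _ _ (hFf a)

end Pool.Agent.H662.HM
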