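import Pool.Agent.H662.HM.HK
import Pool.Agent.H662.HM.Mixed
import Pool.Agent.H662.HM.Crit

/-!
# Extension of maps into the group of the homeomorphisms with bounded support
-/

set_option autoImplicit false
set_option linter.unusedSectionVars false

open Set Topology Filter
open scoped BoundedContinuousFunction ContDiff

namespace Pool.Agent.H662.HM

universe u v

namespace HK

section

variable {E : Type*} [NormedAddCommGroup E] [NormedSpace ℝ E]

/-- the inclusion of the homeomorphisms supported in the ball of radius two -/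
def inc (g : HG E) : HK E := ⟨g.1, 2, g.2⟩

theorem inc_apply (g : HG E) (x : E) : (inc g).1 x = g.1 x := rfl

theorem dist_inc (g h : HG E) : dist (inc g) (inc h) = dist g h := by
  apply le_antisymm
  · rw [dist_le_iff dist_nonneg]
    intro x
    exact HG.norm_sub_le_dist g h x
  · rw [HG.dist_le_iff dist_nonneg]
    intro x
    exact norm_sub_le_dist (inc g) (inc h) x

theorem isometry_inc : Isometry (inc : HG E → HK E) := Isometry.of_dist_eq dist_inc

/-- the restriction -/
def rs (g : HK E) (hg : g ∈ (Sp 1 : Set (HK E))) : HG E := ⟨g.1, fun x hx => hg x (by linarith)⟩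

theorem inc_rs (g : HK E) (hg : g ∈ (Sp 1 : Set (HK E))) : inc (rs g hg) = g := rfl

theorem continuous_rs {Y : Type*} [TopologicalSpace Y] (F : Y → HK E) (hF : Continuous F)
    (h1 : ∀ y, F y ∈ (Sp 1 : Set (HK E))) : Continuous (fun y => rs (F y) (h1 y)) := by
  rw [isometry_inc.isEmbedding.continuous_iff]
  exact hF

end

variable {E : Type*} [NormedAddCommGroup E] [NormedSpace ℝ E] [FiniteDimensional ℝ E]

/-- extension of a map which extends from each of countably many pieces -/
theorem ext_of_pieces {Y : Type*} [TopologicalSpace Y] [TopologicalSpace.MetrizableSpace Y]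
    {A : Set Y} (hA : IsClosed A) {f : A → HK E} (hf : Continuous f) (P : ℕ → Set A)
    (hP : ⋃ j, P j = univ)
    (h : ∀ j, ∃ F : Y → HK E, Continuous F ∧ ∀ a ∈ P j, F a = f a) :
    ∃ F : Y → HK E, Continuous F ∧ ∀ a : A, F a = f a := by
  have hmono : Monotone (fun _ : ℝ => (univ : Set (HK E))) := fun _ _ _ => le_rfl
  have hthin : (kap (E := E)).Thin (fun _ => univ) f univ := by
    rw [← hP]
    refine Con.Thin.iUnion _ hmono fun j => ?_
    obtain ⟨F, hF, hFf⟩ := h j
    exact Con.Thin.of_extends _ _ hf F hF (P j) hFf (fun _ _ _ => mem_univ _)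
  obtain ⟨F, θ, hF, _, _, _, hFA, _, _⟩ := Con.Thin.ext _ hmono (fun _ _ => univ_cx) hA hf hthin
  exact ⟨F, hF, hFA⟩

/-- restriction to closed pieces -/
theorem exists_on_piece {Y : Type*} [TopologicalSpace Y] {X : Type*} [TopologicalSpace X]
    {A : Set Y} (hA : IsClosed A) {f : A → X} (hf : Continuous f) (P : Set A) (hP : IsClosed P)
    (h : ∀ B : Set Y, IsClosed B → ∀ g : B → X, Continuous g →
      (∀ b : B, ∃ a ∈ P, (a : Y) = b ∧ g b = f a) →
      ∃ F : Y → X, Continuous F ∧ ∀ b : B, F b = g b) :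
    ∃ F : Y → X, Continuous F ∧ ∀ a ∈ P, F a = f a := by
  set B : Set Y := Subtype.val '' P with hB
  have hBc : IsClosed B := hA.isClosedEmbedding_subtypeVal.isClosedMap _ hP
  have hmemA : ∀ y ∈ B, y ∈ A := by
    rintro _ ⟨a, _, rfl⟩
    exact a.2
  have hmemP : ∀ y (hy : y ∈ B), (⟨y, hmemA y hy⟩ : A) ∈ P := by
    rintro _ ⟨a, ha, rfl⟩
    exact ha
  obtain ⟨F, hF, hFB⟩ := h B hBc (fun b => f ⟨b, hmemA b b.2⟩)
    (hf.comp (continuous_subtype_val.subtype_mk _)) (fun b => ⟨_, hmemP b b.2, rfl, rfl⟩)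
  refine ⟨F, hF, fun a ha => ?_⟩
  exact hFB ⟨a, ⟨a, ha, rfl⟩⟩

end HK

/-- continuous maps with smooth values extend -/
theorem HK.ext_smooth (E : Type u) [NormedAddCommGroup E] [NormedSpace ℝ E]
    [FiniteDimensional ℝ E] (Y : Type v) [TopologicalSpace Y] [TopologicalSpace.MetrizableSpace Y]
    (A : Set Y) (hA : IsClosed A) (g : A → HK E) (hg : Continuous g)
    (hs : ∀ a, g a ∈ (HK.Sm : Set (HK E))) :
    ∃ G : Y → HK E, Continuous G ∧ ∀ a : A, G a = g a := by
  obtain ⟨η, hη, hη1, hext⟩ := exists_ext.{u, v} E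
  refine HK.ext_of_pieces hA hg (fun j : ℕ => {a | g a ∈ HK.Sp ((j : ℝ) + 1)}) ?_ ?_
  · ext a
    simp only [mem_iUnion, mem_univ, iff_true]
    obtain ⟨R, hR⟩ := HK.exists_Sp (g a)
    obtain ⟨j, hj⟩ := exists_nat_gt R
    exact ⟨j, HK.Sp_mono (by linarith) hR⟩
  · intro j
    refine HK.exists_on_piece hA hg _ ((HK.isClosed_Sp _).preimage hg) ?_
    intro B hB k hk hkP
    have hj : (0 : ℝ) < (j : ℝ) + 1 := by positivity
    have hkS : ∀ b, HK.sc ((j : ℝ) + 1)⁻¹ (k b) ∈ (HK.Sp 1 : Set (HK E)) := by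
      intro b
      obtain ⟨a, ha, _, hab⟩ := hkP b
      rw [hab]
      have h1 := HK.Sp_sc (t := ((j : ℝ) + 1)⁻¹) (show g a ∈ HK.Sp ((j : ℝ) + 1) from ha)
        (by positivity)
      rwa [inv_mul_cancel₀ hj.ne'] at h1
    have hkSm : ∀ b, HK.sc ((j : ℝ) + 1)⁻¹ (k b) ∈ (HK.Sm : Set (HK E)) := by
      intro b
      obtain ⟨a, ha, _, hab⟩ := hkP b
      rw [hab]
      exact HK.Sm_sc (hs a) _
    obtain ⟨F, hF, hFB, _⟩ := hext Y B hB (fun b => HK.rs _ (hkS b))
      (HK.continuous_rs _ ((HK.continuous_sc (by positivity)).comp hk) hkS)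
      (fun b x hx => hkS b x hx)
      (fun b ε hε => by
        obtain ⟨δ, hδ, h1⟩ := nearAffine_of_contDiff (HK.rs _ (hkS b))
          ((hkSm b).1.of_le (by exact_mod_cast le_top)) ((hkSm b).2.of_le (by exact_mod_cast le_top)) hη
        refine ⟨min (ε / 2) (δ / 2), lt_min (by positivity) (by positivity), ?_, ?_⟩
        · exact (min_le_left _ _).trans_lt (by linarith)
        · exact h1 _ (lt_min (by positivity) (by positivity))
            ((min_le_right _ _).trans_lt (by linarith)))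
    refine ⟨fun y => HK.sc ((j : ℝ) + 1) (HK.inc (F y)),
      (HK.continuous_sc hj).comp (HK.isometry_inc.continuous.comp hF), fun b => ?_⟩
    show HK.sc ((j : ℝ) + 1) (HK.inc (F b)) = k b
    rw [hFB b, HK.inc_rs, HK.sc_sc hj (by positivity), mul_inv_cancel₀ hj.ne', HK.sc_one]

end Pool.Agent.H662.HM
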