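import Pool.Agent.H662.HM.Ops

/-!
# Extension of maps through operators which are defined on open subsets of a normed space
-/

set_option autoImplicit false
set_option linter.unusedSectionVars false

open Set Topology Filter

namespace Pool.Agent.H662.HM

namespace Con

variable {G : Type*} [Group G] [TopologicalSpace G] [IsTopologicalGroup G] (κ : Con G)

theorem ext_of_normed {Y : Type*} [TopologicalSpace Y] [TopologicalSpace.MetrizableSpace Y]
    {V : Type*} [NormedAddCommGroup V] [NormedSpace ℝ V]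
    (A : Set Y) (hA : IsClosed A) (f : A → G) (hf : Continuous f)
    (φ : A → V) (hφ : Continuous φ) (W : ℕ → Set V) (hW : ∀ k, IsOpen (W k))
    (o : ℕ → V → G) (ho : ∀ k, ContinuousOn (o k) (W k))
    (hinf : ∀ a : A, ∀ K : ℕ, ∃ k, K ≤ k ∧ φ a ∈ W k ∧ κ.dL (o k (φ a)) (f a) < (1 / 2) ^ k)
    (D : ℕ → Set G) (hD : ∀ k, κ.Cx (D k)) (hDanti : ∀ k l, k ≤ l → D l ⊆ D k)
    (hoD : ∀ k, ∀ v ∈ W k, o k v ∈ D k) :
    ∃ (F : Y → G) (θ : Y → ℝ), Continuous F ∧ Continuous θ ∧ (∀ y ∈ A, θ y = 0) ∧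
      (∀ y, y ∉ A → 0 < θ y) ∧ (∀ a : A, F a = f a) ∧ (∀ y, y ∉ A → F y ∈ D 0) ∧
      (∀ y, y ∉ A → ∀ M, θ y < (1 / 2) ^ M → F y ∈ D M) := by
  obtain ⟨U, hU, hUf⟩ := dugundji A hA φ hφ
  have hWo : ∀ k, IsOpen (U ⁻¹' (W k)) := fun k => (hW k).preimage hU
  have hgc : ∀ k, ContinuousOn (fun y => o k (U y)) (U ⁻¹' (W k)) := fun k =>
    (ho k).comp hU.continuousOn (fun y hy => hy)
  have hPo : ∀ k, IsOpen {a : A | U (a : Y) ∈ W k ∧ κ.dL (o k (U a)) (f a) < (1 / 2) ^ k} := by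
    intro k
    have h1 : ContinuousOn (fun a : A => κ.dL (o k (U a)) (f a))
        (Subtype.val ⁻¹' (U ⁻¹' (W k))) :=
      κ.continuous_dL.comp_continuousOn
        (((hgc k).comp continuous_subtype_val.continuousOn (fun a ha => ha)).prodMk
          hf.continuousOn)
    exact h1.isOpen_inter_preimage ((hWo k).preimage continuous_subtype_val)
      (isOpen_Iio (a := ((1 / 2) ^ k : ℝ)))
  have hO : ∀ k, ∃ O : Set Y, IsOpen O ∧
      (Subtype.val : A → Y) ⁻¹' O =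
        {a : A | U (a : Y) ∈ W k ∧ κ.dL (o k (U a)) (f a) < (1 / 2) ^ k} := fun k =>
    isOpen_induced_iff.1 (hPo k)
  choose O hOo hOP using hO
  have hOP' : ∀ k (a : A), (a : Y) ∈ O k ↔
      (U (a : Y) ∈ W k ∧ κ.dL (o k (U a)) (f a) < (1 / 2) ^ k) := by
    intro k a
    have h1 : a ∈ (Subtype.val : A → Y) ⁻¹' (O k) ↔ (a : Y) ∈ O k := Iff.rfl
    rw [← h1, hOP k]
    rfl
  refine κ.ext_of_ops A hA f hf (fun k => O k ∩ U ⁻¹' (W k))
    (fun k => (hOo k).inter (hWo k)) (fun k y => o k (U y))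
    (fun k => (hgc k).mono inter_subset_right)
    (fun k a ha => (((hOP' k a).1 ha.1).2).le) ?_ D hD hDanti
    (fun k y hy => hoD k _ hy.2)
  intro a K
  obtain ⟨k, hk, h1, h2⟩ := hinf a K
  rw [← hUf a] at h1 h2
  exact ⟨k, hk, (hOP' k a).2 ⟨h1, h2⟩, h1⟩

end Con

end Pool.Agent.H662.HM
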