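import Pool.Agent.H662.HM.Aff
import Pool.Agent.H662.HM.Norm

/-!
# Extension of maps into the set of the homeomorphisms which are nearly affine at small scales
-/

set_option autoImplicit false
set_option linter.unusedSectionVars false

open Set Topology Filter MeasureTheory Measure
open scoped BoundedContinuousFunction ContDiff Convolution

namespace Pool.Agent.H662.HM

variable {E : Type*} [NormedAddCommGroup E] [NormedSpace ℝ E]

variable (E) in
/-- the bounded functions which vanish off the open unit ball -/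
def Cs : Submodule ℝ (E →ᵇ E) where
  carrier := {u | ∀ x, 1 ≤ ‖x‖ → u x = 0}
  add_mem' := by
    intro u v hu hv x hx
    show u x + v x = 0
    rw [hu x hx, hv x hx, add_zero]
  zero_mem' := fun x _ => rfl
  smul_mem' := by
    intro c u hu x hx
    show c • u x = 0
    rw [hu x hx, smul_zero]

theorem HG.continuous_disp : Continuous (HG.disp : HG E → (E →ᵇ E)) := continuous_induced_dom

variable [FiniteDimensional ℝ E]

section

variable [MeasurableSpace E] [BorelSpace E]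

theorem continuousOn_op {s : ℝ} (hs : 0 < s) (hs1 : s ≤ 1) :
    ContinuousOn (fun v : Cs E => op s (v : E →ᵇ E)) {v : Cs E | (v : E →ᵇ E) ∈ Us s} := by
  rw [Metric.continuousOn_iff']
  intro v hv ε hε
  have h1 : ∀ᶠ w in 𝓝[{v : Cs E | (v : E →ᵇ E) ∈ Us s}] v, dist w v < ε :=
    (show ∀ᶠ w in 𝓝 v, dist w v < ε from Metric.ball_mem_nhds _ hε).filter_mono
      nhdsWithin_le_nhds
  filter_upwards [h1, self_mem_nhdsWithin] with w hw hwU
  exact (op_dist hs hs1 hv v.2 hwU w.2).trans_lt hw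

theorem dL_op {η : ℝ}
    (hη : ∀ (h : HG E) (s : ℝ), 0 < s → NearAffine η s h.1 →
      HG.disp h ∈ Us s ∧ ∀ x, ‖h⁻¹.1 (x + T s (HG.disp h) x) - x‖ ≤ s / 8)
    {s : ℝ} (hs : 0 < s) (hs1 : s ≤ 1) {h : HG E} (hh : ∀ x, 1 ≤ ‖x‖ → h.1 x = x)
    (hA : NearAffine η s h.1) : HG.N ((op s (HG.disp h))⁻¹ * h) ≤ s / 8 := by
  obtain ⟨h4, h5⟩ := hη h s hs hA
  have h7 := op_spec hs hs1 h4 (fun x hx => by rw [HG.disp_apply, hh x hx, sub_self])
  rw [HG.N_le_iff (by positivity)]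
  intro z
  show ‖(op s (HG.disp h))⁻¹.1 (h.1 z) - z‖ ≤ _
  have h9 : (op s (HG.disp h)).1 ((op s (HG.disp h))⁻¹.1 (h.1 z)) = h.1 z :=
    (op s (HG.disp h)).1.apply_symm_apply _
  set x := (op s (HG.disp h))⁻¹.1 (h.1 z) with hx
  have h10 : x + T s (HG.disp h) x = h.1 z := by
    rw [← h9, h7.1]
  have h11 := h5 x
  rw [h10] at h11
  have h12 : h⁻¹.1 (h.1 z) = z := h.1.symm_apply_apply z
  rw [h12, norm_sub_rev] at h11
  exact h11

theorem exists_scale {η ε : ℝ} {h : E → E} {K : ℕ} {t : ℝ} (ht0 : 0 < t) (hε : t < ε)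
    (hεK : ε ≤ (1 / 2) ^ K) (htA : NearAffine (η / 2) t h) :
    ∃ k, K ≤ k ∧ NearAffine η ((1 / 2) ^ k) h := by
  have ht1 : t ≤ 1 := hε.le.trans (hεK.trans (pow_le_one₀ (by norm_num) (by norm_num)))
  obtain ⟨n, hn1, hn2⟩ := exists_nat_pow_near_of_lt_one ht0 ht1
    (show (0 : ℝ) < 1 / 2 by norm_num) (by norm_num)
  have hK : K ≤ n + 1 := by
    by_contra hcon
    have h1 : (1 / 2 : ℝ) ^ K ≤ (1 / 2) ^ (n + 1) :=
      pow_le_pow_of_le_one (by norm_num) (by norm_num) (by omega)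
    linarith
  refine ⟨n + 1, hK, ?_⟩
  have h3 := htA.half (s := (1 / 2) ^ (n + 1)) (by positivity) hn1.le (by
    rw [pow_succ]
    linarith)
  rwa [mul_div_cancel₀ _ (by norm_num : (2 : ℝ) ≠ 0)] at h3

/-- the extension, before the compression of the supports -/
theorem ext_pre {η : ℝ}
    (hη : ∀ (h : HG E) (s : ℝ), 0 < s → NearAffine η s h.1 →
      HG.disp h ∈ Us s ∧ ∀ x, ‖h⁻¹.1 (x + T s (HG.disp h) x) - x‖ ≤ s / 8)
    {Y : Type*} [TopologicalSpace Y] [TopologicalSpace.MetrizableSpace Y]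
    (A : Set Y) (hA : IsClosed A) (f : A → HG E) (hf : Continuous f)
    (hf1 : ∀ a x, 1 ≤ ‖x‖ → (f a).1 x = x)
    (hfW : ∀ a, ∀ ε > 0, ∃ s, 0 < s ∧ s < ε ∧ NearAffine (η / 2) s (f a).1) :
    ∃ (F : Y → HG E) (θ : Y → ℝ), Continuous F ∧ Continuous θ ∧ (∀ y ∈ A, θ y = 0) ∧
      (∀ y, y ∉ A → 0 < θ y) ∧ (∀ a : A, F a = f a) ∧
      (∀ y, y ∉ A → F y ∈ HG.Sm (1 + (1 / 2) ^ 0)) ∧
      (∀ y, y ∉ A → ∀ M : ℕ, θ y < (1 / 2) ^ M → F y ∈ HG.Sm (1 + (1 / 2) ^ M)) := by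
  have hmem : ∀ a, HG.disp (f a) ∈ Cs E := by
    intro a x hx
    rw [HG.disp_apply, hf1 a x hx, sub_self]
  have hs0 : ∀ k : ℕ, (0 : ℝ) < (1 / 2) ^ k := fun k => by positivity
  have hs1 : ∀ k : ℕ, ((1 : ℝ) / 2) ^ k ≤ 1 := fun k => pow_le_one₀ (by norm_num) (by norm_num)
  have hcx : ∀ k : ℕ, (HG.kap (E := E)).Cx (HG.Sm (1 + (1 / 2) ^ k)) := fun k => HG.Sm_cx _
  have hanti : ∀ k l : ℕ, k ≤ l →
      (HG.Sm (1 + (1 / 2) ^ l) : Set (HG E)) ⊆ HG.Sm (1 + (1 / 2) ^ k) := by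
    intro k l hkl
    refine HG.Sm_mono ?_
    have : (1 / 2 : ℝ) ^ l ≤ (1 / 2) ^ k := pow_le_pow_of_le_one (by norm_num) (by norm_num) hkl
    linarith
  have hop : ∀ k : ℕ, ∀ v ∈ {v : Cs E | (v : E →ᵇ E) ∈ Us ((1 / 2) ^ k)},
      op ((1 / 2) ^ k) (v : E →ᵇ E) ∈ (HG.Sm (1 + (1 / 2) ^ k) : Set (HG E)) := fun k v hv =>
    (op_spec (hs0 k) (hs1 k) hv v.2).2
  have hinf : ∀ a : A, ∀ K : ℕ, ∃ k, K ≤ k ∧
      (⟨HG.disp (f a), hmem a⟩ : Cs E) ∈ {v : Cs E | (v : E →ᵇ E) ∈ Us ((1 / 2) ^ k)} ∧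
      (HG.kap (E := E)).dL (op ((1 / 2) ^ k) (HG.disp (f a))) (f a) < (1 / 2) ^ k := by
    intro a K
    obtain ⟨t, ht0, htε, htA⟩ := hfW a ((1 / 2) ^ K) (by positivity)
    obtain ⟨k, hk, hkA⟩ := exists_scale ht0 htε le_rfl htA
    refine ⟨k, hk, (hη (f a) _ (hs0 k) hkA).1, ?_⟩
    have h8 := dL_op hη (hs0 k) (hs1 k) (hf1 a) hkA
    have h9 := hs0 k
    show HG.N ((op ((1 / 2) ^ k) (HG.disp (f a)))⁻¹ * f a) < (1 / 2) ^ k
    linarith
  exact (HG.kap (E := E)).ext_of_normed A hA f hf (fun a => (⟨HG.disp (f a), hmem a⟩ : Cs E))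
    ((HG.continuous_disp.comp hf).subtype_mk _)
    (fun k => {v : Cs E | (v : E →ᵇ E) ∈ Us ((1 / 2) ^ k)})
    (fun k => (isOpen_Us (hs0 k)).preimage continuous_subtype_val)
    (fun k v => op ((1 / 2) ^ k) (v : E →ᵇ E))
    (fun k => continuousOn_op (hs0 k) (hs1 k)) hinf (fun k => HG.Sm (1 + (1 / 2) ^ k)) hcx hanti hop

end

/-- compression of the supports -/
theorem compress {Y : Type*} [TopologicalSpace Y] (A : Set Y) (F : Y → HG E) (hF : Continuous F)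
    (θ : Y → ℝ) (hθ : Continuous θ) (hθA : ∀ y ∈ A, θ y = 0) (hθA' : ∀ y, y ∉ A → 0 < θ y)
    (hF0 : ∀ y, y ∉ A → F y ∈ HG.Sm (1 + (1 / 2) ^ 0))
    (hFM : ∀ y, y ∉ A → ∀ M : ℕ, θ y < (1 / 2) ^ M → F y ∈ HG.Sm (1 + (1 / 2) ^ M)) :
    ∃ F' : Y → HG E, Continuous F' ∧ (∀ y ∈ A, F' y = F y) ∧ ∀ y, y ∉ A → F' y ∈ HG.Sm 1 := by
  set ρ : Y → ℝ := fun y => min 1 (2 * θ y) with hρ
  have hρc : Continuous ρ := continuous_const.min (continuous_const.mul hθ)
  have hθ0 : ∀ y, 0 ≤ θ y := fun y => by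
    by_cases hy : y ∈ A
    · rw [hθA y hy]
    · exact (hθA' y hy).le
  have hρ0 : ∀ y, 0 ≤ ρ y := fun y => le_min zero_le_one (by have := hθ0 y; positivity)
  have hs1 : ∀ k : ℕ, ((1 : ℝ) / 2) ^ k ≤ 1 := fun k => pow_le_one₀ (by norm_num) (by norm_num)
  have hρS : ∀ y, y ∉ A → F y ∈ HG.Sm (1 + ρ y) := by
    intro y hy
    by_cases h1 : 1 / 2 ≤ θ y
    · have h2 : ρ y = 1 := min_eq_left (by linarith)
      have h3 := hF0 y hy
      rw [h2]
      rwa [pow_zero] at h3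
    · rw [not_le] at h1
      obtain ⟨M, hM1, hM2⟩ := exists_nat_pow_near_of_lt_one (hθA' y hy)
        (by linarith : θ y ≤ 1) (show (0 : ℝ) < 1 / 2 by norm_num) (by norm_num)
      rcases hM2.lt_or_eq with h2 | h2
      · refine HG.Sm_mono ?_ (hFM y hy M h2)
        have h3 : (1 / 2 : ℝ) ^ M ≤ 2 * θ y := by
          rw [pow_succ] at hM1
          linarith
        have h4 := hs1 M
        have h5 : (1 / 2 : ℝ) ^ M ≤ ρ y := le_min h4 h3
        linarith
      · cases M with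
        | zero => rw [pow_zero] at h2; linarith
        | succ M =>
          have h3 : θ y < (1 / 2) ^ M := by
            rw [h2]
            exact pow_lt_pow_right_of_lt_one₀ (by norm_num) (by norm_num) (Nat.lt_succ_self M)
          refine HG.Sm_mono ?_ (hFM y hy M h3)
          have h4 : (1 / 2 : ℝ) ^ M ≤ 2 * θ y := by
            rw [h2, pow_succ]
            linarith
          have h5 : (1 / 2 : ℝ) ^ M ≤ ρ y := le_min (hs1 M) h4
          linarith
  refine ⟨fun y => HG.con (1 / (1 + ρ y)) (F y), ?_, ?_, ?_⟩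
  · have h1 : Continuous (fun y => ((1 / (1 + ρ y), F y) : ℝ × HG E)) := by
      refine Continuous.prodMk ?_ hF
      refine continuous_const.div (continuous_const.add hρc) (fun y => ?_)
      have := hρ0 y
      positivity
    exact HG.continuous_con.comp h1
  · intro a ha
    have h1 : ρ a = 0 := by
      simp only [hρ]
      rw [hθA a ha, mul_zero]
      exact min_eq_right zero_le_one
    simp only [h1, add_zero, div_one]
    rw [HG.con_of_one_le le_rfl]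
  · intro y hy
    have h1 := hρ0 y
    have h2 := HG.Sm_con' (hρS y hy) (t := 1 / (1 + ρ y)) (by positivity)
      (by rw [div_le_one (by positivity)]; linarith)
    rwa [one_div_mul_cancel (by positivity)] at h2

universe u v

/-- maps into the set of the homeomorphisms which are nearly affine at arbitrarily small scales
extend, with smooth values -/
theorem exists_ext (E : Type u) [NormedAddCommGroup E] [NormedSpace ℝ E]
    [FiniteDimensional ℝ E] : ∃ η : ℝ, 0 < η ∧ η ≤ 1 ∧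
    ∀ (Y : Type v) [TopologicalSpace Y] [TopologicalSpace.MetrizableSpace Y]
      (A : Set Y) (_ : IsClosed A) (f : A → HG E) (_ : Continuous f)
      (_ : ∀ a x, 1 ≤ ‖x‖ → (f a).1 x = x)
      (_ : ∀ a, ∀ ε > 0, ∃ s, 0 < s ∧ s < ε ∧ NearAffine η s (f a).1),
      ∃ F : Y → HG E, Continuous F ∧ (∀ a : A, F a = f a) ∧ ∀ y, y ∉ A → F y ∈ HG.Sm 1 := by
  borelize E
  obtain ⟨η, hη, hη1, h⟩ := exists_eta E
  refine ⟨η / 2, by positivity, by linarith, ?_⟩
  intro Y _ _ A hA f hf hf1 hfW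
  obtain ⟨F, θ, hF, hθ, hθA, hθA', hFA, hFD, hFM⟩ := ext_pre h A hA f hf hf1 hfW
  obtain ⟨F', hF', hFA', hFS⟩ := compress A F hF θ hθ hθA hθA' hFD hFM
  exact ⟨F', hF', fun a => by rw [hFA' a a.2, hFA], hFS⟩

end Pool.Agent.H662.HM
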