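import Pool.Agent.H662.HM.Smooth

/-!
# The open set on which the smoothing is a diffeomorphism
-/

set_option autoImplicit false
set_option linter.unusedSectionVars false

open Set Topology Filter MeasureTheory Measure
open scoped BoundedContinuousFunction ContDiff Convolution

namespace Pool.Agent.H662.HM

variable {E : Type*} [NormedAddCommGroup E] [NormedSpace ℝ E] [FiniteDimensional ℝ E]
  [MeasurableSpace E] [BorelSpace E]

/-- the bounded functions whose smoothing is injective, with a bound -/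
def Us (s : ℝ) : Set (E →ᵇ E) :=
  {u | ∃ m > 0, ∀ x y, m * min ‖x - y‖ 1 ≤ ‖(x + T s u x) - (y + T s u y)‖}

theorem T_sub_bound {s : ℝ} (hs : 0 < s) (u u' : E →ᵇ E) (x : E) :
    ‖T s u' x - T s u x‖ ≤ ‖u' - u‖ := by
  have h1 := T_sub u'.continuous u.continuous s x
  rw [← h1]
  exact T_bound hs.le fun v _ => (u' - u).norm_coe_le_norm _

variable (E) in
theorem exists_T_lip' {s : ℝ} (hs : 0 < s) : ∃ K : ℝ, 0 < K ∧ ∀ (q : E →ᵇ E) (x y : E),
    ‖T s q x - T s q y‖ ≤ K * ‖q‖ * min ‖x - y‖ 1 := by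
  obtain ⟨C, hC1, hC⟩ := exists_T_lip E
  set K : ℝ := C / s + 2 / min (s / 2) 1 + 2 with hK
  have hm : 0 < min (s / 2) 1 := lt_min (by positivity) one_pos
  have hCs : 0 < C / s := by positivity
  have hms : 0 < 2 / min (s / 2) 1 := by positivity
  refine ⟨K, by positivity, fun q x y => ?_⟩
  have h0 : ∀ z, ‖T s q z‖ ≤ ‖q‖ := fun z => T_bound hs.le fun v _ => q.norm_coe_le_norm _
  have h2 : ‖T s q x - T s q y‖ ≤ 2 * ‖q‖ := by
    have := norm_sub_le (T s q x) (T s q y)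
    linarith [h0 x, h0 y]
  by_cases hxy : ‖x - y‖ ≤ s / 2
  · have h3 := hC q s ‖q‖ y (x - y) q.continuous hs hxy (fun v _ => q.norm_coe_le_norm _)
    rw [add_sub_cancel] at h3
    rcases le_total ‖x - y‖ 1 with h4 | h4
    · rw [min_eq_left h4]
      have h5 : C * (‖q‖ / s) * ‖x - y‖ ≤ K * ‖q‖ * ‖x - y‖ := by
        have h6 : C * (‖q‖ / s) = (C / s) * ‖q‖ := by ring
        rw [h6]
        have : C / s ≤ K := by linarith
        gcongr
      linarith
    · rw [min_eq_right h4, mul_one]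
      have h5 : 2 * ‖q‖ ≤ K * ‖q‖ := by
        have : 2 ≤ K := by linarith
        gcongr
      linarith
  · have h3 : min (s / 2) 1 ≤ min ‖x - y‖ 1 := min_le_min (not_le.1 hxy).le le_rfl
    have h4 : 2 * ‖q‖ ≤ K * ‖q‖ * min ‖x - y‖ 1 := by
      have h5 : 2 ≤ K * min ‖x - y‖ 1 := by
        calc (2 : ℝ) = 2 / min (s / 2) 1 * min (s / 2) 1 := by field_simp
          _ ≤ K * min ‖x - y‖ 1 := by
            have : 2 / min (s / 2) 1 ≤ K := by linarith
            gcongr
      nlinarith [norm_nonneg q]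
    linarith

theorem isOpen_Us {s : ℝ} (hs : 0 < s) : IsOpen (Us s : Set (E →ᵇ E)) := by
  obtain ⟨K, hK, hK'⟩ := exists_T_lip' E hs
  rw [Metric.isOpen_iff]
  rintro u ⟨m, hm, hu⟩
  refine ⟨m / (2 * K), by positivity, fun u' hu' => ⟨m / 2, by positivity, fun x y => ?_⟩⟩
  rw [Metric.mem_ball, dist_eq_norm] at hu'
  have h1 := hK' (u' - u) x y
  have h2 : ∀ z, T s (u' - u : E →ᵇ E) z = T s u' z - T s u z := fun z =>
    T_sub u'.continuous u.continuous s z
  rw [h2, h2] at h1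
  have h3 := hu x y
  have h4 : (x + T s u x) - (y + T s u y) =
      ((x + T s u' x) - (y + T s u' y)) - (T s u' x - T s u x - (T s u' y - T s u y)) := by abel
  rw [h4] at h3
  have h5 := norm_sub_le ((x + T s u' x) - (y + T s u' y))
    (T s u' x - T s u x - (T s u' y - T s u y))
  have h6 : K * ‖u' - u‖ ≤ m / 2 := by
    rw [lt_div_iff₀ (by positivity)] at hu'
    linarith
  have h7 : 0 ≤ min ‖x - y‖ 1 := le_min (norm_nonneg _) zero_le_one
  have h8 : K * ‖u' - u‖ * min ‖x - y‖ 1 ≤ m / 2 * min ‖x - y‖ 1 :=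
    mul_le_mul_of_nonneg_right h6 h7
  linarith

/-- a smooth map which is the identity far out and satisfies the lower bound is a
diffeomorphism -/
theorem exists_homeo_of_smooth {G : E → E} (hG : ContDiff ℝ ∞ G) {m : ℝ} (hm : 0 < m)
    (hGm : ∀ x y, m * min ‖x - y‖ 1 ≤ ‖G x - G y‖) {r : ℝ} (hr : r ≤ 2)
    (hGr : ∀ x, r ≤ ‖x‖ → G x = x) :
    ∃ h : HG E, (∀ x, h.1 x = G x) ∧ h ∈ HG.Sm r := by
  have hinj : Function.Injective G := by
    intro x y hxy
    have h1 := hGm x y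
    rw [hxy, sub_self, norm_zero] at h1
    have h2 : min ‖x - y‖ 1 ≤ 0 := by
      by_contra h3
      have := mul_pos hm (not_le.1 h3)
      linarith
    have h3 : ‖x - y‖ ≤ 0 := by
      rcases min_le_iff.1 h2 with h | h
      · exact h
      · linarith
    exact sub_eq_zero.1 (norm_le_zero_iff.1 h3)
  have hd : ∀ x, HasStrictFDerivAt G (fderiv ℝ G x) x := fun x =>
    hG.contDiffAt.hasStrictFDerivAt (by simp)
  have hlow : ∀ x v, m * ‖v‖ ≤ ‖fderiv ℝ G x v‖ := by
    intro x v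
    have h1 : HasDerivAt (fun t : ℝ => G (x + t • v)) (fderiv ℝ G x v) 0 := by
      have h2 : HasFDerivAt G (fderiv ℝ G x) (x + (0 : ℝ) • v) := by
        simpa using (hd x).hasFDerivAt
      have h3 : HasDerivAt (fun t : ℝ => x + t • v) v 0 := by
        have := ((hasDerivAt_id (0 : ℝ)).smul_const v).const_add x
        simpa using this
      exact h2.comp_hasDerivAt 0 h3
    rw [hasDerivAt_iff_tendsto_slope_zero] at h1
    have h4 := h1.norm
    refine ge_of_tendsto h4 ?_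
    have h5 : ∀ᶠ t : ℝ in 𝓝[≠] 0, ‖t • v‖ < 1 := by
      have : Tendsto (fun t : ℝ => ‖t • v‖) (𝓝[≠] 0) (𝓝 0) := by
        have h6 : Continuous (fun t : ℝ => ‖t • v‖) := by fun_prop
        have h7 := h6.tendsto 0
        simp only [zero_smul, norm_zero] at h7
        exact h7.mono_left nhdsWithin_le_nhds
      exact this.eventually_lt_const one_pos
    have h6 : ∀ᶠ t : ℝ in 𝓝[≠] 0, t ≠ 0 := self_mem_nhdsWithin
    filter_upwards [h5, h6] with t ht ht0
    have h7 := hGm (x + t • v) x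
    rw [add_sub_cancel_left, min_eq_left ht.le] at h7
    rw [zero_add, zero_smul, add_zero, norm_smul, norm_inv]
    rw [norm_smul] at h7
    have h8 : 0 < ‖t‖ := norm_pos_iff.2 ht0
    rw [le_inv_mul_iff₀ h8]
    linarith
  have hker : ∀ x, Function.Injective (fderiv ℝ G x : E →ₗ[ℝ] E) := by
    intro x
    rw [injective_iff_map_eq_zero]
    intro v hv
    have h1 := hlow x v
    have h2 : fderiv ℝ G x v = 0 := hv
    rw [h2, norm_zero] at h1
    have h3 : ‖v‖ ≤ 0 := by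
      by_contra h
      have := mul_pos hm (not_le.1 h)
      linarith
    exact norm_le_zero_iff.1 h3
  set e : E → (E ≃L[ℝ] E) := fun x =>
    (LinearEquiv.ofInjectiveEndo (fderiv ℝ G x : E →ₗ[ℝ] E) (hker x)).toContinuousLinearEquiv
    with he
  have hee : ∀ x, (e x : E →L[ℝ] E) = fderiv ℝ G x := by
    intro x
    ext v
    rfl
  have hopen : IsOpenMap G := by
    rw [isOpenMap_iff_nhds_le]
    intro x
    have h1 : HasStrictFDerivAt G (e x : E →L[ℝ] E) x := by
      rw [hee]; exact hd x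
    exact h1.map_nhds_eq_of_equiv.ge
  have hclosed : IsClosed (range G) := by
    have h1 : range G = G '' Metric.closedBall 0 2 ∪ {x | 2 ≤ ‖x‖} := by
      ext y
      constructor
      · rintro ⟨x, rfl⟩
        by_cases hx : ‖x‖ ≤ 2
        · exact Or.inl ⟨x, by simpa using hx, rfl⟩
        · right
          show 2 ≤ ‖G x‖
          rw [hGr x (by linarith)]
          linarith
      · rintro (⟨x, _, rfl⟩ | hy)
        · exact ⟨x, rfl⟩
        · exact ⟨y, hGr y (hr.trans hy)⟩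
    rw [h1]
    refine IsClosed.union ?_ ?_
    · exact ((isCompact_closedBall (0 : E) 2).image hG.continuous).isClosed
    · exact isClosed_le continuous_const continuous_norm
  have hsurj : Function.Surjective G := by
    rw [← range_eq_univ]
    exact IsClopen.eq_univ ⟨hclosed, hopen.isOpen_range⟩ ⟨G 0, 0, rfl⟩
  set H : E ≃ₜ E := (Equiv.ofBijective G ⟨hinj, hsurj⟩).toHomeomorphOfContinuousOpen
    hG.continuous hopen with hH
  have hHx : ∀ x, H x = G x := fun x => rfl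
  have hfun : (H : E → E) = G := rfl
  refine ⟨⟨H, fun x hx => by rw [hHx]; exact hGr x (hr.trans hx)⟩, hHx, ?_, ?_, ?_⟩
  · show ContDiff ℝ ∞ (H : E → E)
    rw [hfun]
    exact hG
  · show ContDiff ℝ ∞ H.symm
    refine H.contDiff_symm (f₀' := e) (fun a => ?_) ?_
    · rw [hee, hfun]
      exact (hd a).hasFDerivAt
    · rw [hfun]
      exact hG
  · intro x hx
    exact hGr x hx

theorem exists_homeo {s : ℝ} (hs : 0 < s) (hs1 : s ≤ 1) {u : E →ᵇ E} (hu : u ∈ Us s)
    (hu0 : ∀ x, 1 ≤ ‖x‖ → u x = 0) :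
    ∃ h : HG E, (∀ x, h.1 x = x + T s u x) ∧ h ∈ HG.Sm (1 + s) := by
  obtain ⟨m, hm, hum⟩ := hu
  refine exists_homeo_of_smooth (contDiff_id.add (contDiff_T u.continuous hs)) hm hum
    (by linarith) ?_
  intro x hx
  show x + T s u x = x
  rw [T_eq_zero hs.le, add_zero]
  intro v hv
  apply hu0
  have := norm_sub_norm_le x (-v)
  rw [sub_neg_eq_add, norm_neg] at this
  linarith

open Classical in
/-- the smoothing as a map to the group -/
noncomputable def op (s : ℝ) (u : E →ᵇ E) : HG E :=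
  if h : (0 < s ∧ s ≤ 1) ∧ u ∈ Us s ∧ ∀ x, 1 ≤ ‖x‖ → u x = 0 then
    (exists_homeo h.1.1 h.1.2 h.2.1 h.2.2).choose else 1

theorem op_spec {s : ℝ} (hs : 0 < s) (hs1 : s ≤ 1) {u : E →ᵇ E} (hu : u ∈ Us s)
    (hu0 : ∀ x, 1 ≤ ‖x‖ → u x = 0) :
    (∀ x, (op s u).1 x = x + T s u x) ∧ op s u ∈ HG.Sm (1 + s) := by
  have h : (0 < s ∧ s ≤ 1) ∧ u ∈ Us s ∧ ∀ x, 1 ≤ ‖x‖ → u x = 0 := ⟨⟨hs, hs1⟩, hu, hu0⟩
  unfold op
  rw [dif_pos h]
  exact (exists_homeo h.1.1 h.1.2 h.2.1 h.2.2).choose_spec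

theorem op_dist {s : ℝ} (hs : 0 < s) (hs1 : s ≤ 1) {u u' : E →ᵇ E} (hu : u ∈ Us s)
    (hu0 : ∀ x, 1 ≤ ‖x‖ → u x = 0) (hu' : u' ∈ Us s) (hu0' : ∀ x, 1 ≤ ‖x‖ → u' x = 0) :
    dist (op s u') (op s u) ≤ dist u' u := by
  rw [HG.dist_le_iff dist_nonneg]
  intro x
  rw [(op_spec hs hs1 hu hu0).1, (op_spec hs hs1 hu' hu0').1, add_sub_add_left_eq_sub,
    dist_eq_norm]
  exact T_sub_bound hs u u' x

end Pool.Agent.H662.HM
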