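import Pool.Agent.H662.HM.Lim

/-!
# Extension of maps which are approximated infinitely often by maps defined on open sets
-/

set_option autoImplicit false
set_option linter.unusedSectionVars false

open Set Topology Filter

namespace Pool.Agent.H662.HM

namespace Con

variable {G : Type*} [Group G] [TopologicalSpace G] [IsTopologicalGroup G] (κ : Con G)

theorem ext_of_ops {Y : Type*} [TopologicalSpace Y] [TopologicalSpace.MetrizableSpace Y]
    (A : Set Y) (hA : IsClosed A) (f : A → G) (hf : Continuous f)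
    (Q : ℕ → Set Y) (hQ : ∀ k, IsOpen (Q k))
    (g : ℕ → Y → G) (hg : ∀ k, ContinuousOn (g k) (Q k))
    (hgf : ∀ k, ∀ a : A, (a : Y) ∈ Q k → κ.dL (g k a) (f a) ≤ (1 / 2) ^ k)
    (hinf : ∀ a : A, ∀ K, ∃ k, K ≤ k ∧ (a : Y) ∈ Q k)
    (D : ℕ → Set G) (hD : ∀ k, κ.Cx (D k)) (hDanti : ∀ k l, k ≤ l → D l ⊆ D k)
    (hgD : ∀ k, ∀ y ∈ Q k, g k y ∈ D k) :
    ∃ (F : Y → G) (θ : Y → ℝ), Continuous F ∧ Continuous θ ∧ (∀ y ∈ A, θ y = 0) ∧
      (∀ y, y ∉ A → 0 < θ y) ∧ (∀ a : A, F a = f a) ∧ (∀ y, y ∉ A → F y ∈ D 0) ∧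
      (∀ y, y ∉ A → ∀ M, θ y < (1 / 2) ^ M → F y ∈ D M) := by
  have hs : ∀ K : ℕ, Summable (fun k : ℕ => (1 / 2 : ℝ) ^ (K + k)) := fun K => by
    simp only [pow_add]
    exact (summable_geometric_of_lt_one (by norm_num) (by norm_num)).mul_left _
  have h1 : ∀ K : ℕ, ∃ J : Y → G, ContinuousOn J (⋃ k, Q (K + k)) ∧ (∀ y, J y ∈ D K) ∧
      ∀ y ∈ ⋃ k, Q (K + k), ∀ z, (∀ k, y ∈ Q (K + k) → κ.dL (g (K + k) y) z ≤ (1 / 2) ^ (K + k)) →
        κ.dL (J y) z ≤ 2 * ∑' k : ℕ, (1 / 2 : ℝ) ^ (K + k) := fun K =>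
    κ.glue (fun k => Q (K + k)) (fun k => hQ _) (fun k => g (K + k)) (fun k => hg _) (D K) (hD K)
      (fun k y hy => hDanti K (K + k) (Nat.le_add_right _ _) (hgD _ y hy))
      (fun k => (1 / 2) ^ (K + k)) (fun k => by positivity) (hs K)
  choose J hJ hJD hJe using h1
  have hAW : ∀ K, A ⊆ ⋃ k, Q (K + k) := by
    intro K a ha
    obtain ⟨k, hk, hk'⟩ := hinf ⟨a, ha⟩ K
    obtain ⟨j, rfl⟩ := Nat.exists_eq_add_of_le hk
    exact mem_iUnion.2 ⟨j, hk'⟩
  refine κ.limit_ext A hA f hf (fun K => ⋃ k, Q (K + k))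
    (fun K => isOpen_iUnion fun k => hQ _) hAW J hJ 4 (by norm_num) ?_ D hD hDanti
    (fun K y _ => hJD K y)
  intro K a
  have h2 := hJe K a (hAW K a.2) (f a) (fun k hk => hgf _ a hk)
  refine h2.trans (le_of_eq ?_)
  simp only [pow_add]
  rw [tsum_mul_left, tsum_geometric_of_lt_one (by norm_num) (by norm_num)]
  norm_num
  ring

end Con

/-- extension of maps with values in a normed space -/
theorem dugundji {Y : Type*} [TopologicalSpace Y] [TopologicalSpace.MetrizableSpace Y]
    {V : Type*} [NormedAddCommGroup V] [NormedSpace ℝ V]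
    (A : Set Y) (hA : IsClosed A) (f : A → V) (hf : Continuous f) :
    ∃ U : Y → V, Continuous U ∧ ∀ a : A, U a = f a := by
  classical
  let := TopologicalSpace.metrizableSpaceMetric Y
  by_cases hne : A.Nonempty
  swap
  · refine ⟨fun _ => 0, continuous_const, fun a => ?_⟩
    exact (hne ⟨a, a.2⟩).elim
  set X : Set Y := Aᶜ with hX
  set t : X → Set V := fun y => convexHull ℝ (f '' {a : A | dist (y : Y) a < 2 * Metric.infDist (y : Y) A})
    with ht
  obtain ⟨g, hg⟩ := exists_continuous_forall_mem_convex_of_local_const (X := X) (t := t)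
    (fun y => convex_convexHull ℝ _) (by
      intro x
      have hx : (x : Y) ∉ A := x.2
      have h1 : 0 < Metric.infDist (x : Y) A := (hA.notMem_iff_infDist_pos hne).1 hx
      obtain ⟨a, ha, h2⟩ := (Metric.infDist_lt_iff hne).1
        (show Metric.infDist (x : Y) A < 2 * Metric.infDist (x : Y) A by linarith)
      refine ⟨f ⟨a, ha⟩, ?_⟩
      have h3 : ∀ᶠ y : X in 𝓝 x, dist (y : Y) a < 2 * Metric.infDist (y : Y) A := by
        have c1 : Continuous (fun y : X => dist (y : Y) a) := by fun_prop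
        have c2 : Continuous (fun y : X => 2 * Metric.infDist (y : Y) A) :=
          continuous_const.mul ((Metric.continuous_infDist_pt A).comp continuous_subtype_val)
        exact c1.continuousAt.eventually_lt c2.continuousAt h2
      filter_upwards [h3] with y hy
      exact subset_convexHull ℝ _ ⟨⟨a, ha⟩, hy, rfl⟩)
  refine ⟨fun y => if h : y ∈ A then f ⟨y, h⟩ else g ⟨y, h⟩, ?_, fun a => by simp⟩
  rw [continuous_iff_continuousAt]
  intro y
  by_cases hy : y ∈ A
  · rw [Metric.continuousAt_iff']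
    intro ε hε
    have h1 := Metric.continuousAt_iff'.1 (hf.continuousAt (x := ⟨y, hy⟩)) (ε / 2) (by positivity)
    rw [Metric.eventually_nhds_iff] at h1
    obtain ⟨δ, hδ, h1⟩ := h1
    filter_upwards [Metric.ball_mem_nhds y (show 0 < δ / 3 by positivity)] with z hz
    rw [Metric.mem_ball] at hz
    simp only [hy, dite_true]
    by_cases hzA : z ∈ A
    · simp only [hzA, dite_true]
      have := h1 (y := ⟨z, hzA⟩) (by rw [Subtype.dist_eq]; simp only; linarith)
      linarith
    · simp only [hzA, dite_false]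
      have h2 := hg ⟨z, hzA⟩
      have h3 : t ⟨z, hzA⟩ ⊆ Metric.ball (f ⟨y, hy⟩) (ε / 2) := by
        refine convexHull_min ?_ (convex_ball _ _)
        rintro _ ⟨a, ha, rfl⟩
        rw [Metric.mem_ball]
        apply h1
        rw [Subtype.dist_eq]
        have ha' : dist z (a : Y) < 2 * Metric.infDist z A := ha
        have h4 : Metric.infDist z A ≤ dist z y := Metric.infDist_le_dist_of_mem hy
        have h5 := dist_triangle (a : Y) z y
        rw [dist_comm (a : Y) z] at h5
        simp only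
        linarith
      have h4 := h3 h2
      rw [Metric.mem_ball] at h4
      linarith
  · have h1 : ContinuousOn (fun y => if h : y ∈ A then f ⟨y, h⟩ else g ⟨y, h⟩) X := by
      rw [continuousOn_iff_continuous_domRestrict]
      refine g.continuous.congr fun z => ?_
      have hz : (z : Y) ∉ A := z.2
      simp [hz]
    exact h1.continuousAt (hA.isOpen_compl.mem_nhds hy)

end Pool.Agent.H662.HM
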