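import Pool.Agent.H662.HM.Main

/-!
# Small diffeomorphisms which separate two close points
-/

set_option autoImplicit false
set_option linter.unusedSectionVars false

open Set Topology Filter
open scoped BoundedContinuousFunction ContDiff

namespace Pool.Agent.H662.HM

variable (E : Type*) [NormedAddCommGroup E] [NormedSpace ℝ E] [FiniteDimensional ℝ E]
  [Nontrivial E]

theorem exists_shear : ∃ ρ : ℝ, 0 < ρ ∧ ∃ e : E, ‖e‖ = 1 ∧ ∀ δ : ℝ, 0 < δ → δ < 1 / 4 →
    ∃ Ψ : ℝ → HG E, (∀ r ∈ Icc 0 ρ, Ψ r ∈ HG.Sm 1) ∧ ContinuousOn Ψ (Icc 0 ρ) ∧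
      (∀ r ∈ Icc 0 ρ, HG.N (Ψ r) ≤ r) ∧
      ∀ r ∈ Icc 0 ρ, r ≤ ‖(Ψ r).1 (δ • e) - (Ψ r).1 0‖ := by
  borelize E
  obtain ⟨v, hv⟩ := exists_ne (0 : E)
  set e : E := (‖v‖)⁻¹ • v with he
  have hv' : 0 < ‖v‖ := norm_pos_iff.2 hv
  have he1 : ‖e‖ = 1 := by
    rw [he, norm_smul, norm_inv, norm_norm, inv_mul_cancel₀ hv'.ne']
  have he0 : ‖e‖ ≠ 0 := by
    rw [he1]
    exact one_ne_zero
  obtain ⟨l, hl1, hl⟩ := exists_dual_vector ℝ e he0
  have hle : l e = 1 := by rw [hl, he1]; rfl
  have hlv : ∀ x, |l x| ≤ ‖x‖ := fun x => by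
    have := l.le_opNorm x
    rwa [hl1, one_mul] at this
  -- the fixed bump
  set β : ContDiffBump (0 : E) := ⟨1 / 4, 1 / 2, by norm_num, by norm_num⟩ with hβ
  have hβs : ContDiff ℝ ∞ (β : E → ℝ) := β.contDiff
  have hβc : HasCompactSupport (β : E → ℝ) := β.hasCompactSupport
  obtain ⟨C, hC⟩ := hβs.lipschitzWith_of_hasCompactSupport hβc (by simp)
  have hC' : ∀ x y, |β x - β y| ≤ C * ‖x - y‖ := fun x y => by
    have := hC.dist_le_mul x y
    rwa [Real.dist_eq, dist_eq_norm] at this
  have hβ0 : ∀ x, 0 ≤ β x := fun x => β.nonneg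
  have hβ1 : ∀ x, β x ≤ 1 := fun x => β.le_one
  refine ⟨1 / (2 * ((C : ℝ) + 1)), by positivity, e, he1, ?_⟩
  intro δ hδ hδ1
  set b : E → ℝ := fun x => β x * Real.smoothTransition (l x / δ) with hb
  have hbs : ContDiff ℝ ∞ b := by
    refine hβs.mul ?_
    refine Real.smoothTransition.contDiff.comp ?_
    exact (l.contDiff).div_const δ
  have hbc : HasCompactSupport b := hβc.mul_right
  obtain ⟨L, hL⟩ := hbs.lipschitzWith_of_hasCompactSupport hbc (by simp)
  have hL' : ∀ x y, |b x - b y| ≤ L * ‖x - y‖ := fun x y => by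
    have := hL.dist_le_mul x y
    rwa [Real.dist_eq, dist_eq_norm] at this
  have hb0 : ∀ x, 0 ≤ b x := fun x => mul_nonneg (hβ0 x) (Real.smoothTransition.nonneg _)
  have hb1 : ∀ x, b x ≤ 1 := fun x =>
    mul_le_one₀ (hβ1 x) (Real.smoothTransition.nonneg _) (Real.smoothTransition.le_one _)
  have hbfar : ∀ x, 1 ≤ ‖x‖ → b x = 0 := by
    intro x hx
    have h1 : β x = 0 := by
      apply β.zero_of_le_dist
      rw [dist_zero_right]
      show 1 / 2 ≤ ‖x‖
      linarith
    simp only [hb]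
    rw [h1, zero_mul]
  have hbe : ∀ y τ, 0 ≤ τ → -(C : ℝ) * τ ≤ b (y + τ • e) - b y := by
    intro y τ hτ
    have h1 : Real.smoothTransition (l y / δ) ≤ Real.smoothTransition (l (y + τ • e) / δ) := by
      apply Real.smoothTransition.monotone
      rw [map_add, map_smul, hle, smul_eq_mul, mul_one]
      gcongr
      linarith
    have h2 : β (y + τ • e) * Real.smoothTransition (l y / δ) ≤ b (y + τ • e) :=
      mul_le_mul_of_nonneg_left h1 (hβ0 _)
    have h3 := hC' (y + τ • e) y
    rw [add_sub_cancel_left, norm_smul, he1, Real.norm_of_nonneg hτ, mul_one] at h3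
    have h4 := abs_le.1 h3
    have h5 : b y = β y * Real.smoothTransition (l y / δ) := rfl
    have h6 := Real.smoothTransition.nonneg (l y / δ)
    have h7 := Real.smoothTransition.le_one (l y / δ)
    have h8 : -(C * τ) ≤ (β (y + τ • e) - β y) * Real.smoothTransition (l y / δ) := by
      have h9 : 0 ≤ (C : ℝ) * τ := by positivity
      nlinarith [h4.1, h4.2]
    nlinarith
  -- the maps
  have hG : ∀ r ∈ Icc (0 : ℝ) (1 / (2 * ((C : ℝ) + 1))), ∃ h : HG E,
      (∀ x, h.1 x = x + (r * b x) • e) ∧ h ∈ HG.Sm 1 := by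
    intro r hr
    have hr1 : r ≤ 1 := by
      refine hr.2.trans ?_
      rw [div_le_one (by positivity)]
      have : (0 : ℝ) ≤ C := C.2
      linarith
    have hrC : r * C ≤ 1 / 2 := by
      have h1 := hr.2
      rw [le_div_iff₀ (by positivity)] at h1
      have h2 : (0 : ℝ) ≤ C := C.2
      nlinarith [hr.1]
    have hs : ContDiff ℝ ∞ (fun x => x + (r * b x) • e) :=
      contDiff_id.add ((contDiff_const.mul hbs).smul contDiff_const)
    have key : ∀ x y, 0 ≤ l (x - y) → ‖x - y‖ ≤ (4 + 4 * L) *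
        ‖(x + (r * b x) • e) - (y + (r * b y) • e)‖ := by
      intro x y hxy
      set D := (x + (r * b x) • e) - (y + (r * b y) • e) with hD
      set τ := l (x - y) with hτ
      have hD' : D = (x - y) + (r * (b x - b y)) • e := by
        rw [hD, mul_sub, sub_smul]; abel
      have hlD : l D = τ + r * (b x - b y) := by
        rw [hD', map_add, map_smul, hle, smul_eq_mul, mul_one]
      have hπ : D - l D • e = (x - y) - τ • e := by
        rw [hlD, hD', add_smul]; abel
      have hπn : ‖(x - y) - τ • e‖ ≤ 2 * ‖D‖ := by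
        rw [← hπ]
        refine (norm_sub_le _ _).trans ?_
        rw [norm_smul, he1, mul_one]
        have := hlv D
        rw [Real.norm_eq_abs]
        linarith
      have h1 := hbe y τ hxy
      have h2 := hL' x (y + τ • e)
      have h3 : x - (y + τ • e) = (x - y) - τ • e := by abel
      rw [h3] at h2
      have h4 := (abs_le.1 h2).1
      have h5 := (abs_le.1 (hlv D)).2
      have hL0 : (0 : ℝ) ≤ L := L.2
      have h6 : (L : ℝ) * ‖(x - y) - τ • e‖ ≤ L * (2 * ‖D‖) := mul_le_mul_of_nonneg_left hπn hL0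
      have h7 : -(L * (2 * ‖D‖)) - C * τ ≤ b x - b y := by linarith
      have h8 : τ - 1 / 2 * τ - L * (2 * ‖D‖) ≤ l D := by
        rw [hlD]
        have h9 : r * (-(L * (2 * ‖D‖)) - C * τ) ≤ r * (b x - b y) :=
          mul_le_mul_of_nonneg_left h7 hr.1
        have h10 : r * (L * (2 * ‖D‖)) ≤ 1 * (L * (2 * ‖D‖)) :=
          mul_le_mul_of_nonneg_right hr1 (by positivity)
        have h11 : r * C * τ ≤ 1 / 2 * τ := mul_le_mul_of_nonneg_right hrC hxy
        nlinarith
      have h12 : ‖x - y‖ ≤ ‖(x - y) - τ • e‖ + τ := by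
        have := norm_add_le ((x - y) - τ • e) (τ • e)
        rw [sub_add_cancel, norm_smul, he1, mul_one, Real.norm_of_nonneg hxy] at this
        exact this
      nlinarith [norm_nonneg D]
    have key' : ∀ x y, ‖x - y‖ ≤ (4 + 4 * L) *
        ‖(x + (r * b x) • e) - (y + (r * b y) • e)‖ := by
      intro x y
      rcases le_total 0 (l (x - y)) with h | h
      · exact key x y h
      · rw [norm_sub_rev x y, norm_sub_rev (x + (r * b x) • e)]
        apply key y x
        have : l (y - x) = - l (x - y) := by rw [← map_neg, neg_sub]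
        rw [this]
        linarith
    refine exists_homeo_of_smooth hs (m := 1 / (4 + 4 * L)) (by positivity) ?_ (by norm_num) ?_
    · intro x y
      have h1 := key' x y
      have h2 : min ‖x - y‖ 1 ≤ ‖x - y‖ := min_le_left _ _
      rw [div_mul_eq_mul_div, one_mul, div_le_iff₀ (by positivity)]
      linarith
    · intro x hx
      rw [hbfar x hx]
      simp
  classical
  set Ψ : ℝ → HG E := fun r =>
    if hr : r ∈ Icc (0 : ℝ) (1 / (2 * ((C : ℝ) + 1))) then (hG r hr).choose else 1 with hΨ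
  have hΨr : ∀ r (hr : r ∈ Icc (0 : ℝ) (1 / (2 * ((C : ℝ) + 1)))),
      (∀ x, (Ψ r).1 x = x + (r * b x) • e) ∧ Ψ r ∈ HG.Sm 1 := by
    intro r hr
    have h1 : Ψ r = (hG r hr).choose := dif_pos hr
    rw [h1]
    exact (hG r hr).choose_spec
  refine ⟨Ψ, fun r hr => (hΨr r hr).2, ?_, ?_, ?_⟩
  · rw [Metric.continuousOn_iff]
    intro r hr ε hε
    refine ⟨ε, hε, fun r' hr' h => lt_of_le_of_lt ?_ h⟩
    rw [HG.dist_le_iff dist_nonneg]
    intro x
    rw [(hΨr r hr).1, (hΨr r' hr').1]
    have h1 : x + (r' * b x) • e - (x + (r * b x) • e) = ((r' - r) * b x) • e := by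
      rw [sub_mul, sub_smul]; abel
    rw [h1, norm_smul, he1, mul_one, norm_mul, Real.dist_eq, Real.norm_eq_abs, Real.norm_eq_abs,
      abs_of_nonneg (hb0 x)]
    have := hb1 x
    nlinarith [abs_nonneg (r' - r)]
  · intro r hr
    rw [HG.N_le_iff hr.1]
    intro x
    rw [(hΨr r hr).1, add_sub_cancel_left, norm_smul, he1, mul_one, norm_mul,
      Real.norm_of_nonneg hr.1, Real.norm_of_nonneg (hb0 x)]
    have := hb1 x
    nlinarith [hr.1]
  · intro r hr
    rw [(hΨr r hr).1, (hΨr r hr).1]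
    have h1 : b (δ • e) = 1 := by
      have h2 : β (δ • e) = 1 := by
        apply β.one_of_mem_closedBall
        rw [mem_closedBall_zero_iff, norm_smul, he1, mul_one, Real.norm_of_nonneg hδ.le]
        show δ ≤ 1 / 4
        exact hδ1.le
      simp only [hb]
      rw [h2, one_mul, map_smul, hle, smul_eq_mul, mul_one, div_self hδ.ne']
      exact Real.smoothTransition.one_of_one_le le_rfl
    have h3 : b 0 = 0 := by
      simp only [hb]
      rw [map_zero, zero_div]
      rw [Real.smoothTransition.zero_of_nonpos le_rfl, mul_zero]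
    rw [h1, h3]
    have h4 : δ • e + (r * 1) • e - (0 + (r * 0) • e) = (δ + r) • e := by
      rw [mul_one, mul_zero, zero_smul, add_zero, sub_zero, add_smul]
    rw [h4, norm_smul, he1, mul_one, Real.norm_of_nonneg (by linarith [hr.1])]
    linarith

end Pool.Agent.H662.HM
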