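import Pool.Agent.H662.HM.Grp

/-!
# Smoothing operators
-/

set_option autoImplicit false
set_option linter.unusedSectionVars false

open Set Topology Filter MeasureTheory Measure
open scoped BoundedContinuousFunction ContDiff Convolution

namespace Pool.Agent.H662.HM

variable {E : Type*} [NormedAddCommGroup E] [NormedSpace ℝ E] [FiniteDimensional ℝ E]
  [MeasurableSpace E] [BorelSpace E]

variable (E) in
/-- a fixed bump -/
noncomputable def bmp : ContDiffBump (0 : E) := ⟨1 / 4, 1 / 2, by norm_num, by norm_num⟩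

/-- the normed bump -/
noncomputable def phi (x : E) : ℝ := (bmp E).normed addHaar x

theorem phi_nonneg (x : E) : 0 ≤ phi x := (bmp E).nonneg_normed x

theorem phi_neg (x : E) : phi (-x) = phi x := (bmp E).normed_neg x

theorem integral_phi : ∫ x : E, phi x ∂addHaar = 1 := (bmp E).integral_normed

theorem phi_eq_zero {x : E} (hx : 1 / 2 ≤ ‖x‖) : phi x = 0 := by
  have h1 : Function.support (phi : E → ℝ) = Metric.ball (0 : E) (bmp E).rOut :=
    (bmp E).support_normed_eq (μ := addHaar)
  by_contra h
  have h2 : x ∈ Function.support (phi : E → ℝ) := h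
  rw [h1, mem_ball_zero_iff] at h2
  have h3 : (bmp E).rOut = 1 / 2 := rfl
  rw [h3] at h2
  linarith

theorem contDiff_phi : ContDiff ℝ ∞ (phi : E → ℝ) := (bmp E).contDiff_normed

theorem continuous_phi : Continuous (phi : E → ℝ) := contDiff_phi.continuous

theorem hasCompactSupport_phi : HasCompactSupport (phi : E → ℝ) := (bmp E).hasCompactSupport_normed

variable (E) in
theorem exists_lip_phi : ∃ L : ℝ, 0 ≤ L ∧ ∀ x y : E, ‖phi x - phi y‖ ≤ L * ‖x - y‖ := by
  obtain ⟨C, hC⟩ := (contDiff_phi (E := E)).lipschitzWith_of_hasCompactSupport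
    (hasCompactSupport_phi (E := E)) (by simp)
  refine ⟨C, C.2, fun x y => ?_⟩
  have := hC.dist_le_mul x y
  rwa [dist_eq_norm, dist_eq_norm] at this

theorem integrable_phi_smul {q : E → E} (hq : Continuous q) (s : ℝ) (x : E) :
    Integrable (fun v => phi v • q (x + s • v)) addHaar := by
  refine Continuous.integrable_of_hasCompactSupport ?_ ?_
  · exact continuous_phi.smul (hq.comp (by fun_prop))
  · exact hasCompactSupport_phi.smul_right

/-- the smoothing operator -/
noncomputable def T (s : ℝ) (q : E → E) (x : E) : E := ∫ v, phi v • q (x + s • v) ∂addHaar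

theorem T_add {q r : E → E} (hq : Continuous q) (hr : Continuous r) (s : ℝ) (x : E) :
    T s (fun y => q y + r y) x = T s q x + T s r x := by
  unfold T
  rw [← integral_add (integrable_phi_smul hq s x) (integrable_phi_smul hr s x)]
  simp only [smul_add]

theorem T_sub {q r : E → E} (hq : Continuous q) (hr : Continuous r) (s : ℝ) (x : E) :
    T s (fun y => q y - r y) x = T s q x - T s r x := by
  unfold T
  rw [← integral_sub (integrable_phi_smul hq s x) (integrable_phi_smul hr s x)]
  simp only [smul_sub]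

theorem T_const (s : ℝ) (c x : E) : T s (fun _ => c) x = c := by
  unfold T
  rw [integral_smul_const, integral_phi, one_smul]

theorem T_comp {q : E → E} (hq : Continuous q) (L : E →L[ℝ] E) (s : ℝ) (x : E) :
    T s (fun y => L (q y)) x = L (T s q x) := by
  unfold T
  rw [← L.integral_comp_comm (integrable_phi_smul hq s x)]
  simp only [map_smul]

theorem T_id (s : ℝ) (x : E) : T s (fun y => y) x = x := by
  have h0 : ∫ v : E, phi v • v ∂addHaar = 0 := by
    have h1 := integral_neg_eq_self (fun v : E => phi v • v) addHaar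
    simp only [phi_neg, smul_neg] at h1
    rw [integral_neg] at h1
    have h2 : (2 : ℝ) • ∫ v : E, phi v • v ∂addHaar = 0 := by
      rw [two_smul]
      nth_rewrite 1 [← h1]
      exact neg_add_cancel _
    exact (smul_eq_zero.1 h2).resolve_left (by norm_num)
  unfold T
  have h2 : (fun v : E => phi v • (x + s • v)) = fun v => phi v • x + s • (phi v • v) := by
    ext v
    rw [smul_add, smul_comm]
  have hi1 : Integrable (fun v : E => phi v • x) addHaar := by
    refine Continuous.integrable_of_hasCompactSupport ?_ ?_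
    · exact continuous_phi.smul continuous_const
    · exact hasCompactSupport_phi.smul_right
  have hi2 : Integrable (fun v : E => s • (phi v • v)) addHaar := by
    refine Integrable.smul s ?_
    refine Continuous.integrable_of_hasCompactSupport ?_ ?_
    · exact continuous_phi.smul continuous_id
    · exact hasCompactSupport_phi.smul_right
  rw [h2, integral_add hi1 hi2, integral_smul, h0, smul_zero, add_zero, integral_smul_const,
    integral_phi, one_smul]

theorem T_bound {q : E → E} {s M : ℝ} {x : E} (hs : 0 ≤ s)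
    (h : ∀ v, ‖v‖ ≤ s / 2 → ‖q (x + v)‖ ≤ M) : ‖T s q x‖ ≤ M := by
  have hi : Integrable (phi : E → ℝ) addHaar :=
    continuous_phi.integrable_of_hasCompactSupport hasCompactSupport_phi
  unfold T
  have h1 : ‖∫ v, phi v • q (x + s • v) ∂addHaar‖ ≤ ∫ v : E, phi v * M ∂addHaar := by
    refine norm_integral_le_of_norm_le (hi.mul_const M) (Eventually.of_forall fun v => ?_)
    rw [norm_smul, Real.norm_of_nonneg (phi_nonneg v)]
    by_cases hv : 1 / 2 ≤ ‖v‖
    · rw [phi_eq_zero hv]; simp
    · refine mul_le_mul_of_nonneg_left (h _ ?_) (phi_nonneg v)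
      rw [norm_smul, Real.norm_of_nonneg hs]
      have := not_le.1 hv
      nlinarith
  rwa [integral_mul_const, integral_phi, one_mul] at h1

theorem T_congr {q r : E → E} {s : ℝ} {x : E} (h : ∀ v, q (x + v) = r (x + v)) :
    T s q x = T s r x := by
  unfold T
  simp only [h]

theorem T_eq_zero {q : E → E} {s : ℝ} {x : E} (hs : 0 ≤ s)
    (h : ∀ v, ‖v‖ ≤ s / 2 → q (x + v) = 0) : T s q x = 0 := by
  have := T_bound (q := q) (s := s) (M := 0) (x := x) hs (fun v hv => by rw [h v hv]; simp)
  exact norm_le_zero_iff.1 this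

variable (E) in
theorem exists_T_lip : ∃ C : ℝ, 1 ≤ C ∧ ∀ (q : E → E) (s M : ℝ) (x w : E), Continuous q → 0 < s →
    ‖w‖ ≤ s / 2 → (∀ v, ‖v‖ ≤ s → ‖q (x + v)‖ ≤ M) →
    ‖T s q (x + w) - T s q x‖ ≤ C * (M / s) * ‖w‖ := by
  obtain ⟨L, hL0, hL⟩ := exists_lip_phi E
  set V : ℝ := (addHaar : Measure E).real (Metric.closedBall (0 : E) 1) with hV
  have hV0 : 0 ≤ V := measureReal_nonneg
  refine ⟨max 1 (L * V), le_max_left _ _, ?_⟩
  intro q s M x w hq hs hw hM
  have hM0 : 0 ≤ M := (norm_nonneg _).trans (hM 0 (by simpa using hs.le))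
  have h1 : T s q (x + w) = ∫ v, phi (v - s⁻¹ • w) • q (x + s • v) ∂addHaar := by
    unfold T
    rw [← integral_sub_right_eq_self (fun v : E => phi v • q (x + w + s • v)) (s⁻¹ • w)]
    congr 1
    ext v
    rw [smul_sub, smul_inv_smul₀ hs.ne']
    congr 2
    abel
  have hi1 : Integrable (fun v => phi (v - s⁻¹ • w) • q (x + s • v)) addHaar := by
    have h2 := (integrable_phi_smul hq s (x + w)).comp_sub_right (s⁻¹ • w)
    refine h2.congr (Eventually.of_forall fun v => ?_)
    simp only
    rw [smul_sub, smul_inv_smul₀ hs.ne']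
    congr 2
    abel
  have h2 : T s q (x + w) - T s q x =
      ∫ v, (phi (v - s⁻¹ • w) - phi v) • q (x + s • v) ∂addHaar := by
    rw [h1]
    unfold T
    rw [← integral_sub hi1 (integrable_phi_smul hq s x)]
    simp only [sub_smul]
  rw [h2]
  have hsw : ‖s⁻¹ • w‖ ≤ 1 / 2 := by
    rw [norm_smul, norm_inv, Real.norm_of_nonneg hs.le, inv_mul_le_iff₀ hs]
    linarith
  have h3 : ‖∫ v, (phi (v - s⁻¹ • w) - phi v) • q (x + s • v) ∂addHaar‖ ≤
      ∫ v, (Metric.closedBall (0 : E) 1).indicator (fun _ => L * ‖s⁻¹ • w‖ * M) v ∂addHaar := by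
    refine norm_integral_le_of_norm_le ?_ (Eventually.of_forall fun v => ?_)
    · refine (integrable_indicator_iff measurableSet_closedBall).2 ?_
      refine integrableOn_const ?_
      exact (isCompact_closedBall (0 : E) 1).measure_lt_top.ne
    · by_cases hv : v ∈ Metric.closedBall (0 : E) 1
      · rw [indicator_of_mem hv, norm_smul]
        have e1 : ‖phi (v - s⁻¹ • w) - phi v‖ ≤ L * ‖s⁻¹ • w‖ := by
          have := hL (v - s⁻¹ • w) v
          rwa [sub_sub_cancel_left, norm_neg] at this
        have e2 : ‖q (x + s • v)‖ ≤ M := by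
          apply hM
          rw [norm_smul, Real.norm_of_nonneg hs.le]
          rw [mem_closedBall_zero_iff] at hv
          nlinarith
        exact mul_le_mul e1 e2 (norm_nonneg _) (by positivity)
      · rw [indicator_of_notMem hv]
        rw [mem_closedBall_zero_iff, not_le] at hv
        have e1 : phi v = 0 := phi_eq_zero (by linarith)
        have e2 : phi (v - s⁻¹ • w) = 0 := by
          apply phi_eq_zero
          have := norm_sub_norm_le v (s⁻¹ • w)
          linarith
        rw [e1, e2]
        simp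
  refine h3.trans ?_
  rw [integral_indicator_const _ measurableSet_closedBall]
  rw [norm_smul, norm_inv, Real.norm_of_nonneg hs.le, smul_eq_mul]
  have h4 : V * (L * (s⁻¹ * ‖w‖) * M) = (L * V) * (M / s) * ‖w‖ := by
    rw [div_eq_mul_inv]; ring
  rw [← hV, h4]
  have h5 : L * V ≤ max 1 (L * V) := le_max_right _ _
  have h6 : 0 ≤ M / s := by positivity
  gcongr

theorem contDiff_T {q : E → E} (hq : Continuous q) {s : ℝ} (hs : 0 < s) :
    ContDiff ℝ ∞ (T s q) := by
  set ψ : E → ℝ := fun w => phi ((-s)⁻¹ • w) with hψ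
  have hs' : (-s)⁻¹ ≠ 0 := inv_ne_zero (by linarith)
  have h1 : ContDiff ℝ ∞ ψ := contDiff_phi.comp (contDiff_id.const_smul _)
  have h2 : HasCompactSupport ψ := hasCompactSupport_phi.comp_smul hs'
  have h3 : ContDiff ℝ ∞ (ψ ⋆[ContinuousLinearMap.lsmul ℝ ℝ, addHaar] q) :=
    h2.contDiff_convolution_left _ h1 hq.locallyIntegrable
  have h4 : T s q = fun x => |((-s) ^ Module.finrank ℝ E)⁻¹| •
      (ψ ⋆[ContinuousLinearMap.lsmul ℝ ℝ, addHaar] q) x := by
    ext x
    have h5 := integral_comp_smul (addHaar : Measure E)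
      (fun w => ψ w • q (x - w)) (-s)
    unfold T
    rw [convolution_def]
    simp only [ContinuousLinearMap.lsmul_apply]
    rw [← h5]
    congr 1
    ext v
    simp only [hψ]
    rw [inv_smul_smul₀ (by linarith : -s ≠ 0)]
    congr 2
    rw [neg_smul]
    abel
  rw [h4]
  exact h3.const_smul _

end Pool.Agent.H662.HM
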