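import Pool.Agent.H662.HM.Norm
import Pool.Agent.H662.HM.Def2

/-!
# Thin sets: the sets on which a map can be approximated by maps defined on open sets, with
summable errors
-/

set_option autoImplicit false
set_option linter.unusedSectionVars false

open Set Topology Filter
open scoped ENNReal

namespace Pool.Agent.H662.HM

namespace Con

variable {G : Type*} [Group G] [TopologicalSpace G] [IsTopologicalGroup G] (κ : Con G)

/-- thin subsets of the domain of `f` -/
def Thin (D : ℝ → Set G) {Y : Type*} [TopologicalSpace Y] {A : Set Y} (f : A → G) (P : Set A) :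
    Prop :=
  ∀ ε > 0, ∃ (Q : ℕ → Set Y) (g : ℕ → Y → G) (e : ℕ → ℝ), (∀ k, IsOpen (Q k)) ∧
    (∀ k, ContinuousOn (g k) (Q k)) ∧ (∀ k, 0 ≤ e k) ∧ Summable e ∧ ∑' k, e k ≤ ε ∧
    (∀ k, ∀ a : A, (a : Y) ∈ Q k → κ.dL (g k a) (f a) ≤ e k) ∧ (∀ a ∈ P, ∃ k, (a : Y) ∈ Q k) ∧
    ∀ k, ∀ y ∈ Q k, g k y ∈ D ε

theorem Thin.iUnion {D : ℝ → Set G} (hD : Monotone D) {Y : Type*} [TopologicalSpace Y]
    {A : Set Y} {f : A → G} {P : ℕ → Set A}
    (h : ∀ j, κ.Thin D f (P j)) : κ.Thin D f (⋃ j, P j) := by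
  intro ε hε
  have h1 : ∀ j : ℕ, 0 < ε / 2 / 2 ^ j := fun j => by positivity
  have h1' : ∀ j : ℕ, ε / 2 / 2 ^ j ≤ ε := fun j => by
    have h2 : (1 : ℝ) ≤ 2 ^ j := one_le_pow₀ (by norm_num)
    rw [div_le_iff₀ (by positivity)]
    nlinarith
  choose Q g e hQ hg he0 hes heε hd hcov hgD using fun j => h j (ε / 2 / 2 ^ j) (h1 j)
  have hsum : Summable (fun p : ℕ × ℕ => e p.1 p.2) := by
    refine (summable_prod_of_nonneg fun p => he0 _ _).2 ⟨fun j => hes j, ?_⟩
    refine Summable.of_nonneg_of_le (fun j => tsum_nonneg fun k => he0 j k) (fun j => heε j) ?_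
    exact summable_geometric_two' ε
  refine ⟨fun m => Q (Nat.unpair m).1 (Nat.unpair m).2, fun m => g (Nat.unpair m).1 (Nat.unpair m).2,
    fun m => e (Nat.unpair m).1 (Nat.unpair m).2, fun m => hQ _ _, fun m => hg _ _,
    fun m => he0 _ _, ?_, ?_, fun m a ha => hd _ _ a ha, ?_,
    fun m y hy => hD (h1' _) (hgD _ _ y hy)⟩
  · exact (Nat.pairEquiv.symm.summable_iff (f := fun p : ℕ × ℕ => e p.1 p.2)).2 hsum
  · have h2 : ∑' m : ℕ, e (Nat.unpair m).1 (Nat.unpair m).2 = ∑' p : ℕ × ℕ, e p.1 p.2 :=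
      Nat.pairEquiv.symm.tsum_eq (fun p : ℕ × ℕ => e p.1 p.2)
    rw [h2, hsum.tsum_prod]
    have h3 : ∑' j, ∑' k, e j k ≤ ∑' j : ℕ, ε / 2 / 2 ^ j := by
      refine Summable.tsum_le_tsum heε ?_ (summable_geometric_two' ε)
      exact Summable.of_nonneg_of_le (fun j => tsum_nonneg fun k => he0 j k) (fun j => heε j)
        (summable_geometric_two' ε)
    rw [tsum_geometric_two'] at h3
    exact h3
  · intro a ha
    obtain ⟨j, hj⟩ := mem_iUnion.1 ha
    obtain ⟨k, hk⟩ := hcov j a hj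
    refine ⟨Nat.pair j k, ?_⟩
    show (a : Y) ∈ Q (Nat.unpair (Nat.pair j k)).1 (Nat.unpair (Nat.pair j k)).2
    rw [Nat.unpair_pair]
    exact hk

theorem Thin.ext {D : ℝ → Set G} (hD : Monotone D) (hDc : ∀ ε > 0, κ.Cx (D ε)) {Y : Type*}
    [TopologicalSpace Y] [TopologicalSpace.MetrizableSpace Y]
    {A : Set Y} (hA : IsClosed A) {f : A → G} (hf : Continuous f) (h : κ.Thin D f univ) :
    ∃ (F : Y → G) (θ : Y → ℝ), Continuous F ∧ Continuous θ ∧ (∀ y ∈ A, θ y = 0) ∧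
      (∀ y, y ∉ A → 0 < θ y) ∧ (∀ a : A, F a = f a) ∧ (∀ y, y ∉ A → F y ∈ D ((1 / 2) ^ 0)) ∧
      (∀ y, y ∉ A → ∀ M : ℕ, θ y < (1 / 2) ^ M → F y ∈ D ((1 / 2) ^ M)) := by
  choose Q g e hQ hg he0 hes heε hd hcov hgD using
    fun K : ℕ => h ((1 / 2) ^ K) (by positivity)
  have h1 : ∀ K : ℕ, ∃ J : Y → G, ContinuousOn J (⋃ k, Q K k) ∧ (∀ y, J y ∈ D ((1 / 2) ^ K)) ∧
      ∀ y ∈ ⋃ k, Q K k, ∀ z, (∀ k, y ∈ Q K k → κ.dL (g K k y) z ≤ e K k) →
        κ.dL (J y) z ≤ 2 * ∑' k : ℕ, e K k := fun K =>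
    κ.glue (Q K) (hQ K) (g K) (hg K) _ (hDc _ (by positivity))
      (fun k y hy => hgD K k y hy) (e K) (he0 K) (hes K)
  choose J hJ hJD hJe using h1
  have hAW : ∀ K, A ⊆ ⋃ k, Q K k := by
    intro K a ha
    obtain ⟨k, hk⟩ := hcov K ⟨a, ha⟩ (mem_univ _)
    exact mem_iUnion.2 ⟨k, hk⟩
  exact κ.limit_ext A hA f hf (fun K => ⋃ k, Q K k)
    (fun K => isOpen_iUnion fun k => hQ K k) hAW J hJ 2 (by norm_num) (by
      intro K a
      have h2 := hJe K a (hAW K a.2) (f a) (fun k hk => hd K k a hk)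
      have h3 := heε K
      linarith) (fun K => D ((1 / 2) ^ K)) (fun _ => hDc _ (by positivity))
    (fun k l hkl => hD (pow_le_pow_of_le_one (by norm_num) (by norm_num) hkl))
    (fun K y _ => hJD K y)

/-- the part of the domain where the values of an extended map are good is thin -/
theorem Thin.of_op (D : ℝ → Set G) {Y : Type*} [TopologicalSpace Y] {A : Set Y} {f : A → G}
    (hf : Continuous f)
    (W : ℕ → Set Y) (hW : ∀ k, IsOpen (W k)) (g : ℕ → Y → G) (hg : ∀ k, ContinuousOn (g k) (W k))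
    (e : ℕ → ℝ) (he0 : ∀ k, 0 ≤ e k) (hes : Summable e) (P : Set A)
    (hP : ∀ a ∈ P, ∀ K : ℕ, ∃ k, K ≤ k ∧ (a : Y) ∈ W k ∧ κ.dL (g k a) (f a) < e k)
    (hgD : ∀ ε > 0, ∃ K : ℕ, ∀ k, K ≤ k → ∀ y ∈ W k, g k y ∈ D ε) :
    κ.Thin D f P := by
  intro ε hε
  have hPo : ∀ k, IsOpen {a : A | (a : Y) ∈ W k ∧ κ.dL (g k a) (f a) < e k} := by
    intro k
    have h1 : ContinuousOn (fun a : A => κ.dL (g k a) (f a)) (Subtype.val ⁻¹' (W k)) :=
      κ.continuous_dL.comp_continuousOn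
        (((hg k).comp continuous_subtype_val.continuousOn (fun a ha => ha)).prodMk
          hf.continuousOn)
    exact h1.isOpen_inter_preimage ((hW k).preimage continuous_subtype_val)
      (isOpen_Iio (a := e k))
  have hO : ∀ k, ∃ O : Set Y, IsOpen O ∧ (Subtype.val : A → Y) ⁻¹' O =
        {a : A | (a : Y) ∈ W k ∧ κ.dL (g k a) (f a) < e k} := fun k =>
    isOpen_induced_iff.1 (hPo k)
  choose O hOo hOP using hO
  have hOP' : ∀ k (a : A), (a : Y) ∈ O k ↔ ((a : Y) ∈ W k ∧ κ.dL (g k a) (f a) < e k) := by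
    intro k a
    have h1 : a ∈ (Subtype.val : A → Y) ⁻¹' (O k) ↔ (a : Y) ∈ O k := Iff.rfl
    rw [← h1, hOP k]
    rfl
  obtain ⟨K, hK, hKD⟩ : ∃ K : ℕ, ∑' k, e (k + K) < ε ∧ ∀ k, K ≤ k → ∀ y ∈ W k, g k y ∈ D ε := by
    have h1 := tendsto_sum_nat_add e
    obtain ⟨K', hK'⟩ := hgD ε hε
    obtain ⟨K, hK, hKK⟩ := ((h1.eventually_lt_const hε).and (eventually_ge_atTop K')).exists
    exact ⟨K, hK, fun k hk => hK' k (hKK.trans hk)⟩
  refine ⟨fun k => O (k + K) ∩ W (k + K), fun k => g (k + K), fun k => e (k + K),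
    fun k => (hOo _).inter (hW _), fun k => (hg _).mono inter_subset_right, fun k => he0 _,
    (summable_nat_add_iff K).2 hes, hK.le, fun k a ha => ((hOP' _ a).1 ha.1).2.le, ?_,
    fun k y hy => hKD _ (Nat.le_add_left _ _) y hy.2⟩
  intro a ha
  obtain ⟨k, hk, h1, h2⟩ := hP a ha K
  obtain ⟨j, rfl⟩ := Nat.exists_eq_add_of_le' hk
  exact ⟨j, (hOP' _ a).2 ⟨h1, h2⟩, h1⟩

/-- subsets on which the map extends are thin -/
theorem Thin.of_extends (D : ℝ → Set G) {Y : Type*} [TopologicalSpace Y] {A : Set Y} {f : A → G}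
    (hf : Continuous f) (F : Y → G) (hF : Continuous F) (P : Set A) (hP : ∀ a ∈ P, F a = f a)
    (hFD : ∀ ε > 0, ∀ y, F y ∈ D ε) : κ.Thin D f P := by
  refine Thin.of_op κ D hf (fun _ => univ) (fun _ => isOpen_univ) (fun _ => F)
    (fun _ => hF.continuousOn) (fun k => (1 / 2) ^ k) (fun k => by positivity)
    (summable_geometric_of_lt_one (by norm_num) (by norm_num)) P ?_
    (fun ε hε => ⟨0, fun _ _ y _ => hFD ε hε y⟩)
  intro a ha K
  refine ⟨K, le_rfl, mem_univ _, ?_⟩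
  rw [hP a ha, κ.dL_self]
  positivity

/-- subsets with property C are thin -/
theorem Thin.of_propC (D : ℝ → Set G) {Y : Type*} [TopologicalSpace Y]
    [TopologicalSpace.MetrizableSpace Y]
    {A : Set Y} {f : A → G} (hf : Continuous f) (P : Set A) (hP : PropC P)
    (hfD : ∀ ε > 0, ∀ a, f a ∈ D ε) (h1D : ∀ ε > 0, (1 : G) ∈ D ε) : κ.Thin D f P := by
  classical
  let := TopologicalSpace.metrizableSpaceMetric Y
  intro ε hε
  set e : ℕ → ℝ := fun i => ε / 2 / 2 ^ i with he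
  have he0 : ∀ i, 0 < e i := fun i => by positivity
  obtain ⟨V, hV, hVd, hVc⟩ := hP (fun i => range fun p₀ : P => {p : P | κ.dL (f p₀) (f p) < e i / 2})
    (by
      rintro i _ ⟨p₀, rfl⟩
      have h1 : Continuous fun p : P => κ.dL (f p₀) (f p) :=
        κ.continuous_dL.comp (continuous_const.prodMk (hf.comp continuous_subtype_val))
      exact isOpen_lt h1 continuous_const)
    (by
      intro i
      ext p
      simp only [mem_univ, iff_true]
      refine ⟨_, ⟨p, rfl⟩, ?_⟩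
      show κ.dL (f p) (f p) < _
      rw [κ.dL_self]
      have := he0 i
      positivity)
  -- the extension operator for open sets
  set j : P → Y := fun p => ((p : A) : Y) with hj
  have hjc : Continuous j := continuous_subtype_val.comp continuous_subtype_val
  have hji : IsInducing j := IsInducing.subtypeVal.comp IsInducing.subtypeVal
  set ex : Set P → Set Y := fun v =>
    {y | Metric.infEDist y (j '' v) < Metric.infEDist y (j '' vᶜ)} with hex
  have hexo : ∀ v, IsOpen (ex v) := fun v =>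
    isOpen_lt Metric.continuous_infEDist Metric.continuous_infEDist
  have hexm : ∀ v : Set P, IsOpen v → ∀ p ∈ v, j p ∈ ex v := by
    intro v hv p hp
    obtain ⟨O, hO, hOv⟩ := hji.isOpen_iff.1 hv
    have h1 : Metric.infEDist (j p) (j '' v) = 0 :=
      Metric.infEDist_zero_of_mem (mem_image_of_mem j hp)
    have h2 : 0 < Metric.infEDist (j p) (j '' vᶜ) := by
      rw [Metric.infEDist_pos_iff_notMem_closure]
      have h3 : closure (j '' vᶜ) ⊆ Oᶜ := by
        refine closure_minimal ?_ hO.isClosed_compl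
        rintro _ ⟨q, hq, rfl⟩ hq'
        exact hq (by rw [← hOv]; exact hq')
      intro h4
      exact h3 h4 (by rw [← hOv] at hp; exact hp)
    show Metric.infEDist (j p) (j '' v) < Metric.infEDist (j p) (j '' vᶜ)
    rw [h1]
    exact h2
  have hexd : ∀ v w : Set P, Disjoint v w → ∀ y, y ∈ ex v → y ∈ ex w → False := by
    intro v w hvw y hyv hyw
    have h1 : Metric.infEDist y (j '' v) < Metric.infEDist y (j '' vᶜ) := hyv
    have h2 : Metric.infEDist y (j '' w) < Metric.infEDist y (j '' wᶜ) := hyw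
    have h3 : Metric.infEDist y (j '' vᶜ) ≤ Metric.infEDist y (j '' w) :=
      Metric.infEDist_anti (image_mono (Set.disjoint_left.1 hvw.symm))
    have h4 : Metric.infEDist y (j '' wᶜ) ≤ Metric.infEDist y (j '' v) :=
      Metric.infEDist_anti (image_mono (Set.disjoint_left.1 hvw))
    exact absurd (h1.trans_le (h3.trans (h2.le.trans h4))) (lt_irrefl _)
  set c : Set P → G := fun v => if h : v.Nonempty then f h.some else 1 with hc
  have hO : ∀ (i : ℕ) (v : Set P), ∃ O : Set Y, IsOpen O ∧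
      (Subtype.val : A → Y) ⁻¹' O = {a : A | κ.dL (c v) (f a) < e i} := by
    intro i v
    refine isOpen_induced_iff.1 ?_
    exact isOpen_lt (κ.continuous_dL.comp (continuous_const.prodMk hf)) continuous_const
  choose O hOo hOP using hO
  have hOP' : ∀ i v (a : A), (a : Y) ∈ O i v ↔ κ.dL (c v) (f a) < e i := by
    intro i v a
    have h1 : a ∈ (Subtype.val : A → Y) ⁻¹' (O i v) ↔ (a : Y) ∈ O i v := Iff.rfl
    rw [← h1, hOP i v]
    rfl
  set g : ℕ → Y → G := fun i y => if h : ∃ v ∈ V i, y ∈ ex v then c h.choose else 1 with hg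
  have hgv : ∀ i, ∀ v ∈ V i, ∀ y ∈ ex v, g i y = c v := by
    intro i v hv y hy
    have h : ∃ v ∈ V i, y ∈ ex v := ⟨v, hv, hy⟩
    have h1 : g i y = c h.choose := dif_pos h
    rw [h1]
    by_contra hne
    have h2 : h.choose ≠ v := fun h3 => hne (by rw [h3])
    exact hexd _ _ (hVd i h.choose_spec.1 hv h2) y h.choose_spec.2 hy
  refine ⟨fun i => ⋃ v ∈ V i, ex v ∩ O i v, g, e, ?_, ?_, fun i => (he0 i).le,
    summable_geometric_two' ε, (tsum_geometric_two' ε).le, ?_, ?_, ?_⟩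
  · exact fun i => isOpen_biUnion fun v _ => (hexo v).inter (hOo i v)
  · intro i y hy
    simp only [mem_iUnion] at hy
    obtain ⟨v, hv, hyv, _⟩ := hy
    refine ContinuousAt.continuousWithinAt ?_
    refine (continuousAt_const (y := c v)).congr ?_
    filter_upwards [(hexo v).mem_nhds hyv] with z hz
    exact (hgv i v hv z hz).symm
  · intro i a ha
    simp only [mem_iUnion] at ha
    obtain ⟨v, hv, hav, haO⟩ := ha
    rw [hgv i v hv a hav]
    exact ((hOP' i v a).1 haO).le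
  · intro a ha
    have h1 : (⟨a, ha⟩ : P) ∈ ⋃ i, ⋃₀ V i := by rw [hVc]; exact mem_univ _
    obtain ⟨i, hi⟩ := mem_iUnion.1 h1
    obtain ⟨v, hv, hav⟩ := hi
    refine ⟨i, ?_⟩
    simp only [mem_iUnion]
    refine ⟨v, hv, hexm v (hV i v hv).1 _ hav, (hOP' i v a).2 ?_⟩
    obtain ⟨_, ⟨p₀, rfl⟩, hvu⟩ := (hV i v hv).2
    have hne : v.Nonempty := ⟨_, hav⟩
    have h2 : c v = f hne.some := dif_pos hne
    rw [h2]
    have h3 : κ.dL (f p₀) (f hne.some) < e i / 2 := hvu hne.some_mem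
    have h4 : κ.dL (f p₀) (f a) < e i / 2 := hvu hav
    have h5 := κ.dL_triangle' (f hne.some) (f p₀) (f a)
    linarith
  · intro i y hy
    have hcD : ∀ v, c v ∈ D ε := by
      intro v
      by_cases h : v.Nonempty
      · have h2 : c v = f h.some := dif_pos h
        rw [h2]
        exact hfD ε hε _
      · have h2 : c v = 1 := dif_neg h
        rw [h2]
        exact h1D ε hε
    simp only [mem_iUnion] at hy
    obtain ⟨v, hv, hyv, _⟩ := hy
    rw [hgv i v hv y hyv]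
    exact hcD v

end Con

end Pool.Agent.H662.HM
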